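import Pool.Agent.Lib.MP_91c05b_co.K.Defs

/-! Darts modulo `M`. -/

namespace Pool.Agent.Lib.MP_91c05b_co

/-- `f` commutes with the shift by `M` -/
def Shf (M : ℕ) (f : Dart → Dart) : Prop := ∀ e, f (sh M e) = sh M (f e)

private theorem quo_sh_add (a b : ℤ) (e : Dart) : sh a (sh b e) = sh (a + b) e := by
  unfold sh
  ext
  · simp only
    ring
  · rfl
  · rfl

private theorem quo_sh_zero (e : Dart) : sh 0 e = e := by
  unfold sh
  ext
  · simp
  · rfl
  · rfl

private theorem quo_inv_mul {β : Type*} {M : ℕ} {F : Dart → β}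
    (hF : ∀ e, F (sh M e) = F e) (k : ℤ) : ∀ e, F (sh (k * M) e) = F e := by
  induction k using Int.induction_on with
  | zero => intro e; rw [zero_mul, quo_sh_zero]
  | succ i ih =>
    intro e
    have h : sh (((i : ℤ) + 1) * M) e = sh M (sh ((i : ℤ) * M) e) := by
      rw [quo_sh_add]; congr 1; ring
    rw [h, hF, ih]
  | pred i ih =>
    intro e
    have h : sh ((-(i : ℤ)) * M) e = sh M (sh ((-(i : ℤ) - 1) * M) e) := by
      rw [quo_sh_add]; congr 1; ring
    rw [← hF, ← h, ih]

/-- multiples of the shift: induction, in both directions -/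
theorem Shf.mul {M : ℕ} {f : Dart → Dart} (hf : Shf M f) (k : ℤ) (e : Dart) :
    f (sh (k * M) e) = sh (k * M) (f e) := by
  induction k using Int.induction_on generalizing e with
  | zero => rw [zero_mul, quo_sh_zero, quo_sh_zero]
  | succ i ih =>
    have h : ∀ d : Dart, sh (((i : ℤ) + 1) * M) d = sh M (sh ((i : ℤ) * M) d) := by
      intro d
      rw [quo_sh_add]; congr 1; ring
    rw [h, h, hf, ih]
  | pred i ih =>
    have h : ∀ d : Dart, sh ((-(i : ℤ)) * M) d = sh M (sh ((-(i : ℤ) - 1) * M) d) := by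
      intro d
      rw [quo_sh_add]; congr 1; ring
    have h1 := ih e
    rw [h, h, hf] at h1
    have h2 : ∀ a b : Dart, sh M a = sh M b → a = b := by
      intro a b hab
      have h3 := congrArg (sh (-(M : ℤ))) hab
      rw [quo_sh_add, quo_sh_add, neg_add_cancel, quo_sh_zero, quo_sh_zero] at h3
      exact h3
    exact h2 _ _ h1

/-- the representative of the projection differs from the dart by a multiple of the shift
(`ZMod.val_intCast`, `Int.emod_def`) -/
theorem rep_proj {M : ℕ} (hM : 0 < M) (e : Dart) : ∃ k : ℤ, rep (proj M e) = sh (k * M) e := by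
  have : NeZero M := ⟨hM.ne'⟩
  refine ⟨-(e.1 / M), ?_⟩
  unfold rep proj sh
  ext
  · simp only [ZMod.val_intCast]
    rw [Int.emod_def]
    ring
  · rfl
  · rfl

theorem proj_rep {M : ℕ} (hM : 0 < M) (x : ZMod M × Bool × Bool) : proj M (rep x) = x := by
  have : NeZero M := ⟨hM.ne'⟩
  unfold rep proj
  ext
  · simp
  · rfl
  · rfl

theorem proj_sh (M : ℕ) (k : ℤ) (e : Dart) : proj M (sh (k * M) e) = proj M e := by
  unfold proj sh
  ext
  · simp
  · rfl
  · rfl

/-- `proj` identifies exactly the shifts -/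
theorem proj_eq_iff {M : ℕ} (e e' : Dart) :
    proj M e = proj M e' ↔ ∃ k : ℤ, e' = sh (k * M) e := by
  constructor
  · intro h
    have h1 : ((e.1 : ℤ) : ZMod M) = ((e'.1 : ℤ) : ZMod M) := by
      have h3 := congrArg Prod.fst h
      exact h3
    have h2 : e.2 = e'.2 := by
      have h3 := congrArg Prod.snd h
      exact h3
    rw [ZMod.intCast_eq_intCast_iff_dvd_sub] at h1
    obtain ⟨k, hk⟩ := h1
    refine ⟨k, ?_⟩
    unfold sh
    refine Prod.ext ?_ ?_
    · simp only
      linarith
    · exact h2.symm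
  · rintro ⟨k, rfl⟩
    rw [proj_sh]

/-- the map induced by `f` modulo `M` -/
def quo (M : ℕ) (f : Dart → Dart) (x : ZMod M × Bool × Bool) : ZMod M × Bool × Bool :=
  proj M (f (rep x))

theorem quo_proj {M : ℕ} (hM : 0 < M) {f : Dart → Dart} (hf : Shf M f) (e : Dart) :
    quo M f (proj M e) = proj M (f e) := by
  obtain ⟨k, hk⟩ := rep_proj hM e
  unfold quo
  rw [hk, hf.mul, proj_sh]

/-- a shift invariant function has the same value at `rep (proj M e)` and at `e` -/
theorem inv_rep_proj {β : Type*} {M : ℕ} (hM : 0 < M) {F : Dart → β}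
    (hF : ∀ e, F (sh M e) = F e) (e : Dart) : F (rep (proj M e)) = F e := by
  obtain ⟨k, hk⟩ := rep_proj hM e
  rw [hk, quo_inv_mul hF]

/-- the permutation induced by a shift invariant bijection -/
def quoPerm {M : ℕ} (hM : 0 < M) (f g : Dart → Dart) (hf : Shf M f) (hg : Shf M g)
    (hfg : ∀ e, f (g e) = e) (hgf : ∀ e, g (f e) = e) : Equiv.Perm (ZMod M × Bool × Bool) where
  toFun := quo M f
  invFun := quo M g
  left_inv := by
    intro x
    rw [← proj_rep hM x, quo_proj hM hf, quo_proj hM hg, hgf]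
  right_inv := by
    intro x
    rw [← proj_rep hM x, quo_proj hM hg, quo_proj hM hf, hfg]

/-- iterates of the induced map -/
theorem quo_iterate {M : ℕ} (hM : 0 < M) {f : Dart → Dart} (hf : Shf M f) (j : ℕ) (e : Dart) :
    (quo M f)^[j] (proj M e) = proj M (f^[j] e) := by
  induction j generalizing e with
  | zero => rfl
  | succ j ih => rw [Function.iterate_succ_apply, Function.iterate_succ_apply, quo_proj hM hf, ih]

end Pool.Agent.Lib.MP_91c05b_co
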