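import Pool.Agent.Lib.MP_91c05b_co.K.Per
import Pool.Agent.Lib.MP_91c05b_co.K.Quo

namespace Pool.Agent.Lib.MP_91c05b_co

/-- the next half edge at the same crossing, counterclockwise -/
def dccw (e : Dart) : Dart := (e.1, !e.2.2, e.2.1)

theorem dcw_dccw (e : Dart) : dcw (dccw e) = e := by
  rcases e with ⟨t, r, u⟩; simp [dcw, dccw]

theorem dccw_dcw (e : Dart) : dccw (dcw e) = e := by
  rcases e with ⟨t, r, u⟩; simp [dcw, dccw]

namespace Sph

variable {n N : ℕ} (X : Sph n N)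

/-- `nx_spec` with `ex_gt_pos` (`dp_lt`) -/
theorem nb_right {e : Dart} (he : e.2.1 = true) :
    e.1 < X.nb e ∧ (X.γ (X.nb e) = X.dp e ∨ X.γ (X.nb e) = X.dp e + 1) ∧
      ∀ u, e.1 < u → u < X.nb e → ¬ (X.γ u = X.dp e ∨ X.γ u = X.dp e + 1) := by
  have h := nx_spec (X.ex_gt_pos (X.dp_lt e) e.1)
  have e1 : X.nb e = nx (fun x => X.γ x = X.dp e ∨ X.γ x = X.dp e + 1) e.1 := by
    unfold nb
    rw [if_pos he]
  rw [e1]
  exact h

theorem nb_left {e : Dart} (he : e.2.1 = false) :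
    X.nb e < e.1 ∧ (X.γ (X.nb e) = X.dp e ∨ X.γ (X.nb e) = X.dp e + 1) ∧
      ∀ u, X.nb e < u → u < e.1 → ¬ (X.γ u = X.dp e ∨ X.γ u = X.dp e + 1) := by
  have h := pv_spec (X.ex_lt_pos (X.dp_lt e) e.1)
  have e1 : X.nb e = pv (fun x => X.γ x = X.dp e ∨ X.γ x = X.dp e + 1) e.1 := by
    unfold nb
    rw [if_neg (by rw [he]; exact Bool.false_ne_true)]
  rw [e1]
  exact h

/-- the edge has the same position at both ends -/
theorem dp_al (e : Dart) : X.dp (X.al e) = X.dp e := by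
  have h : X.γ (X.nb e) = X.dp e ∨ X.γ (X.nb e) = X.dp e + 1 := by
    rcases h0 : e.2.1 with _ | _
    · exact (X.nb_left h0).2.1
    · exact (X.nb_right h0).2.1
  have e1 : X.dp (X.al e) =
      if decide (X.γ (X.nb e) = X.dp e) = true then X.γ (X.nb e) else X.γ (X.nb e) - 1 := rfl
  rw [e1]
  split_ifs with h1
  · exact of_decide_eq_true h1
  · have h2 : ¬ X.γ (X.nb e) = X.dp e := fun h3 => h1 (decide_eq_true h3)
    omega

/-- the crossing of the dart lies next to its position -/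
theorem γ_eq_dp (e : Dart) : X.γ e.1 = X.dp e ∨ X.γ e.1 = X.dp e + 1 := by
  have h := X.γ_pos e.1
  unfold dp
  split_ifs <;> omega

/-- `dp_al`, then `pv_nx` or `nx_pv` give the first component; the last component: `γ e.1 = dp e`
if and only if `e.2.2 = true`. -/
theorem al_al (e : Dart) : X.al (X.al e) = e := by
  have hS : X.γ e.1 = X.dp e ∨ X.γ e.1 = X.dp e + 1 := X.γ_eq_dp e
  have h1 : X.nb (X.al e) = e.1 := by
    have e1 : X.nb (X.al e) = if (!e.2.1) = true then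
        nx (fun x => X.γ x = X.dp (X.al e) ∨ X.γ x = X.dp (X.al e) + 1) (X.nb e)
      else pv (fun x => X.γ x = X.dp (X.al e) ∨ X.γ x = X.dp (X.al e) + 1) (X.nb e) := rfl
    rw [e1, X.dp_al]
    rcases h0 : e.2.1 with _ | _
    · rw [if_pos (by rfl)]
      have e2 : X.nb e = pv (fun x => X.γ x = X.dp e ∨ X.γ x = X.dp e + 1) e.1 := by
        unfold nb
        rw [if_neg (by rw [h0]; exact Bool.false_ne_true)]
      rw [e2]
      exact nx_pv (S := fun x => X.γ x = X.dp e ∨ X.γ x = X.dp e + 1) hS (X.ex_lt_pos (X.dp_lt e) e.1)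
    · rw [if_neg (by decide)]
      have e2 : X.nb e = nx (fun x => X.γ x = X.dp e ∨ X.γ x = X.dp e + 1) e.1 := by
        unfold nb
        rw [if_pos h0]
      rw [e2]
      exact pv_nx (S := fun x => X.γ x = X.dp e ∨ X.γ x = X.dp e + 1) hS (X.ex_gt_pos (X.dp_lt e) e.1)
  have h2 : decide (X.γ e.1 = X.dp e) = e.2.2 := by
    have hp := X.γ_pos e.1
    rcases h0 : e.2.2 with _ | _
    · have e3 : X.dp e = X.γ e.1 - 1 := by
        unfold dp
        rw [if_neg (by rw [h0]; exact Bool.false_ne_true)]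
      rw [e3]
      exact decide_eq_false (by omega)
    · have e3 : X.dp e = X.γ e.1 := by
        unfold dp
        rw [if_pos h0]
      rw [e3]
      exact decide_eq_true rfl
  have e4 : X.al (X.al e) = (X.nb (X.al e), !(!e.2.1), decide (X.γ (X.nb (X.al e)) = X.dp (X.al e))) := rfl
  rw [e4, X.dp_al, h1, h2, Bool.not_not]

theorem al_fst (e : Dart) : (X.al e).1 = X.nb e := rfl

/-- `nx_shift`, `pv_shift`, `γ_per` -/
theorem al_sh : Shf (2 * N) X.al := by
  intro e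
  have e0 : (((2 * N : ℕ)) : ℤ) = 2 * (N : ℤ) := by push_cast; rfl
  have hγ : ∀ u : ℤ, X.γ (u + ((2 * N : ℕ) : ℤ)) = X.γ u := by
    intro u
    rw [e0]
    exact X.γ_per u
  have hd : X.dp (sh ((2 * N : ℕ) : ℤ) e) = X.dp e := by
    have e1 : X.dp (sh ((2 * N : ℕ) : ℤ) e) = if e.2.2 = true then X.γ (e.1 + ((2 * N : ℕ) : ℤ))
      else X.γ (e.1 + ((2 * N : ℕ) : ℤ)) - 1 := rfl
    rw [e1, hγ]
    rfl
  have hS : ∀ u : ℤ, (X.γ (u + ((2 * N : ℕ) : ℤ)) = X.dp e ∨ X.γ (u + ((2 * N : ℕ) : ℤ)) = X.dp e + 1) ↔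
      (X.γ u = X.dp e ∨ X.γ u = X.dp e + 1) := by
    intro u
    rw [hγ]
  have hn : X.nb (sh ((2 * N : ℕ) : ℤ) e) = X.nb e + ((2 * N : ℕ) : ℤ) := by
    have e1 : X.nb (sh ((2 * N : ℕ) : ℤ) e) = if e.2.1 = true then
        nx (fun x => X.γ x = X.dp (sh ((2 * N : ℕ) : ℤ) e) ∨ X.γ x = X.dp (sh ((2 * N : ℕ) : ℤ) e) + 1)
          (e.1 + ((2 * N : ℕ) : ℤ))
      else pv (fun x => X.γ x = X.dp (sh ((2 * N : ℕ) : ℤ) e) ∨ X.γ x = X.dp (sh ((2 * N : ℕ) : ℤ) e) + 1)
          (e.1 + ((2 * N : ℕ) : ℤ)) := rfl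
    rw [e1, hd]
    unfold nb
    split_ifs
    · exact nx_shift (S := fun x => X.γ x = X.dp e ∨ X.γ x = X.dp e + 1)
        (S' := fun x => X.γ x = X.dp e ∨ X.γ x = X.dp e + 1) hS e.1
    · exact pv_shift (S := fun x => X.γ x = X.dp e ∨ X.γ x = X.dp e + 1)
        (S' := fun x => X.γ x = X.dp e ∨ X.γ x = X.dp e + 1) hS e.1
  have e2 : X.al (sh ((2 * N : ℕ) : ℤ) e) = (X.nb (sh ((2 * N : ℕ) : ℤ) e), !e.2.1,
    decide (X.γ (X.nb (sh ((2 * N : ℕ) : ℤ) e)) = X.dp (sh ((2 * N : ℕ) : ℤ) e))) := rfl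
  rw [e2, hn, hd, hγ]
  rfl

/-- inverse of `phi` -/
noncomputable def phiInv (e : Dart) : Dart := X.al (dccw e)

theorem phi_phiInv (e : Dart) : X.phi (X.phiInv e) = e := by
  unfold phi phiInv; rw [X.al_al, dcw_dccw]

theorem phiInv_phi (e : Dart) : X.phiInv (X.phi e) = e := by
  unfold phi phiInv; rw [dccw_dcw, X.al_al]

theorem phi_sh : Shf (2 * N) X.phi := by
  intro e
  have h := X.al_sh e
  unfold phi
  rw [h]
  rfl

theorem phiInv_sh : Shf (2 * N) X.phiInv := by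
  intro e
  exact X.al_sh (dccw e)

/-- the other end of an edge is another crossing: `nb_right`, `nb_left` -/
theorem phi_ne (e : Dart) : X.phi e ≠ e := by
  intro h
  have h1 : X.nb e = e.1 := congrArg Prod.fst h
  rcases h0 : e.2.1 with _ | _
  · have := (X.nb_left h0).1
    omega
  · have := (X.nb_right h0).1
    omega

include X in
theorem two_N_pos : 0 < 2 * N := by
  have := X.N_pos; omega

/-- the permutation `al` modulo `2 N` -/
noncomputable def alQ : Equiv.Perm (ZMod (2 * N) × Bool × Bool) :=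
  quoPerm X.two_N_pos X.al X.al X.al_sh X.al_sh X.al_al X.al_al

/-- the permutation `phi` modulo `2 N` -/
noncomputable def phiQ : Equiv.Perm (ZMod (2 * N) × Bool × Bool) :=
  quoPerm X.two_N_pos X.phi X.phiInv X.phi_sh X.phiInv_sh X.phi_phiInv X.phiInv_phi

theorem alQ_proj (e : Dart) : X.alQ (proj (2 * N) e) = proj (2 * N) (X.al e) :=
  quo_proj X.two_N_pos X.al_sh e

theorem phiQ_proj (e : Dart) : X.phiQ (proj (2 * N) e) = proj (2 * N) (X.phi e) :=
  quo_proj X.two_N_pos X.phi_sh e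

end Sph

end Pool.Agent.Lib.MP_91c05b_co
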