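import Pool.Agent.Lib.MP_91c05b_co.K.Alpha

namespace Pool.Agent.Lib.MP_91c05b_co

/-- `pv` agrees at `a` and at `b` if no element of `S` lies in the half-open interval `[a, b)` -/
theorem cella_pv_eq {S : ℤ → Prop} {a b : ℤ} (hab : a < b) (hS : ∀ u, a < u → u < b → ¬ S u)
    (ha : ¬ S a) (hex : ∃ u, u < a ∧ S u) : pv S b = pv S a := by
  obtain ⟨h1, h2, h3⟩ := pv_spec hex
  refine pv_eq (h1.trans hab) h2 ?_
  intro u hu1 hu2 hu3
  rcases lt_trichotomy u a with h | h | h
  · exact h3 u hu1 h hu3
  · exact ha (h ▸ hu3)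
  · exact hS u h hu2 hu3

namespace Sph

variable {n N : ℕ} (X : Sph n N)

/-- `phi` stays in the cell. Eight cases. A right lower dart `(t, true, false)` runs along the
bottom of the gap `γ t`; its other end `w` is the next crossing with `γ w = γ t` (then
`phi = (w, false, true)` and `pv` leads back to `t`) or `γ w + 1 = γ t` (then
`phi = (w, true, true)`). A right upper dart has the gap `γ t + 1` above it; `w` is the next
crossing with `γ w = γ t + 1` (then `phi = (w, false, true)`) or `γ w = γ t` (then
`phi = (w, true, true)`); in both cases there is no crossing in the gap `γ t + 1` from `t` to `w`,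
so `pv` from `w` and from `t` agree (`pv_eq`, `pv_spec`). A left upper dart has the gap `γ t` below
it; `w` is the previous crossing with `γ w = γ t` (then `phi = (w, true, false)`) or `γ w = γ t + 1`
(then `phi = (w, false, false)`). A left lower dart has the gap `γ t - 1` below it; `w` is the
previous crossing with `γ w + 1 = γ t` (then `phi = (w, true, false)`) or `γ w = γ t` (then
`phi = (w, false, false)`). -/
theorem cell_phi (e : Dart) : X.cell (X.phi e) = X.cell e := by
  have hphi : X.phi e = (X.nb e, decide (X.γ (X.nb e) = X.dp e), e.2.1) := by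
    simp [phi, al, dcw]
  rw [hphi]
  have hR := X.nb_right (e := e)
  have hL := X.nb_left (e := e)
  generalize X.nb e = w at *
  have hw1 := X.γ_pos w
  have hw2 := X.γ_lt w
  rcases e with ⟨t, r, u⟩
  have ht1 := X.γ_pos t
  have ht2 := X.γ_lt t
  cases r <;> cases u
  · -- left lower
    obtain ⟨h1, h2, h3⟩ := hL rfl
    simp only [dp, Bool.false_eq_true, if_false] at h1 h2 h3 ⊢
    by_cases hd : X.γ w = X.γ t - 1
    · rw [decide_eq_true hd]
      have e1 : X.γ t ≠ 1 := by omega
      simp only [cell, if_neg e1]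
      rw [pv_eq h1 (by omega) (fun v hv1 hv2 hv3 => h3 v hv1 hv2 (Or.inl (by omega)))]
    · rw [decide_eq_false hd]
      have e0 : X.γ w = X.γ t := by omega
      simp only [cell, e0]
      by_cases e1 : X.γ t = 1
      · rw [if_pos e1, if_pos e1]
      · rw [if_neg e1, if_neg e1]
        rw [cella_pv_eq h1 (fun v hv1 hv2 hv3 => h3 v hv1 hv2 (Or.inl (by omega))) (by omega)]
        obtain ⟨v, hv1, hv2⟩ := X.ex_lt (g := X.γ t - 1) (by omega) (by omega) w
        exact ⟨v, hv1, by omega⟩
  · -- left upper
    obtain ⟨h1, h2, h3⟩ := hL rfl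
    simp only [dp, if_true] at h1 h2 h3 ⊢
    by_cases hd : X.γ w = X.γ t
    · rw [decide_eq_true hd]
      simp only [cell]
      rw [pv_eq h1 hd (fun v hv1 hv2 hv3 => h3 v hv1 hv2 (Or.inl hv3))]
    · rw [decide_eq_false hd]
      have e0 : X.γ w = X.γ t + 1 := by omega
      have e1 : ¬ X.γ t + 1 = 1 := by omega
      simp only [cell, e0, if_neg e1]
      have e2 : (fun x => X.γ x + 1 = X.γ t + 1) = (fun x => X.γ x = X.γ t) := by
        funext x
        exact propext ⟨fun h => by omega, fun h => by omega⟩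
      rw [e2, cella_pv_eq h1 (fun v hv1 hv2 hv3 => h3 v hv1 hv2 (Or.inl hv3)) hd]
      exact X.ex_lt ht1 ht2 w
  · -- right lower
    obtain ⟨h1, h2, h3⟩ := hR rfl
    simp only [dp, Bool.false_eq_true, if_false] at h1 h2 h3 ⊢
    by_cases hd : X.γ w = X.γ t - 1
    · rw [decide_eq_true hd]
      have e1 : X.γ w + 1 ≠ n := by omega
      simp only [cell, if_neg e1]
      rw [pv_eq h1 (by omega) (fun v hv1 hv2 hv3 => h3 v hv1 hv2 (Or.inr (by omega)))]
    · rw [decide_eq_false hd]
      have e0 : X.γ w = X.γ t := by omega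
      simp only [cell]
      rw [pv_eq h1 e0.symm (fun v hv1 hv2 hv3 => h3 v hv1 hv2 (Or.inr (by omega)))]
  · -- right upper
    obtain ⟨h1, h2, h3⟩ := hR rfl
    simp only [dp, if_true] at h1 h2 h3 ⊢
    by_cases hd : X.γ w = X.γ t
    · rw [decide_eq_true hd]
      simp only [cell, hd]
      by_cases e1 : X.γ t + 1 = n
      · rw [if_pos e1, if_pos e1]
      · rw [if_neg e1, if_neg e1]
        rw [cella_pv_eq h1 (fun v hv1 hv2 hv3 => h3 v hv1 hv2 (Or.inr hv3)) (by omega)]
        exact X.ex_lt (by omega) (by omega) t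
    · rw [decide_eq_false hd]
      have e0 : X.γ w = X.γ t + 1 := by omega
      have e1 : ¬ X.γ t + 1 = n := by omega
      simp only [cell, e0, if_neg e1]
      rw [cella_pv_eq h1 (fun v hv1 hv2 hv3 => h3 v hv1 hv2 (Or.inr hv3)) (by omega)]
      exact X.ex_lt (by omega) (by omega) t

theorem sz_phi (e : Dart) : X.sz (X.phi e) = X.sz e := by
  unfold sz; rw [X.cell_phi]

end Sph

end Pool.Agent.Lib.MP_91c05b_co
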