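import Pool.Agent.Lib.MP_91c05b_co.K.Alpha

namespace Pool.Agent.Lib.MP_91c05b_co

namespace Sph

variable {n N : ℕ} (X : Sph n N)

private theorem cellb_per (t : ℤ) : X.γ (t + ((2 * N : ℕ) : ℤ)) = X.γ t := by
  have := X.γ_per t
  rw [← this]
  push_cast
  rfl

theorem cell_sh (e : Dart) :
    X.cell (sh (2 * N : ℕ) e) = (X.cell e).map (fun t : ℤ => t + ((2 * N : ℕ) : ℤ)) := by
  rcases e with ⟨t, r, u⟩
  have hp := X.cellb_per
  have h1 : pv (fun x => X.γ x = X.γ (t + ((2 * N : ℕ) : ℤ))) (t + ((2 * N : ℕ) : ℤ)) =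
      pv (fun x => X.γ x = X.γ t) t + ((2 * N : ℕ) : ℤ) :=
    pv_shift (fun u => by rw [hp, hp]) t
  have h2 : pv (fun x => X.γ x = X.γ (t + ((2 * N : ℕ) : ℤ)) + 1) (t + ((2 * N : ℕ) : ℤ)) =
      pv (fun x => X.γ x = X.γ t + 1) t + ((2 * N : ℕ) : ℤ) :=
    pv_shift (fun u => by rw [hp, hp]) t
  have h3 : pv (fun x => X.γ x + 1 = X.γ (t + ((2 * N : ℕ) : ℤ))) (t + ((2 * N : ℕ) : ℤ)) =
      pv (fun x => X.γ x + 1 = X.γ t) t + ((2 * N : ℕ) : ℤ) :=
    pv_shift (fun u => by rw [hp, hp]) t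
  cases r <;> cases u
  · show (if X.γ (t + ((2 * N : ℕ) : ℤ)) = 1 then none else
      some (pv (fun x => X.γ x + 1 = X.γ (t + ((2 * N : ℕ) : ℤ))) (t + ((2 * N : ℕ) : ℤ)))) =
      (if X.γ t = 1 then none else some (pv (fun x => X.γ x + 1 = X.γ t) t)).map _
    rw [h3, hp]
    by_cases hc : X.γ t = 1
    · rw [if_pos hc, if_pos hc]; rfl
    · rw [if_neg hc, if_neg hc]; rfl
  · show some (pv (fun x => X.γ x = X.γ (t + ((2 * N : ℕ) : ℤ))) (t + ((2 * N : ℕ) : ℤ))) =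
      (some (pv (fun x => X.γ x = X.γ t) t)).map _
    rw [h1]; rfl
  · rfl
  · show (if X.γ (t + ((2 * N : ℕ) : ℤ)) + 1 = n then none else
      some (pv (fun x => X.γ x = X.γ (t + ((2 * N : ℕ) : ℤ)) + 1) (t + ((2 * N : ℕ) : ℤ)))) =
      (if X.γ t + 1 = n then none else some (pv (fun x => X.γ x = X.γ t + 1) t)).map _
    rw [h2, hp]
    by_cases hc : X.γ t + 1 = n
    · rw [if_pos hc, if_pos hc]; rfl
    · rw [if_neg hc, if_neg hc]; rfl

/-- Shifting by `N` turns the diagram upside down: `γ (t + N) = n - γ t`. The interval is shifted by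
`N` (`nx_shift`) and the two kinds of touching crossings are exchanged. -/
theorem sides_add (t : ℤ) : X.sides (t + N) = X.sides t := by
  have hnx : nx (fun x => X.γ x = X.γ (t + N)) (t + N) = nx (fun x => X.γ x = X.γ t) t + N := by
    refine nx_shift (fun u => ?_) t
    rw [X.γ_add, X.γ_add]
    have h1 := X.γ_lt u
    have h2 := X.γ_lt t
    omega
  unfold sides
  rw [hnx]
  congr 1
  symm
  refine Finset.card_bij (fun u _ => u + N) ?_ ?_ ?_
  · intro u hu
    rw [Finset.mem_filter, Finset.mem_Ioo] at hu ⊢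
    refine ⟨⟨by omega, by omega⟩, ?_⟩
    rw [X.γ_add, X.γ_add]
    have h1 := X.γ_lt u
    have h2 := X.γ_lt t
    have h3 := hu.2
    omega
  · intro u _ v _ h
    exact add_right_cancel h
  · intro v hv
    rw [Finset.mem_filter, Finset.mem_Ioo] at hv
    refine ⟨v - N, ?_, by ring⟩
    rw [Finset.mem_filter, Finset.mem_Ioo]
    refine ⟨⟨by omega, by omega⟩, ?_⟩
    have e : v - N + N = v := by ring
    have h0 := X.γ_add (v - N)
    rw [e] at h0
    have h1 := X.γ_lt (v - N)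
    have h2 := X.γ_lt t
    have h3 := hv.2
    rw [h0, X.γ_add] at h3
    omega

theorem sides_per (t : ℤ) : X.sides (t + 2 * N) = X.sides t := by
  have e : t + 2 * (N : ℤ) = t + N + N := by ring
  rw [e, X.sides_add, X.sides_add]

theorem sz_sh (e : Dart) : X.sz (sh (2 * N : ℕ) e) = X.sz e := by
  unfold sz
  rw [X.cell_sh]
  cases X.cell e with
  | none => rfl
  | some t =>
    show X.sides (t + ((2 * N : ℕ) : ℤ)) = X.sides t
    have := X.sides_per t
    rw [← this]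
    push_cast
    rfl

/-- `touch_ex` and `nx_spec` -/
theorem sides_ge (t : ℤ) : 3 ≤ X.sides t := by
  obtain ⟨h1, h2, h3⟩ := nx_spec (X.ex_gt (X.γ_pos t) (X.γ_lt t) t)
  obtain ⟨u, hu1, hu2, hu3⟩ := X.touch_ex t (nx (fun x => X.γ x = X.γ t) t) h1 h2 h3
  unfold sides
  have : 0 < ((Finset.Ioo t (nx (fun x => X.γ x = X.γ t) t)).filter
      (fun u => X.γ u + 1 = X.γ t ∨ X.γ u = X.γ t + 1)).card := by
    rw [Finset.card_pos]
    exact ⟨u, Finset.mem_filter.2 ⟨Finset.mem_Ioo.2 ⟨hu1, hu2⟩, hu3⟩⟩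
  omega

theorem sz_ge (e : Dart) : 3 ≤ X.sz e := by
  unfold sz
  cases X.cell e with
  | none => exact X.outer_ge
  | some t => exact X.sides_ge t

end Sph

end Pool.Agent.Lib.MP_91c05b_co
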