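import Pool.Agent.Lib.MP_91c05b_co.K.Alpha

namespace Pool.Agent.Lib.MP_91c05b_co

namespace Sph

variable {n N : ℕ} (X : Sph n N)

/-- the darts (corners) of the cell that begins at the crossing `t` -/
noncomputable def K (t : ℤ) : Finset Dart :=
  {(t, true, false), (nx (fun x => X.γ x = X.γ t) t, false, true)} ∪
    (((Finset.Ioo t (nx (fun x => X.γ x = X.γ t) t)).filter (fun u => X.γ u + 1 = X.γ t)).image
      (fun u => (u, true, true)) ∪
    ((Finset.Ioo t (nx (fun x => X.γ x = X.γ t) t)).filter (fun u => X.γ u = X.γ t + 1)).image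
      (fun u => (u, false, false)))

/-- `pv_nx`, `nx_pv`, `pv_spec`, `nx_spec` -/
theorem mem_K {t : ℤ} {e : Dart} : e ∈ X.K t ↔ X.cell e = some t := by
  obtain ⟨hs1, hs2, hs3⟩ := nx_spec (S := fun x => X.γ x = X.γ t) (X.ex_gt (X.γ_pos t) (X.γ_lt t) t)
  have hs2' : X.γ (nx (fun x => X.γ x = X.γ t) t) = X.γ t := hs2
  have hmem : e ∈ X.K t ↔ e = (t, true, false) ∨ e = (nx (fun x => X.γ x = X.γ t) t, false, true) ∨
      (∃ u, (t < u ∧ u < nx (fun x => X.γ x = X.γ t) t) ∧ X.γ u + 1 = X.γ t ∧
        (u, true, true) = e) ∨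
      (∃ u, (t < u ∧ u < nx (fun x => X.γ x = X.γ t) t) ∧ X.γ u = X.γ t + 1 ∧
        (u, false, false) = e) := by
    unfold K
    simp only [Finset.mem_union, Finset.mem_insert, Finset.mem_singleton, Finset.mem_image,
      Finset.mem_filter, Finset.mem_Ioo, and_assoc, or_assoc]
  rw [hmem]
  rcases e with ⟨u, r, v⟩
  rcases r with _ | _ <;> rcases v with _ | _
  · -- `(u, false, false)`
    simp only [Prod.mk.injEq, Bool.false_eq_true, Bool.true_eq_false, and_false, false_and,
      or_false, false_or, and_true, exists_false]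
    rw [show X.cell (u, false, false) =
      (if X.γ u = 1 then none else some (pv (fun x => X.γ x + 1 = X.γ u) u)) from rfl]
    constructor
    · rintro ⟨u', ⟨h1, h2⟩, h3, h4⟩
      have h5 : u' = u := h4
      subst h5
      rw [if_neg (by have := X.γ_pos t; omega)]
      congr 1
      refine pv_eq h1 (show X.γ t + 1 = X.γ u' from h3.symm) fun x hx1 hx2 hx3 => ?_
      exact hs3 x hx1 (hx2.trans h2) (show X.γ x = X.γ t by omega)
    · intro h
      by_cases h1 : X.γ u = 1
      · rw [if_pos h1] at h
        exact absurd h (by simp)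
      · rw [if_neg h1] at h
        have h2 : pv (fun x => X.γ x + 1 = X.γ u) u = t := by simpa using h
        have hp := X.γ_pos u
        have hl := X.γ_lt u
        obtain ⟨w, hw1, hw2⟩ := X.ex_lt (g := X.γ u - 1) (by omega) (by omega) u
        obtain ⟨h3, h4, h5⟩ := pv_spec (S := fun x => X.γ x + 1 = X.γ u) (t := u)
          ⟨w, hw1, show X.γ w + 1 = X.γ u by omega⟩
        rw [h2] at h3 h4 h5
        have h4' : X.γ t + 1 = X.γ u := h4
        refine ⟨u, ⟨h3, ?_⟩, h4'.symm, rfl⟩
        by_contra hcon
        push Not at hcon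
        have hne : nx (fun x => X.γ x = X.γ t) t ≠ u := by
          intro h6
          rw [h6] at hs2'
          omega
        exact h5 _ hs1 (lt_of_le_of_ne hcon hne)
          (show X.γ (nx (fun x => X.γ x = X.γ t) t) + 1 = X.γ u by omega)
  · -- `(u, false, true)`
    simp only [Prod.mk.injEq, Bool.false_eq_true, Bool.true_eq_false, and_false, false_and,
      or_false, false_or, and_true, exists_false]
    rw [show X.cell (u, false, true) = some (pv (fun x => X.γ x = X.γ u) u) from rfl]
    constructor
    · intro h
      rw [h]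
      congr 1
      refine pv_eq hs1 (show X.γ t = X.γ (nx (fun x => X.γ x = X.γ t) t) from hs2'.symm)
        fun x hx1 hx2 hx3 => ?_
      exact hs3 x hx1 hx2 (show X.γ x = X.γ t from (show X.γ x = X.γ _ from hx3).trans hs2')
    · intro h
      have h2 : pv (fun x => X.γ x = X.γ u) u = t := by simpa using h
      obtain ⟨h3, h4, h5⟩ := pv_spec (S := fun x => X.γ x = X.γ u) (t := u)
        (X.ex_lt (X.γ_pos u) (X.γ_lt u) u)
      rw [h2] at h3 h4 h5
      have h4' : X.γ t = X.γ u := h4
      symm
      refine nx_eq h3 (show X.γ u = X.γ t from h4'.symm) fun x hx1 hx2 hx3 => ?_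
      exact h5 x hx1 hx2 (show X.γ x = X.γ u from (show X.γ x = X.γ t from hx3).trans h4')
  · -- `(u, true, false)`
    simp only [Prod.mk.injEq, Bool.false_eq_true, Bool.true_eq_false, and_false, false_and,
      or_false, and_true, exists_false]
    rw [show X.cell (u, true, false) = some u from rfl]
    exact ⟨fun h => by rw [h], fun h => by simpa using h⟩
  · -- `(u, true, true)`
    simp only [Prod.mk.injEq, Bool.false_eq_true, Bool.true_eq_false, and_false, false_and,
      or_false, false_or, and_true, exists_false]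
    rw [show X.cell (u, true, true) =
      (if X.γ u + 1 = n then none else some (pv (fun x => X.γ x = X.γ u + 1) u)) from rfl]
    constructor
    · rintro ⟨u', ⟨h1, h2⟩, h3, h4⟩
      have h5 : u' = u := h4
      subst h5
      rw [if_neg (by have := X.γ_lt t; omega)]
      congr 1
      refine pv_eq h1 (show X.γ t = X.γ u' + 1 from h3.symm) fun x hx1 hx2 hx3 => ?_
      exact hs3 x hx1 (hx2.trans h2) (show X.γ x = X.γ t by omega)
    · intro h
      by_cases h1 : X.γ u + 1 = n
      · rw [if_pos h1] at h
        exact absurd h (by simp)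
      · rw [if_neg h1] at h
        have h2 : pv (fun x => X.γ x = X.γ u + 1) u = t := by simpa using h
        have hp := X.γ_pos u
        have hl := X.γ_lt u
        obtain ⟨h3, h4, h5⟩ := pv_spec (S := fun x => X.γ x = X.γ u + 1) (t := u)
          (X.ex_lt (g := X.γ u + 1) (by omega) (by omega) u)
        rw [h2] at h3 h4 h5
        have h4' : X.γ t = X.γ u + 1 := h4
        refine ⟨u, ⟨h3, ?_⟩, h4'.symm, rfl⟩
        by_contra hcon
        push Not at hcon
        have hne : nx (fun x => X.γ x = X.γ t) t ≠ u := by
          intro h6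
          rw [h6] at hs2'
          omega
        exact h5 _ hs1 (lt_of_le_of_ne hcon hne)
          (show X.γ (nx (fun x => X.γ x = X.γ t) t) = X.γ u + 1 by omega)

theorem card_K (t : ℤ) : (X.K t).card = X.sides t := by
  unfold K sides
  rw [Finset.card_union_of_disjoint, Finset.card_union_of_disjoint, Finset.card_pair,
    Finset.card_image_of_injective, Finset.card_image_of_injective, Finset.filter_or,
    Finset.card_union_of_disjoint]
  · rw [Finset.disjoint_left]
    intro u h1 h2
    have h3 := (Finset.mem_filter.1 h1).2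
    have h4 := (Finset.mem_filter.1 h2).2
    omega
  · intro u v h
    exact (Prod.mk.inj h).1
  · intro u v h
    exact (Prod.mk.inj h).1
  · intro h
    simp at h
  · rw [Finset.disjoint_left]
    intro x h1 h2
    obtain ⟨u, _, hu⟩ := Finset.mem_image.1 h1
    obtain ⟨v, _, hv⟩ := Finset.mem_image.1 h2
    rw [← hu] at hv
    simp at hv
  · rw [Finset.disjoint_left]
    intro x h1 h2
    rw [Finset.mem_insert, Finset.mem_singleton] at h1
    rw [Finset.mem_union] at h2
    rcases h2 with h2 | h2
    · obtain ⟨v, _, hv⟩ := Finset.mem_image.1 h2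
      rcases h1 with h1 | h1
      · rw [h1] at hv
        simp at hv
      · rw [h1] at hv
        simp at hv
    · obtain ⟨v, _, hv⟩ := Finset.mem_image.1 h2
      rcases h1 with h1 | h1
      · rw [h1] at hv
        simp at hv
      · rw [h1] at hv
        simp at hv

end Sph

end Pool.Agent.Lib.MP_91c05b_co
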