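import Mathlib

namespace Pool.Agent.Lib.MP_91c05b_co

private theorem perm_three {β : Type*} [DecidableEq β] {s : Finset β} (hc : s.card = 3)
    {a b c : β} (ha : a ∈ s) (hb : b ∈ s) (hc' : c ∈ s) (hab : a ≠ b) (hac : a ≠ c) (hbc : b ≠ c)
    {y : β} (hy : y ∈ s) : y = a ∨ y = b ∨ y = c := by
  have h : ({a, b, c} : Finset β) = s := by
    refine Finset.eq_of_subset_of_card_le ?_ ?_
    · intro z hz
      simp only [Finset.mem_insert, Finset.mem_singleton] at hz
      rcases hz with rfl | rfl | rfl <;> assumption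
    · rw [hc, Finset.card_eq_three.mpr ⟨a, b, c, hab, hac, hbc, rfl⟩]
  rw [← h] at hy
  simpa using hy

private theorem perm_four {β : Type*} [DecidableEq β] {s : Finset β} (hc : s.card = 4)
    {a b c d : β} (ha : a ∈ s) (hb : b ∈ s) (hc' : c ∈ s) (hd : d ∈ s) (hab : a ≠ b) (hac : a ≠ c)
    (had : a ≠ d) (hbc : b ≠ c) (hbd : b ≠ d) (hcd : c ≠ d)
    {y : β} (hy : y ∈ s) : y = a ∨ y = b ∨ y = c ∨ y = d := by
  have h : ({a, b, c, d} : Finset β) = s := by
    refine Finset.eq_of_subset_of_card_le ?_ ?_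
    · intro z hz
      simp only [Finset.mem_insert, Finset.mem_singleton] at hz
      rcases hz with rfl | rfl | rfl | rfl <;> assumption
    · have h1 : ({b, c, d} : Finset β).card = 3 := Finset.card_eq_three.mpr ⟨b, c, d, hbc, hbd, hcd, rfl⟩
      have h2 : a ∉ ({b, c, d} : Finset β) := by
        simp only [Finset.mem_insert, Finset.mem_singleton, not_or]
        exact ⟨hab, hac, had⟩
      rw [hc, Finset.card_insert_of_notMem h2, h1]
  rw [← h] at hy
  simpa using hy

/-- A bijection of a set of three elements without fixed points is a 3-cycle. -/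
theorem cube_of_card_three {β : Type*} [DecidableEq β] {s : Finset β} (f : β → β)
    (hm : ∀ x ∈ s, f x ∈ s) (hi : ∀ x ∈ s, ∀ y ∈ s, f x = f y → x = y)
    (hf : ∀ x ∈ s, f x ≠ x) (hc : s.card = 3) {x : β} (hx : x ∈ s) : f (f (f x)) = x := by
  have h1 := hm x hx
  have h2 := hm _ h1
  have h3 := hm _ h2
  by_cases e2 : f (f x) = x
  · exfalso
    obtain ⟨z, hz, hz'⟩ : ∃ z ∈ s, z ∉ ({x, f x} : Finset β) := by
      refine Finset.exists_mem_notMem_of_card_lt_card ?_
      rw [hc]
      exact lt_of_le_of_lt (Finset.card_le_two) (by norm_num)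
    simp only [Finset.mem_insert, Finset.mem_singleton, not_or] at hz'
    rcases perm_three hc hx h1 hz (hf x hx).symm (Ne.symm hz'.1) (Ne.symm hz'.2) (hm z hz) with h | h | h
    · exact hz'.2 (hi z hz _ h1 (h.trans e2.symm))
    · exact hz'.1 (hi z hz _ hx h)
    · exact hf z hz h
  · rcases perm_three hc hx h1 h2 (hf x hx).symm (Ne.symm e2) (hf _ h1).symm h3 with h | h | h
    · exact h
    · exact absurd (hi _ h2 _ hx h) e2
    · exact absurd h (hf _ h2)

/-- A bijection of a set of four elements without fixed points is a 4-cycle or a product of two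
2-cycles, so its fourth power is the identity. -/
theorem fourth_of_card_four {β : Type*} [DecidableEq β] {s : Finset β} (f : β → β)
    (hm : ∀ x ∈ s, f x ∈ s) (hi : ∀ x ∈ s, ∀ y ∈ s, f x = f y → x = y)
    (hf : ∀ x ∈ s, f x ≠ x) (hc : s.card = 4) {x : β} (hx : x ∈ s) : f (f (f (f x))) = x := by
  have h1 := hm x hx
  have h2 := hm _ h1
  have h3 := hm _ h2
  have h4 := hm _ h3
  by_cases e2 : f (f x) = x
  · rw [e2, e2]
  have d13 : f (f (f x)) ≠ f x := fun h => e2 (hi _ h2 _ hx h)
  by_cases e3 : f (f (f x)) = x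
  · exfalso
    obtain ⟨z, hz, hz'⟩ : ∃ z ∈ s, z ∉ ({x, f x, f (f x)} : Finset β) := by
      refine Finset.exists_mem_notMem_of_card_lt_card ?_
      rw [hc]
      exact lt_of_le_of_lt (Finset.card_le_three) (by norm_num)
    simp only [Finset.mem_insert, Finset.mem_singleton, not_or] at hz'
    rcases perm_four hc hx h1 h2 hz (hf x hx).symm (Ne.symm e2) (Ne.symm hz'.1) (hf _ h1).symm
      (Ne.symm hz'.2.1) (Ne.symm hz'.2.2) (hm z hz) with h | h | h | h
    · exact hz'.2.2 (hi z hz _ h2 (h.trans e3.symm))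
    · exact hz'.1 (hi z hz _ hx h)
    · exact hz'.2.1 (hi z hz _ h1 h)
    · exact hf z hz h
  · rcases perm_four hc hx h1 h2 h3 (hf x hx).symm (Ne.symm e2) (Ne.symm e3) (hf _ h1).symm
      (Ne.symm d13) (hf _ h2).symm h4 with h | h | h | h
    · exact h
    · exact absurd (hi _ h3 _ hx h) e3
    · exact absurd (hi _ h3 _ h1 h) d13
    · exact absurd h (hf _ h3)

end Pool.Agent.Lib.MP_91c05b_co
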