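import Pool.Agent.Lib.MP_91c05b_co.K.CellA
import Pool.Agent.Lib.MP_91c05b_co.K.CellC
import Pool.Agent.Lib.MP_91c05b_co.K.Perm

namespace Pool.Agent.Lib.MP_91c05b_co

namespace Sph

variable {n N : ℕ} (X : Sph n N)

/-- `cube_of_card_three` for `K t` -/
theorem phi3 {e : Dart} {t : ℤ} (h : X.cell e = some t) (h3 : X.sides t = 3) :
    X.phi (X.phi (X.phi e)) = e := by
  apply cube_of_card_three (s := X.K t) X.phi
  · intro x hx
    rw [X.mem_K] at hx ⊢
    rw [X.cell_phi]
    exact hx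
  · intro x _ y _ hxy
    rw [← X.phiInv_phi x, hxy, X.phiInv_phi]
  · intro x _
    exact X.phi_ne x
  · rw [X.card_K, h3]
  · exact X.mem_K.2 h

theorem phi4 {e : Dart} {t : ℤ} (h : X.cell e = some t) (h4 : X.sides t = 4) :
    X.phi (X.phi (X.phi (X.phi e))) = e := by
  apply fourth_of_card_four (s := X.K t) X.phi
  · intro x hx
    rw [X.mem_K] at hx ⊢
    rw [X.cell_phi]
    exact hx
  · intro x _ y _ hxy
    rw [← X.phiInv_phi x, hxy, X.phiInv_phi]
  · intro x _
    exact X.phi_ne x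
  · rw [X.card_K, h4]
  · exact X.mem_K.2 h

end Sph

end Pool.Agent.Lib.MP_91c05b_co
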