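import Pool.Agent.Lib.MP_91c05b_co.K.Quo

namespace Pool.Agent.Lib.MP_91c05b_co

open Finset

/-- sum over the darts modulo `M` of the values at the representatives: `ZMod.val` is a bijection
onto `0, …, M - 1` -/
theorem sum_quo {M : ℕ} [NeZero M] (F : Dart → ℕ) :
    ∑ x : ZMod M × Bool × Bool, F (rep x) =
      ∑ t ∈ Ico (0 : ℤ) M, ∑ q : Bool × Bool, F (t, q) := by
  rw [Fintype.sum_prod_type]
  refine Finset.sum_bij' (fun (x : ZMod M) _ => ((x.val : ℕ) : ℤ)) (fun (t : ℤ) _ => (t : ZMod M))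
    ?_ ?_ ?_ ?_ ?_
  · intro x _
    simp only [Finset.mem_Ico]
    exact ⟨by positivity, by exact_mod_cast ZMod.val_lt x⟩
  · intro t _
    exact Finset.mem_univ _
  · intro x _
    simp
  · intro t ht
    simp only [Finset.mem_Ico] at ht
    show (((t : ZMod M).val : ℕ) : ℤ) = t
    rw [ZMod.val_intCast, Int.emod_eq_of_lt ht.1 ht.2]
  · intro x _
    rfl

end Pool.Agent.Lib.MP_91c05b_co
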