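import Pool.Agent.Lib.MP_91c05b_co.K.Defs

namespace Pool.Agent.Lib.MP_91c05b_co

open Finset

private theorem cntb_sh0 (e : Dart) : sh 0 e = e := by
  unfold sh
  rw [add_zero]

private theorem cntb_shsh (a b : ℤ) (e : Dart) : sh a (sh b e) = sh (b + a) e := by
  unfold sh
  simp only [add_assoc]

private theorem cntb_K {M : ℕ} (K : ℤ → Finset Dart)
    (hK : ∀ t e, sh M e ∈ K (t + M) ↔ e ∈ K t) (c : ℤ) :
    ∀ t e, sh (M * c) e ∈ K (t + M * c) ↔ e ∈ K t := by
  induction c using Int.induction_on with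
  | zero => intro t e; rw [mul_zero, add_zero, cntb_sh0]
  | succ i ih =>
    intro t e
    have h1 := hK (t + M * i) (sh (M * i) e)
    rw [cntb_shsh] at h1
    rw [mul_add, mul_one, ← add_assoc, h1]
    exact ih t e
  | pred i ih =>
    intro t e
    have h1 := hK (t + M * (-(i : ℤ) - 1)) (sh (M * (-(i : ℤ) - 1)) e)
    rw [cntb_shsh] at h1
    have e1 : (M : ℤ) * (-(i : ℤ) - 1) + M = M * (-(i : ℤ)) := by ring
    have e2 : t + (M : ℤ) * (-(i : ℤ) - 1) + M = t + M * (-(i : ℤ)) := by ring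
    rw [e1, e2] at h1
    rw [← h1]
    exact ih t e

private theorem cntb_F {M : ℕ} (F : Dart → ℕ) (hF : ∀ e, F (sh M e) = F e) (c : ℤ) :
    ∀ e, F (sh (M * c) e) = F e := by
  induction c using Int.induction_on with
  | zero => intro e; rw [mul_zero, cntb_sh0]
  | succ i ih =>
    intro e
    have h1 := hF (sh (M * i) e)
    rw [cntb_shsh] at h1
    rw [mul_add, mul_one, h1]
    exact ih e
  | pred i ih =>
    intro e
    have h1 := hF (sh (M * (-(i : ℤ) - 1)) e)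
    rw [cntb_shsh] at h1
    have e1 : (M : ℤ) * (-(i : ℤ) - 1) + M = M * (-(i : ℤ)) := by ring
    rw [e1] at h1
    rw [← h1]
    exact ih e

/-- Periodic double counting. `K t` are pairwise disjoint finite sets of darts with
`K (t + M) = K t + M`, `F` is shift invariant, `In e` says that `e` lies in some `K t`. Proof: send
`(t, e)`, `t ∈ [0, M)`, `e ∈ K t`, to `e` shifted into `[0, M)`; the inverse shifts the `t` with
`e ∈ K t` into `[0, M)`. (Write both sides as cardinalities or use `Finset.sum_bij'` on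
`Finset.sigma`.) -/
theorem sum_cells {M : ℕ} (hM : 0 < M) (K : ℤ → Finset Dart)
    (hK : ∀ t e, sh M e ∈ K (t + M) ↔ e ∈ K t)
    (hd : ∀ t t' e, e ∈ K t → e ∈ K t' → t = t')
    (F : Dart → ℕ) (hF : ∀ e, F (sh M e) = F e)
    (In : Dart → Prop) [DecidablePred In] (hIn : ∀ e, In e ↔ ∃ t, e ∈ K t) :
    ∑ t ∈ Ico (0 : ℤ) M, ∑ e ∈ K t, F e =
      ∑ t ∈ Ico (0 : ℤ) M, ∑ q : Bool × Bool, if In (t, q) then F (t, q) else 0 := by
  classical
  have hM' : (0 : ℤ) < M := by exact_mod_cast hM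
  have hKc := fun c => cntb_K K hK c
  have hFc := fun c => cntb_F F hF c
  have hmod : ∀ e : Dart, ((e.1 % (M : ℤ), e.2) : Dart) = sh (M * (-(e.1 / M))) e := by
    intro e
    unfold sh
    rw [Int.emod_def]
    simp only [mul_neg, ← sub_eq_add_neg]
  rw [← Finset.sum_product' (Ico (0 : ℤ) M) (Finset.univ : Finset (Bool × Bool))
    (fun t q => if In (t, q) then F (t, q) else 0), Finset.sum_sigma']
  rw [← Finset.sum_filter (fun x : ℤ × (Bool × Bool) => In (x.1, x.2))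
    (fun x : ℤ × (Bool × Bool) => F (x.1, x.2))]
  refine Finset.sum_bij (fun x _ => ((x.2.1 % (M : ℤ), x.2.2) : Dart)) ?_ ?_ ?_ ?_
  · rintro ⟨t, e⟩ hx
    rw [Finset.mem_sigma] at hx
    rw [Finset.mem_filter, Finset.mem_product, Finset.mem_Ico]
    refine ⟨⟨⟨Int.emod_nonneg _ hM'.ne', Int.emod_lt_of_pos _ hM'⟩, Finset.mem_univ _⟩, ?_⟩
    show In ((e.1 % (M : ℤ), e.2) : Dart)
    rw [hmod e, hIn]
    exact ⟨t + M * (-(e.1 / M)), (hKc _ t e).2 hx.2⟩
  · rintro ⟨t, e⟩ hx ⟨t', e'⟩ hx' h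
    rw [Finset.mem_sigma, Finset.mem_Ico] at hx hx'
    simp only at hx hx' h
    have h1 : e.1 % (M : ℤ) = e'.1 % (M : ℤ) := (Prod.ext_iff.1 h).1
    have h2 : e.2 = e'.2 := (Prod.ext_iff.1 h).2
    have h3 : e' = sh (M * (e'.1 / M - e.1 / M)) e := by
      unfold sh
      refine Prod.ext ?_ h2.symm
      show e'.1 = e.1 + M * (e'.1 / M - e.1 / M)
      have a1 := Int.emod_add_mul_ediv e.1 M
      have a2 := Int.emod_add_mul_ediv e'.1 M
      rw [mul_sub]
      linarith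
    have h4 : e' ∈ K (t + M * (e'.1 / M - e.1 / M)) := by
      have := (hKc (e'.1 / M - e.1 / M) t e).2 hx.2
      rwa [← h3] at this
    have h5 := hd _ _ _ h4 hx'.2
    have h6 : e'.1 / (M : ℤ) - e.1 / M = 0 := by
      obtain ⟨⟨b1, b2⟩, -⟩ := hx
      obtain ⟨⟨b3, b4⟩, -⟩ := hx'
      set c := e'.1 / (M : ℤ) - e.1 / M with hc
      have b5 : (M : ℤ) * c < M * 1 := by linarith
      have b6 : (M : ℤ) * (-1) < M * c := by linarith
      have b7 := lt_of_mul_lt_mul_left b5 hM'.le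
      have b8 := lt_of_mul_lt_mul_left b6 hM'.le
      omega
    rw [h6, mul_zero, add_zero] at h5
    rw [h6, mul_zero, cntb_sh0] at h3
    subst h5
    rw [h3]
  · rintro b hb
    rw [Finset.mem_filter, Finset.mem_product, Finset.mem_Ico] at hb
    obtain ⟨⟨⟨hb1, hb2⟩, -⟩, hb3⟩ := hb
    obtain ⟨t0, ht0⟩ := (hIn _).1 hb3
    refine ⟨⟨t0 + M * (-(t0 / M)), sh (M * (-(t0 / M))) b⟩, ?_, ?_⟩
    · rw [Finset.mem_sigma, Finset.mem_Ico]
      have h1 : t0 + (M : ℤ) * (-(t0 / M)) = t0 % M := by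
        rw [Int.emod_def]
        ring
      refine ⟨⟨?_, ?_⟩, (hKc _ t0 b).2 ht0⟩
      · show 0 ≤ t0 + (M : ℤ) * (-(t0 / M))
        rw [h1]
        exact Int.emod_nonneg _ hM'.ne'
      · show t0 + (M : ℤ) * (-(t0 / M)) < M
        rw [h1]
        exact Int.emod_lt_of_pos _ hM'
    · show ((b.1 + M * (-(t0 / M))) % (M : ℤ), b.2) = b
      rw [Int.add_mul_emod_self_left, Int.emod_eq_of_lt hb1 hb2]
  · rintro ⟨t, e⟩ hx
    show F e = F ((e.1 % (M : ℤ), e.2) : Dart)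
    rw [hmod e, hFc]

end Pool.Agent.Lib.MP_91c05b_co
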