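import Pool.Agent.Lib.MP_91c05b_co.K.Alpha

namespace Pool.Agent.Lib.MP_91c05b_co

namespace Sph

variable {n N : ℕ} (X : Sph n N)

/-- the number of crossings in the lowest gap is the same: shift by `N`, `γ_add` -/
theorem outer_low :
    ((Finset.Ico (0 : ℤ) (2 * N)).filter (fun u => X.γ u = 1)).card = X.outer := by
  unfold outer
  refine Finset.card_nbij' (fun u : ℤ => if u < N then u + N else u - N)
    (fun u : ℤ => if u < N then u + N else u - N) ?_ ?_ ?_ ?_
  · intro u hu
    simp only [Finset.coe_filter, Finset.mem_Ico, Set.mem_ofPred_eq] at hu ⊢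
    obtain ⟨⟨h0, h1⟩, h2⟩ := hu
    have hn := X.three_le
    by_cases h : u < N
    · rw [if_pos h]
      have h3 := X.γ_add u
      refine ⟨⟨by omega, by omega⟩, ?_⟩
      rw [h3, h2]; omega
    · rw [if_neg h]
      have h3 := X.γ_add (u - N)
      have h4 : u - N + N = u := by ring
      rw [h4, h2] at h3
      have h5 := X.γ_lt (u - N)
      exact ⟨⟨by omega, by omega⟩, by omega⟩
  · intro u hu
    simp only [Finset.coe_filter, Finset.mem_Ico, Set.mem_ofPred_eq] at hu ⊢
    obtain ⟨⟨h0, h1⟩, h2⟩ := hu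
    have hn := X.three_le
    by_cases h : u < N
    · rw [if_pos h]
      have h3 := X.γ_add u
      refine ⟨⟨by omega, by omega⟩, ?_⟩
      rw [h3]; omega
    · rw [if_neg h]
      have h3 := X.γ_add (u - N)
      have h4 : u - N + N = u := by ring
      rw [h4] at h3
      have h5 := X.γ_lt (u - N)
      exact ⟨⟨by omega, by omega⟩, by omega⟩
  · intro u hu
    simp only [Finset.coe_filter, Finset.mem_Ico, Set.mem_ofPred_eq] at hu
    obtain ⟨⟨h0, h1⟩, h2⟩ := hu
    by_cases h : u < N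
    · simp only [if_pos h]
      rw [if_neg (by omega)]; ring
    · simp only [if_neg h]
      rw [if_pos (by omega)]; ring
  · intro u hu
    simp only [Finset.coe_filter, Finset.mem_Ico, Set.mem_ofPred_eq] at hu
    obtain ⟨⟨h0, h1⟩, h2⟩ := hu
    by_cases h : u < N
    · simp only [if_pos h]
      rw [if_neg (by omega)]; ring
    · simp only [if_neg h]
      rw [if_pos (by omega)]; ring

/-- the darts of the upper polar cell modulo `2 N` -/
noncomputable def KU : Finset (ZMod (2 * N) × Bool × Bool) :=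
  ((Finset.Ico (0 : ℤ) (2 * N)).filter (fun u => X.γ u + 1 = n)).image
    (fun u => proj (2 * N) (u, true, true))

/-- the darts of the lower polar cell modulo `2 N` -/
noncomputable def KL : Finset (ZMod (2 * N) × Bool × Bool) :=
  ((Finset.Ico (0 : ℤ) (2 * N)).filter (fun u => X.γ u = 1)).image
    (fun u => proj (2 * N) (u, false, false))

private theorem outera_inj {u v : ℤ} {b c : Bool} (hu0 : 0 ≤ u) (hu1 : u < 2 * N) (hv0 : 0 ≤ v)
    (hv1 : v < 2 * N) (h : proj (2 * N) (u, b, c) = proj (2 * N) (v, b, c)) : u = v := by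
  unfold proj at h
  have h1 : ((u : ℤ) : ZMod (2 * N)) = ((v : ℤ) : ZMod (2 * N)) := (Prod.mk.inj h).1
  rw [ZMod.intCast_eq_intCast_iff_dvd_sub] at h1
  obtain ⟨k, hk⟩ := h1
  push_cast at hk
  have hk0 : k = 0 := by
    by_contra hne
    rcases lt_or_gt_of_ne hne with hlt | hgt
    · nlinarith
    · nlinarith
  rw [hk0] at hk
  linarith

private theorem outera_per {u v : ℤ} {b c b' c' : Bool}
    (h : proj (2 * N) (u, b, c) = proj (2 * N) (v, b', c')) : X.γ u = X.γ v := by
  unfold proj at h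
  have h1 : ((u : ℤ) : ZMod (2 * N)) = ((v : ℤ) : ZMod (2 * N)) := (Prod.mk.inj h).1
  rw [ZMod.intCast_eq_intCast_iff_dvd_sub] at h1
  obtain ⟨k, hk⟩ := h1
  push_cast at hk
  have h2 : v = u + k * (2 * N) := by linarith
  rw [h2, X.γ_per_mul]

include X in
private theorem outera_rep (t : ℤ) (b c : Bool) :
    0 ≤ t % (2 * (N : ℤ)) ∧ t % (2 * (N : ℤ)) < 2 * N ∧
      proj (2 * N) (t % (2 * (N : ℤ)), b, c) = proj (2 * N) (t, b, c) := by
  have hN := X.N_pos
  have hN' : (0 : ℤ) < 2 * (N : ℤ) := by positivity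
  refine ⟨Int.emod_nonneg _ hN'.ne', Int.emod_lt_of_pos _ hN', ?_⟩
  unfold proj
  have h1 : ((t % (2 * (N : ℤ)) : ℤ) : ZMod (2 * N)) = ((t : ℤ) : ZMod (2 * N)) := by
    rw [ZMod.intCast_eq_intCast_iff_dvd_sub]
    refine ⟨t / (2 * (N : ℤ)), ?_⟩
    push_cast
    have := Int.emod_add_mul_ediv t (2 * (N : ℤ))
    linarith
  simp only [h1]

theorem card_KU : X.KU.card = X.outer := by
  unfold KU outer
  rw [Finset.card_image_of_injOn]
  intro u hu v hv h
  simp only [Finset.coe_filter, Finset.mem_Ico, Set.mem_ofPred_eq] at hu hv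
  exact outera_inj hu.1.1 hu.1.2 hv.1.1 hv.1.2 h

theorem card_KL : X.KL.card = X.outer := by
  rw [← X.outer_low]
  unfold KL
  rw [Finset.card_image_of_injOn]
  intro u hu v hv h
  simp only [Finset.coe_filter, Finset.mem_Ico, Set.mem_ofPred_eq] at hu hv
  exact outera_inj hu.1.1 hu.1.2 hv.1.1 hv.1.2 h

theorem mem_KU {t : ℤ} : proj (2 * N) (t, true, true) ∈ X.KU ↔ X.γ t + 1 = n := by
  unfold KU
  rw [Finset.mem_image]
  constructor
  · rintro ⟨u, hu, h⟩
    rw [Finset.mem_filter] at hu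
    rw [← X.outera_per h]
    exact hu.2
  · intro h
    obtain ⟨h0, h1, h2⟩ := X.outera_rep t true true
    refine ⟨t % (2 * (N : ℤ)), ?_, h2⟩
    rw [Finset.mem_filter, Finset.mem_Ico]
    refine ⟨⟨h0, h1⟩, ?_⟩
    rw [X.outera_per h2]
    exact h

theorem mem_KL {t : ℤ} : proj (2 * N) (t, false, false) ∈ X.KL ↔ X.γ t = 1 := by
  unfold KL
  rw [Finset.mem_image]
  constructor
  · rintro ⟨u, hu, h⟩
    rw [Finset.mem_filter] at hu
    rw [← X.outera_per h]
    exact hu.2
  · intro h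
    obtain ⟨h0, h1, h2⟩ := X.outera_rep t false false
    refine ⟨t % (2 * (N : ℤ)), ?_, h2⟩
    rw [Finset.mem_filter, Finset.mem_Ico]
    refine ⟨⟨h0, h1⟩, ?_⟩
    rw [X.outera_per h2]
    exact h

end Sph

end Pool.Agent.Lib.MP_91c05b_co
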