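import Pool.Agent.Lib.MP_91c05b_co.K.CntA
import Pool.Agent.Lib.MP_91c05b_co.K.CntB
import Pool.Agent.Lib.MP_91c05b_co.K.OuterA
import Pool.Agent.Lib.MP_91c05b_co.K.CellB
import Pool.Agent.Lib.MP_91c05b_co.K.CellC

namespace Pool.Agent.Lib.MP_91c05b_co

open Finset

namespace Sph

variable {n N : ℕ} (X : Sph n N)

private theorem cntc_inner (c : ℕ) (t : ℤ) :
    ∑ q : Bool × Bool, (if (X.cell (t, q)).isSome = true then 0 else c) =
      (if X.γ t + 1 = n then c else 0) + (if X.γ t = 1 then c else 0) := by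
  rw [Fintype.sum_prod_type, Fintype.sum_bool, Fintype.sum_bool, Fintype.sum_bool]
  have h1 : X.cell (t, true, false) = some t := rfl
  have h2 : X.cell (t, false, true) = some (pv (fun x => X.γ x = X.γ t) t) := rfl
  have h3 : X.cell (t, true, true) =
    if X.γ t + 1 = n then none else some (pv (fun x => X.γ x = X.γ t + 1) t) := rfl
  have h4 : X.cell (t, false, false) =
    if X.γ t = 1 then none else some (pv (fun x => X.γ x + 1 = X.γ t) t) := rfl
  rw [h1, h2, h3, h4]
  by_cases ha : X.γ t + 1 = n <;> by_cases hb : X.γ t = 1 <;> simp [ha, hb]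

/-- the darts of the polar cells: `(t, true, true)` with `γ t + 1 = n` and `(t, false, false)` with
`γ t = 1` (`outer_low`) -/
theorem sum_polar (c : ℕ) :
    ∑ t ∈ Ico (0 : ℤ) (2 * N : ℕ), ∑ q : Bool × Bool,
      (if (X.cell (t, q)).isSome = true then 0 else c) = 2 * X.outer * c := by
  rw [Finset.sum_congr rfl fun t _ => cntc_inner X c t, Finset.sum_add_distrib,
    ← Finset.sum_filter, ← Finset.sum_filter, Finset.sum_const, Finset.sum_const]
  have e : ((2 * N : ℕ) : ℤ) = 2 * (N : ℤ) := by push_cast; ring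
  rw [e, X.outer_low]
  have h : ((Finset.Ico (0 : ℤ) (2 * N)).filter (fun u => X.γ u + 1 = n)).card = X.outer := rfl
  rw [h, smul_eq_mul]
  ring

/-- Every cell has as many darts as sides. Split the sum over `[0, 2 N) × Bool × Bool` into the
darts with `cell = none` (`sum_polar`) and the others (`sum_cells` for `X.K`, `F = h ∘ sz`,
`mem_K`, `card_K`, `cell_sh`, `sz_sh`). -/
theorem count (h : ℕ → ℕ) [NeZero (2 * N)] :
    ∑ x : ZMod (2 * N) × Bool × Bool, h (X.sz (rep x)) =
      ∑ t ∈ Ico (0 : ℤ) (2 * N : ℕ), X.sides t * h (X.sides t) +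
        2 * X.outer * h X.outer := by
  rw [sum_quo (fun e => h (X.sz e)), ← X.sum_polar (h X.outer)]
  have hM : 0 < 2 * N := Nat.pos_of_ne_zero (NeZero.ne _)
  have key := sum_cells hM X.K
    (fun t e => by
      rw [X.mem_K, X.mem_K, X.cell_sh]
      rcases X.cell e with _ | s
      · simp
      · simp)
    (fun t t' e h1 h2 => by
      rw [X.mem_K] at h1 h2
      rw [h1] at h2
      exact Option.some.inj h2)
    (fun e => h (X.sz e)) (fun e => by rw [X.sz_sh]) (fun e => (X.cell e).isSome = true)
    (fun e => by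
      rw [Option.isSome_iff_exists]
      exact exists_congr fun t => X.mem_K.symm)
  have h1 : ∑ t ∈ Ico (0 : ℤ) (2 * N : ℕ), X.sides t * h (X.sides t) =
      ∑ t ∈ Ico (0 : ℤ) (2 * N : ℕ), ∑ e ∈ X.K t, h (X.sz e) := by
    refine Finset.sum_congr rfl fun t _ => ?_
    have h2 : ∀ e ∈ X.K t, h (X.sz e) = h (X.sides t) := by
      intro e he
      rw [X.mem_K] at he
      unfold sz
      rw [he]
    rw [Finset.sum_congr rfl h2, Finset.sum_const, X.card_K, smul_eq_mul]
  rw [h1, key, ← Finset.sum_add_distrib]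
  refine Finset.sum_congr rfl fun t _ => ?_
  rw [← Finset.sum_add_distrib]
  refine Finset.sum_congr rfl fun q _ => ?_
  have h3 : ∀ o : Option ℤ, X.cell (t, q) = o → h (X.sz (t, q)) =
      (if o.isSome = true then h (X.sz (t, q)) else 0) + (if o.isSome = true then 0 else h X.outer) := by
    intro o ho
    rcases o with _ | s
    · have : X.sz (t, q) = X.outer := by
        unfold sz
        rw [ho]
      rw [this]
      simp
    · simp
  exact h3 _ rfl

end Sph

end Pool.Agent.Lib.MP_91c05b_co
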