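import Pool.Agent.Lib.MP_91c05b_co.Upper

/-!
# Cells with many sides: definitions

`Sph n N` is a simple wiring diagram with `n` wires on the double cover (the sphere): the crossings
are numbered by the integers, crossing `t` lies in the gap `γ t` (it exchanges the wires in the
positions `γ t - 1` and `γ t`), and after `N` crossings the diagram continues upside down.

A dart `(t, r, u)` is a half edge at the crossing `t`: it leaves `t` to the right if `r = true`
(to the left otherwise) and is the upper one (position `γ t`) if `u = true`, the lower one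
(position `γ t - 1`) otherwise.
-/

namespace Pool.Agent.Lib.MP_91c05b_co

/-- the number of cells with at least `k` sides -/
noncomputable def Arrangement.numCellsGe {n : ℕ} (A : Arrangement n) (k : ℕ) : ℕ :=
  Set.ncard {p : ℕ × ℕ | p.1 < A.size ∧ ∃ j, k ≤ j ∧ A.HasSides p.1 p.2 j} +
    (if k ≤ A.outerSides then 1 else 0)

open Classical in
/-- the least integer `u > t` with `S u` -/
noncomputable def nx (S : ℤ → Prop) (t : ℤ) : ℤ :=
  if h : ∃ k : ℕ, S (t + 1 + k) then t + 1 + (Nat.find h : ℕ) else t

open Classical in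
/-- the greatest integer `u < t` with `S u` -/
noncomputable def pv (S : ℤ → Prop) (t : ℤ) : ℤ :=
  if h : ∃ k : ℕ, S (t - 1 - k) then t - 1 - (Nat.find h : ℕ) else t

/-- a wire in position `p` runs through the crossing in the gap `g` -/
def OnG (g p : ℕ) : Prop := p = g ∨ p + 1 = g

/-- the position behind the crossing in the gap `g` of the wire in position `p` -/
def mv (g p : ℕ) : ℕ := if p + 1 = g then g else if p = g then g - 1 else p

/-- a simple wiring diagram on the sphere -/
structure Sph (n N : ℕ) where
  /-- the gap of the crossing -/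
  γ : ℤ → ℕ
  /-- `pos t i`: position of the wire `i` in front of the crossing `t` -/
  pos : ℤ → ℕ → ℕ
  three_le : 3 ≤ n
  N_pos : 0 < N
  γ_pos : ∀ t, 1 ≤ γ t
  γ_lt : ∀ t, γ t < n
  γ_add : ∀ t, γ (t + N) = n - γ t
  gap_ex : ∀ g, 1 ≤ g → g < n → ∃ t, γ t = g
  pos_lt : ∀ t i, i < n → pos t i < n
  pos_inj : ∀ t i j, pos t i = pos t j → i = j
  pos_surj : ∀ t p, p < n → ∃ i < n, pos t i = p
  pos_step : ∀ t i, i < n → pos (t + 1) i = mv (γ t) (pos t i)
  pos_add : ∀ t i, i < n → pos (t + N) i = n - 1 - pos t i
  meet_ex : ∀ (t₀ : ℤ) (i j : ℕ), i < n → j < n → i ≠ j →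
    ∃ t : ℤ, t₀ ≤ t ∧ t < t₀ + N ∧ OnG (γ t) (pos t i) ∧ OnG (γ t) (pos t j)
  meet_un : ∀ (i j : ℕ) (t s : ℤ), i < n → j < n → i ≠ j → OnG (γ t) (pos t i) → OnG (γ t) (pos t j) →
    OnG (γ s) (pos s i) → OnG (γ s) (pos s j) → (N : ℤ) ∣ t - s
  touch_ex : ∀ t s : ℤ, t < s → γ s = γ t → (∀ u, t < u → u < s → γ u ≠ γ t) →
    ∃ u, t < u ∧ u < s ∧ (γ u + 1 = γ t ∨ γ u = γ t + 1)
  outer_ge : 3 ≤ ((Finset.Ico (0 : ℤ) (2 * N)).filter (fun u => γ u + 1 = n)).card

/-- a half edge: (crossing, to the right?, upper?) -/
abbrev Dart := ℤ × Bool × Bool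

/-- the next half edge at the same crossing, clockwise -/
def dcw (e : Dart) : Dart := (e.1, e.2.2, !e.2.1)

/-- the shift of a dart by `m` -/
def sh (m : ℤ) (e : Dart) : Dart := (e.1 + m, e.2)

namespace Sph

variable {n N : ℕ} (X : Sph n N)

/-- the position of the dart -/
def dp (e : Dart) : ℕ := if e.2.2 = true then X.γ e.1 else X.γ e.1 - 1

/-- the crossing at the other end of the edge of the dart -/
noncomputable def nb (e : Dart) : ℤ :=
  if e.2.1 = true then nx (fun x => X.γ x = X.dp e ∨ X.γ x = X.dp e + 1) e.1
  else pv (fun x => X.γ x = X.dp e ∨ X.γ x = X.dp e + 1) e.1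

/-- the dart at the other end of the edge -/
noncomputable def al (e : Dart) : Dart :=
  (X.nb e, !e.2.1, decide (X.γ (X.nb e) = X.dp e))

/-- the next side of the face to the left of the dart -/
noncomputable def phi (e : Dart) : Dart := dcw (X.al e)

/-- the wire in position `p` in front of the crossing `t` -/
noncomputable def wireAt (t : ℤ) (p : ℕ) : ℕ :=
  if h : p < n then (X.pos_surj t p h).choose else 0

/-- the wire of a dart -/
noncomputable def wire (e : Dart) : ℕ :=
  X.wireAt (if e.2.1 = true then e.1 + 1 else e.1) (X.dp e)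

/-- the number of sides of the cell that begins at the crossing `t` -/
noncomputable def sides (t : ℤ) : ℕ :=
  2 + ((Finset.Ioo t (nx (fun x => X.γ x = X.γ t) t)).filter
    (fun u => X.γ u + 1 = X.γ t ∨ X.γ u = X.γ t + 1)).card

/-- the number of sides of each of the two polar cells -/
noncomputable def outer : ℕ := ((Finset.Ico (0 : ℤ) (2 * N)).filter (fun u => X.γ u + 1 = n)).card

/-- the cell to the left of the dart: `some t` is the cell that begins at the crossing `t`,
`none` stands for the polar cells -/
noncomputable def cell : Dart → Option ℤ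
  | (t, true, false) => some t
  | (t, false, true) => some (pv (fun x => X.γ x = X.γ t) t)
  | (t, true, true) => if X.γ t + 1 = n then none else some (pv (fun x => X.γ x = X.γ t + 1) t)
  | (t, false, false) => if X.γ t = 1 then none else some (pv (fun x => X.γ x + 1 = X.γ t) t)

/-- the number of sides of the cell to the left of the dart -/
noncomputable def sz (e : Dart) : ℕ :=
  match X.cell e with
  | some t => X.sides t
  | none => X.outer

end Sph

/-- projection of the darts to the finite set of darts modulo `M` -/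
def proj (M : ℕ) (e : Dart) : ZMod M × Bool × Bool := ((e.1 : ZMod M), e.2)

/-- a representative of a dart modulo `M` -/
def rep {M : ℕ} (x : ZMod M × Bool × Bool) : Dart := ((x.1.val : ℤ), x.2)

end Pool.Agent.Lib.MP_91c05b_co
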