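import Pool.Agent.Lib.MP_91c05b_co.K.MainA

namespace Pool.Agent.Lib.MP_91c05b_co

open Finset

namespace Sph

variable {n N : ℕ} (X : Sph n N)

/-- Euler: `count` for `h = 1`; the left side is the number `8 N` of darts. -/
theorem euler : ∑ t ∈ Ico (0 : ℤ) (2 * N : ℕ), X.sides t + 2 * X.outer = 8 * N := by
  have : NeZero (2 * N) := ⟨by have := X.N_pos; omega⟩
  have h1 := X.count (fun _ => 1)
  simp only [mul_one] at h1
  rw [← h1, sum_const, smul_eq_mul, mul_one, card_univ, Fintype.card_prod, ZMod.card,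
    Fintype.card_prod, Fintype.card_bool]
  ring

/-- the number of cells on the sphere with at least `k` sides -/
noncomputable def ge (k : ℕ) : ℕ :=
  ((Ico (0 : ℤ) (2 * N : ℕ)).filter (fun t => k ≤ X.sides t)).card +
    (if k ≤ X.outer then 2 else 0)

private theorem mainb_outer : 3 ≤ X.outer := X.outer_ge

private theorem mainb_card : (Ico (0 : ℤ) (2 * N : ℕ)).card = 2 * N := by
  rw [Int.card_Ico, sub_zero, Int.toNat_natCast]

/-- a pointwise inequality summed over all cells -/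
private theorem mainb_sum (c d k : ℕ) (f g : ℕ → ℕ)
    (h : ∀ s, 3 ≤ s → c * (if k ≤ s then 1 else 0) + d + f s ≤ g s) :
    c * X.ge k + d * (2 * N + 2) +
        (∑ t ∈ Ico (0 : ℤ) (2 * N : ℕ), f (X.sides t) + 2 * f X.outer) ≤
      ∑ t ∈ Ico (0 : ℤ) (2 * N : ℕ), g (X.sides t) + 2 * g X.outer := by
  have h1 : ∑ t ∈ Ico (0 : ℤ) (2 * N : ℕ),
      (c * (if k ≤ X.sides t then 1 else 0) + d + f (X.sides t)) ≤
      ∑ t ∈ Ico (0 : ℤ) (2 * N : ℕ), g (X.sides t) :=
    sum_le_sum fun t _ => h _ (X.sides_ge t)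
  have h2 := h _ X.mainb_outer
  rw [sum_add_distrib, sum_add_distrib, ← mul_sum, sum_const, mainb_card, smul_eq_mul,
    ← card_filter] at h1
  have h3 : c * X.ge k = c * ((Ico (0 : ℤ) (2 * N : ℕ)).filter (fun t => k ≤ X.sides t)).card +
      2 * (c * (if k ≤ X.outer then 1 else 0)) := by
    rw [ge]
    split_ifs <;> ring
  rw [h3]
  have h4 : d * (2 * N + 2) = 2 * N * d + 2 * d := by ring
  rw [h4]
  omega

/-- `(k - 3) ge k ≤ sum over all 2 N + 2 cells of (sides - 3) = 8 N - 3 (2 N + 2)`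
(`euler`, `sides_ge`, `outer_ge`). -/
theorem ge_euler {k : ℕ} (hk : 3 ≤ k) : (k - 3) * X.ge k + 6 ≤ 2 * N := by
  have h1 := X.mainb_sum (k - 3) 3 k (fun _ => 0) (fun s => s) (by
    intro s hs
    split_ifs with h
    · omega
    · omega)
  have h2 := X.euler
  simp only [sum_const_zero, mul_zero, add_zero] at h1
  omega

private theorem mainb_cnt (P : ℕ → Prop) [DecidablePred P] [NeZero (2 * N)] :
    (univ.filter (fun x : ZMod (2 * N) × Bool × Bool => P (X.sz (rep x)))).card =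
      ∑ t ∈ Ico (0 : ℤ) (2 * N : ℕ), (if P (X.sides t) then X.sides t else 0) +
        2 * (if P X.outer then X.outer else 0) := by
  have h1 := X.count (fun s => if P s then 1 else 0)
  rw [← card_filter] at h1
  rw [h1]
  simp only [mul_ite, mul_one, mul_zero]

/-- the total excess over five sides (natural subtraction) of the cells on the sphere -/
noncomputable def exc : ℕ :=
  ∑ t ∈ Ico (0 : ℤ) (2 * N : ℕ), (X.sides t - 5) + 2 * (X.outer - 5)

theorem sum_ge_le (M : ℕ) : ∑ k ∈ Icc 6 M, X.ge k ≤ X.exc := by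
  have key : ∀ s : ℕ, ∑ k ∈ Icc 6 M, (if k ≤ s then 1 else 0) ≤ s - 5 := by
    intro s
    rw [← card_filter]
    have h : (Icc 6 M).filter (fun k => k ≤ s) ⊆ Icc 6 s := by
      intro k hk
      rw [mem_filter, mem_Icc] at hk
      rw [mem_Icc]
      exact ⟨hk.1.1, hk.2⟩
    refine (card_le_card h).trans ?_
    rw [Nat.card_Icc]
    omega
  have h1 : ∀ k, X.ge k = ∑ t ∈ Ico (0 : ℤ) (2 * N : ℕ), (if k ≤ X.sides t then 1 else 0) +
      2 * (if k ≤ X.outer then 1 else 0) := by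
    intro k
    rw [ge, card_filter]
    split_ifs <;> rfl
  rw [sum_congr rfl (fun k _ => h1 k), sum_add_distrib, sum_comm, ← mul_sum, exc]
  exact Nat.add_le_add (sum_le_sum fun t _ => key _) (Nat.mul_le_mul_left _ (key _))

/-- a pointwise inequality summed over all cells -/
private theorem mainb_sum' (d : ℕ) (c : ℕ) (f g : ℕ → ℕ)
    (h : ∀ s, 3 ≤ s → c * (s - 5) + d + f s ≤ g s) :
    c * X.exc + d * (2 * N + 2) +
        (∑ t ∈ Ico (0 : ℤ) (2 * N : ℕ), f (X.sides t) + 2 * f X.outer) ≤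
      ∑ t ∈ Ico (0 : ℤ) (2 * N : ℕ), g (X.sides t) + 2 * g X.outer := by
  have h1 : ∑ t ∈ Ico (0 : ℤ) (2 * N : ℕ),
      (c * (X.sides t - 5) + d + f (X.sides t)) ≤
      ∑ t ∈ Ico (0 : ℤ) (2 * N : ℕ), g (X.sides t) :=
    sum_le_sum fun t _ => h _ (X.sides_ge t)
  have h2 := h _ X.mainb_outer
  rw [sum_add_distrib, sum_add_distrib, ← mul_sum, sum_const, mainb_card, smul_eq_mul] at h1
  have h3 : c * X.exc = c * (∑ t ∈ Ico (0 : ℤ) (2 * N : ℕ), (X.sides t - 5)) +
      2 * (c * (X.outer - 5)) := by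
    rw [exc]
    ring
  rw [h3]
  have h4 : d * (2 * N + 2) = 2 * N * d + 2 * d := by ring
  rw [h4]
  omega

/-- `exc ≤ sum of (s - 3) over the 2 N + 2 cells = 2 N - 6` (`euler`) -/
theorem exc_euler : X.exc + 6 ≤ 2 * N := by
  have h1 := X.mainb_sum' 3 1 (fun _ => 0) (fun s => s) (by
    intro s hs
    omega)
  have h2 := X.euler
  simp only [sum_const_zero, mul_zero, add_zero, one_mul] at h1
  omega

/-- The main inequality. For a cell with `s ≥ 3` sides put `w s = 3, 0, - s` for `s = 3`, `s = 4`,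
`s ≥ 5`. By `track_darts` and `count` (for the indicator functions of `3`, of `≥ 5` and of `4`),
`(n - 3) * sum of w over all cells ≤ 4 * number of cells with four sides ≤ sum of the sides = 8 N`.
For every `s ≥ 3`: `4 s + w s - 15 ≥ 0`, and it is `3 (s - 5)` for `s ≥ 5`.
So `3 exc ≤ sum over all 2 N + 2 cells of (4 s + w s - 15) = 32 N - 15 (2 N + 2) + sum of w`. -/
theorem exc_bound : (n - 3) * (3 * X.exc + 30) ≤ (n - 3) * (2 * N) + 8 * N := by
  have : NeZero (2 * N) := ⟨by have := X.N_pos; omega⟩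
  have ht := X.track_darts
  rw [X.mainb_cnt (fun s => s = 3), X.mainb_cnt (fun s => 5 ≤ s),
    X.mainb_cnt (fun s => s = 4)] at ht
  obtain ⟨T3, hT3⟩ : ∃ T3, T3 = ∑ t ∈ Ico (0 : ℤ) (2 * N : ℕ),
      (if X.sides t = 3 then X.sides t else 0) + 2 * (if X.outer = 3 then X.outer else 0) :=
    ⟨_, rfl⟩
  obtain ⟨T5, hT5⟩ : ∃ T5, T5 = ∑ t ∈ Ico (0 : ℤ) (2 * N : ℕ),
      (if 5 ≤ X.sides t then X.sides t else 0) + 2 * (if 5 ≤ X.outer then X.outer else 0) :=
    ⟨_, rfl⟩
  obtain ⟨T4, hT4⟩ : ∃ T4, T4 = ∑ t ∈ Ico (0 : ℤ) (2 * N : ℕ),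
      (if X.sides t = 4 then X.sides t else 0) + 2 * (if X.outer = 4 then X.outer else 0) :=
    ⟨_, rfl⟩
  rw [← hT3, ← hT4, ← hT5] at ht
  have he := X.euler
  have h4 : T4 ≤ 8 * N := by
    rw [hT4, ← he]
    have e1 : ∑ t ∈ Ico (0 : ℤ) (2 * N : ℕ), (if X.sides t = 4 then X.sides t else 0) ≤
        ∑ t ∈ Ico (0 : ℤ) (2 * N : ℕ), X.sides t := by
      refine sum_le_sum fun t _ => ?_
      split_ifs
      · exact le_rfl
      · exact Nat.zero_le _
    have e2 : (if X.outer = 4 then X.outer else 0) ≤ X.outer := by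
      split_ifs
      · exact le_rfl
      · exact Nat.zero_le _
    omega
  have h1 := X.mainb_sum' 15 3 (fun s => if 5 ≤ s then s else 0)
    (fun s => 4 * s + (if s = 3 then s else 0)) (by
      intro s hs
      by_cases h3 : s = 3
      · subst h3
        rw [if_neg (by omega), if_pos rfl]
      · by_cases h5 : 5 ≤ s
        · rw [if_pos h5, if_neg h3]
          omega
        · rw [if_neg h5, if_neg h3]
          omega)
  have h2 : ∑ t ∈ Ico (0 : ℤ) (2 * N : ℕ), (4 * X.sides t + (if X.sides t = 3 then X.sides t else 0)) +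
      2 * (4 * X.outer + (if X.outer = 3 then X.outer else 0)) = 4 * (8 * N) + T3 := by
    rw [← he, hT3, sum_add_distrib, ← mul_sum]
    ring
  rw [h2, ← hT5] at h1
  obtain ⟨g, hg⟩ : ∃ g, g = 3 * X.exc := ⟨_, rfl⟩
  rw [← hg] at h1 ⊢
  obtain ⟨m, hm⟩ : ∃ m, m = n - 3 := ⟨_, rfl⟩
  rw [← hm] at ht ⊢
  have h6 : m * (g + 15 * (2 * N + 2) + T5) ≤ m * (4 * (8 * N) + T3) := Nat.mul_le_mul_left _ h1
  have h7 : m * (g + 15 * (2 * N + 2) + T5) = m * (g + 30) + 30 * (m * N) + m * T5 := by ring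
  have h8 : m * (4 * (8 * N) + T3) = 32 * (m * N) + m * T3 := by ring
  have h9 : m * (2 * N) = 2 * (m * N) := by ring
  omega

end Sph

end Pool.Agent.Lib.MP_91c05b_co
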