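import Pool.Agent.Lib.MP_91c05b_co.K.OfArrD
import Pool.Agent.Lib.MP_91c05b_co.K.MainB

namespace Pool.Agent.Lib.MP_91c05b_co

open Finset

namespace Arrangement

variable {n : ℕ} (A : Arrangement n)

theorem outer_toSph (hn : 3 ≤ n) (h : A.Simple) : (A.toSph hn h).outer = A.outerSides :=
  A.zouter hn h

theorem ofcnt_cuts (hn : 3 ≤ n) (h : A.Simple) (t g : ℕ) :
    (A.unroll t).Cuts g ↔ A.zg (t : ℤ) = g := by
  have hs := A.size_pos (by omega)
  have h1 := A.unroll_simple hn h t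
  rw [A.zg_nat hs t]
  unfold Crossing.Cuts
  omega

theorem ofcnt_touch (hn : 3 ≤ n) (h : A.Simple) (t g : ℕ) :
    (A.unroll t).Touches g ↔ (A.zg (t : ℤ) + 1 = g ∨ A.zg (t : ℤ) = g + 1) := by
  have hs := A.size_pos (by omega)
  have h1 := A.unroll_simple hn h t
  rw [A.zg_nat hs t]
  unfold Crossing.Touches
  omega

/-- for a natural number `t`: the end of the cell and the touching crossings of the sphere diagram
are those of the unrolled diagram (`zg_nat`; a simple crossing cuts the gap `hi` only and touches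
the gaps `hi - 1` and `hi + 1`) -/
theorem sides_toSph (hn : 3 ≤ n) (h : A.Simple) {t g k : ℕ} (hk : A.HasSides t g k) :
    g = (A.unroll t).hi ∧ (A.toSph hn h).sides t = k := by
  have hs := A.size_pos (by omega)
  obtain ⟨hc, s, hts, hsc, hno, hk⟩ := hk
  have hg : A.zg (t : ℤ) = g := (A.ofcnt_cuts hn h t g).mp hc
  refine ⟨?_, ?_⟩
  · rw [← A.zg_nat hs t, hg]
  · have hnx : nx (fun x => A.zg x = A.zg (t : ℤ)) (t : ℤ) = (s : ℤ) := by
      apply nx_eq
      · exact_mod_cast hts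
      · show A.zg (s : ℤ) = A.zg (t : ℤ)
        rw [hg]
        exact (A.ofcnt_cuts hn h s g).mp hsc
      · intro u hu1 hu2
        obtain ⟨m, rfl⟩ : ∃ m : ℕ, u = (m : ℤ) := ⟨u.toNat, by omega⟩
        intro h3
        exact hno m (by exact_mod_cast hu1) (by exact_mod_cast hu2)
          ((A.ofcnt_cuts hn h m g).mpr (h3.trans hg))
    have hsd : (A.toSph hn h).sides t = 2 +
        ((Finset.Ioo (t : ℤ) (nx (fun x => A.zg x = A.zg (t : ℤ)) (t : ℤ))).filter
          (fun u => A.zg u + 1 = A.zg (t : ℤ) ∨ A.zg u = A.zg (t : ℤ) + 1)).card := rfl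
    rw [hsd, hnx, hk, hg]
    congr 1
    have h1 : {u : ℕ | t < u ∧ u < s ∧ (A.unroll u).Touches g} =
        (((Finset.Ioo t s).filter (fun u : ℕ => A.zg (u : ℤ) + 1 = g ∨ A.zg (u : ℤ) = g + 1) :
          Finset ℕ) : Set ℕ) := by
      ext u
      rw [Finset.mem_coe, Finset.mem_filter, Finset.mem_Ioo, Set.mem_ofPred_eq,
        A.ofcnt_touch hn h u g, and_assoc]
    have h2 : (Finset.Ioo (t : ℤ) (s : ℤ)).filter (fun u => A.zg u + 1 = g ∨ A.zg u = g + 1) =
        ((Finset.Ioo t s).filter (fun u : ℕ => A.zg (u : ℤ) + 1 = g ∨ A.zg (u : ℤ) = g + 1)).image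
          (fun u : ℕ => (u : ℤ)) := by
      ext u
      rw [Finset.mem_image, Finset.mem_filter, Finset.mem_Ioo]
      constructor
      · rintro ⟨⟨hu1, hu2⟩, hu3⟩
        obtain ⟨m, rfl⟩ : ∃ m : ℕ, u = (m : ℤ) := ⟨u.toNat, by omega⟩
        refine ⟨m, ?_, rfl⟩
        rw [Finset.mem_filter, Finset.mem_Ioo]
        exact ⟨⟨by exact_mod_cast hu1, by exact_mod_cast hu2⟩, hu3⟩
      · rintro ⟨m, hm, rfl⟩
        rw [Finset.mem_filter, Finset.mem_Ioo] at hm
        exact ⟨⟨by exact_mod_cast hm.1.1, by exact_mod_cast hm.1.2⟩, hm.2⟩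
    rw [h1, Set.ncard_coe_finset, h2, Finset.card_image_of_injective _ Nat.cast_injective]

/-- every cell except the outer one occurs at `t` and at `t + size` (`sides_add`) -/
theorem numCellsGe_le_ge (hn : 3 ≤ n) (h : A.Simple) (k : ℕ) :
    2 * A.numCellsGe k ≤ (A.toSph hn h).ge k := by
  classical
  obtain ⟨X, hX⟩ : ∃ X : Sph n A.size, X = A.toSph hn h := ⟨_, rfl⟩
  have hout : X.outer = A.outerSides := by
    rw [hX]
    exact A.outer_toSph hn h
  obtain ⟨G, hG⟩ : ∃ G : Finset ℕ, G = (Finset.range A.size).filter (fun t : ℕ => k ≤ X.sides (t : ℤ)) :=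
    ⟨_, rfl⟩
  -- the cells of the arrangement
  have h1 : Set.ncard {p : ℕ × ℕ | p.1 < A.size ∧ ∃ j, k ≤ j ∧ A.HasSides p.1 p.2 j} ≤ G.card := by
    have hsub : {p : ℕ × ℕ | p.1 < A.size ∧ ∃ j, k ≤ j ∧ A.HasSides p.1 p.2 j} ⊆
        ((G.image (fun t => (t, (A.unroll t).hi)) : Finset (ℕ × ℕ)) : Set (ℕ × ℕ)) := by
      rintro ⟨t, g⟩ ⟨ht, j, hj, hsd⟩
      obtain ⟨h2, h3⟩ := A.sides_toSph hn h hsd
      rw [Finset.mem_coe, Finset.mem_image]
      refine ⟨t, ?_, ?_⟩
      · rw [hG, Finset.mem_filter, Finset.mem_range]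
        refine ⟨ht, ?_⟩
        rw [hX, h3]
        exact hj
      · rw [← h2]
    refine (Set.ncard_le_ncard hsub (Finset.finite_toSet _)).trans ?_
    rw [Set.ncard_coe_finset]
    exact Finset.card_image_le
  -- every cell occurs twice
  have h2 : 2 * G.card ≤
      ((Finset.Ico (0 : ℤ) (2 * A.size : ℕ)).filter (fun t => k ≤ X.sides t)).card := by
    obtain ⟨G1, hG1⟩ : ∃ G1 : Finset ℤ, G1 = G.image (fun t : ℕ => (t : ℤ)) := ⟨_, rfl⟩
    obtain ⟨G2, hG2⟩ : ∃ G2 : Finset ℤ, G2 = G.image (fun t : ℕ => (t : ℤ) + (A.size : ℤ)) :=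
      ⟨_, rfl⟩
    have c1 : G1.card = G.card := by
      rw [hG1, Finset.card_image_of_injective _ Nat.cast_injective]
    have c2 : G2.card = G.card := by
      rw [hG2, Finset.card_image_of_injective]
      intro a b hab
      have hab2 : (a : ℤ) + (A.size : ℤ) = (b : ℤ) + (A.size : ℤ) := hab
      omega
    have hGm : ∀ t ∈ G, t < A.size ∧ k ≤ X.sides (t : ℤ) := by
      intro t ht
      rw [hG, Finset.mem_filter, Finset.mem_range] at ht
      exact ht
    have hd : Disjoint G1 G2 := by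
      rw [Finset.disjoint_left]
      intro u hu1 hu2
      rw [hG1, Finset.mem_image] at hu1
      rw [hG2, Finset.mem_image] at hu2
      obtain ⟨a, ha, ha2⟩ := hu1
      obtain ⟨b, hb, hb2⟩ := hu2
      have h3 := (hGm a ha).1
      omega
    have hsub : G1 ∪ G2 ⊆ (Finset.Ico (0 : ℤ) (2 * A.size : ℕ)).filter (fun t => k ≤ X.sides t) := by
      intro u hu
      rw [Finset.mem_filter, Finset.mem_Ico]
      rcases Finset.mem_union.mp hu with hu1 | hu2
      · rw [hG1, Finset.mem_image] at hu1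
        obtain ⟨a, ha, rfl⟩ := hu1
        obtain ⟨h3, h4⟩ := hGm a ha
        exact ⟨⟨by omega, by push_cast; omega⟩, h4⟩
      · rw [hG2, Finset.mem_image] at hu2
        obtain ⟨b, hb, rfl⟩ := hu2
        obtain ⟨h3, h4⟩ := hGm b hb
        refine ⟨⟨by omega, by push_cast; omega⟩, ?_⟩
        rw [X.sides_add]
        exact h4
    calc 2 * G.card = G1.card + G2.card := by rw [c1, c2]; ring
      _ = (G1 ∪ G2).card := (Finset.card_union_of_disjoint hd).symm
      _ ≤ _ := Finset.card_le_card hsub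
  have h3 : X.ge k = ((Finset.Ico (0 : ℤ) (2 * A.size : ℕ)).filter (fun t => k ≤ X.sides t)).card +
      (if k ≤ X.outer then 2 else 0) := rfl
  rw [← hX, h3, hout]
  unfold numCellsGe
  split_ifs <;> omega

end Arrangement

end Pool.Agent.Lib.MP_91c05b_co
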