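import Pool.Agent.Lib.MP_91c05b_co.K.SplitC
import Pool.Agent.Lib.MP_91c05b_co.K.OfCnt
import Pool.Agent.Lib.MP_91c05b_co.Final

namespace Pool.Agent.Lib.MP_91c05b_co

open Finset

namespace Arrangement

variable {n : ℕ} (A : Arrangement n)

open Classical in
private theorem fin_ge (hs : 0 < A.size) (k : ℕ) :
    Set.ncard {p : ℕ × ℕ | p.1 < A.size ∧ ∃ j, k ≤ j ∧ A.HasSides p.1 p.2 j}
      = (A.S.filter (fun p => k ≤ 2 + (A.T p).card)).card := by
  rw [← Set.ncard_coe_finset]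
  congr 1
  ext ⟨t, g⟩
  simp only [Set.mem_ofPred_eq, coe_filter, mem_S]
  constructor
  · rintro ⟨h1, j, hj, h2⟩
    refine ⟨⟨h1, h2.1⟩, ?_⟩
    have h3 := (A.hasSides_iff hs h2.1).1 h2
    omega
  · rintro ⟨⟨h1, h2⟩, h3⟩
    exact ⟨h1, _, h3, (A.hasSides_iff hs h2).2 rfl⟩

open Classical in
private theorem fin_numCells (hs : 0 < A.size) (k : ℕ) :
    A.numCells k = ∑ p ∈ A.S, (if 2 + (A.T p).card = k then 1 else 0) +
      (if A.outerSides = k then 1 else 0) := by
  unfold numCells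
  rw [A.ncard_eq hs, card_filter]

open Classical in
private theorem fin_numCellsGe (hs : 0 < A.size) (k : ℕ) :
    A.numCellsGe k = ∑ p ∈ A.S, (if k ≤ 2 + (A.T p).card then 1 else 0) +
      (if k ≤ A.outerSides then 1 else 0) := by
  unfold numCellsGe
  rw [A.fin_ge hs, card_filter]

theorem numCells_le_numCellsGe (hn : 3 ≤ n) (k : ℕ) : A.numCells k ≤ A.numCellsGe k := by
  classical
  have hs := A.size_pos (by omega : 2 ≤ n)
  have key : ∀ s : ℕ, (if s = k then 1 else 0) ≤ (if k ≤ s then 1 else 0) := by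
    intro s
    by_cases h : s = k
    · rw [if_pos h, if_pos h.ge]
    · rw [if_neg h]
      exact Nat.zero_le _
  rw [A.fin_numCells hs, A.fin_numCellsGe hs]
  exact Nat.add_le_add (sum_le_sum fun p _ => key _) (key _)

private theorem fin_pt (s M : ℕ) :
    ∑ k ∈ Icc 6 M, (k - 5) * (if s = k then 1 else 0) ≤
      ∑ k ∈ Icc 6 M, (if k ≤ s then 1 else 0) := by
  by_cases h : s ∈ Icc 6 M
  · rw [sum_eq_single_of_mem s h (fun k _ hk => by rw [if_neg (Ne.symm hk), mul_zero]),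
      if_pos rfl, mul_one, ← card_filter]
    rw [mem_Icc] at h
    have h1 : Icc 6 s ⊆ (Icc 6 M).filter (fun k => k ≤ s) := by
      intro k hk
      rw [mem_Icc] at hk
      rw [mem_filter, mem_Icc]
      exact ⟨⟨hk.1, by omega⟩, hk.2⟩
    refine le_trans ?_ (card_le_card h1)
    rw [Nat.card_Icc]
    omega
  · rw [sum_eq_zero]
    · exact Nat.zero_le _
    · intro k hk
      rw [if_neg (fun h2 : s = k => h (by rw [h2]; exact hk)), mul_zero]

/-- Every cell with `s` sides, `6 ≤ s ≤ M`, is counted `s - 5` times on the right. With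
`F k` the finite set of cells (inner cells `p` with `HasSides p.1 p.2 k`, the number of sides is
unique: `HasSides` is functional) write both sides as sums over the finite set of pairs `(t, g)` with
`t < size`, `g < n`. Or induction on `M`: `numCellsGe k ≥ numCells k + ... + numCells M`
(disjoint union), and `(k - 5)` is the number of `j` with `6 ≤ j ≤ k`. -/
theorem sum_numCells_le (hn : 3 ≤ n) (M : ℕ) :
    ∑ k ∈ Icc 6 M, (k - 5) * A.numCells k ≤ ∑ k ∈ Icc 6 M, A.numCellsGe k := by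
  classical
  have hs := A.size_pos (by omega : 2 ≤ n)
  have h1 : ∀ k ∈ Icc 6 M, (k - 5) * A.numCells k =
      ∑ p ∈ A.S, (k - 5) * (if 2 + (A.T p).card = k then 1 else 0) +
        (k - 5) * (if A.outerSides = k then 1 else 0) := by
    intro k _
    rw [A.fin_numCells hs, mul_add, mul_sum]
  have h2 : ∀ k ∈ Icc 6 M, A.numCellsGe k =
      ∑ p ∈ A.S, (if k ≤ 2 + (A.T p).card then 1 else 0) +
        (if k ≤ A.outerSides then 1 else 0) := fun k _ => A.fin_numCellsGe hs k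
  rw [sum_congr rfl h1, sum_congr rfl h2, sum_add_distrib, sum_add_distrib, sum_comm,
    sum_comm (s := Icc 6 M) (t := A.S) (f := fun k p => if k ≤ 2 + (A.T p).card then 1 else 0)]
  exact Nat.add_le_add (sum_le_sum fun p _ => fin_pt _ M) (fin_pt _ M)

private theorem fin_arith {n N e x : ℕ} (hn : 3 ≤ n) (h1 : 2 * e ≤ x) (h2 : x + 6 ≤ 2 * N)
    (h3 : (n - 3) * (3 * x + 30) ≤ (n - 3) * (2 * N) + 8 * N) (h4 : 2 * N + n ≤ n * n) :
    6 * e ≤ n ^ 2 + 3 * n := by
  obtain ⟨m, rfl⟩ : ∃ m, n = m + 3 := ⟨n - 3, by omega⟩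
  rw [show m + 3 - 3 = m from by omega] at h3
  rcases Nat.lt_or_ge m 4 with hm | hm
  · interval_cases m
    · omega
    · omega
    · omega
    · omega
  · have h5 : 8 * N ≤ m * (4 * m + 26) := by nlinarith
    have h6 : m * (3 * x + 30) ≤ m * (2 * N + (4 * m + 26)) := by
      rw [mul_add m (2 * N)]
      omega
    have h7 : 3 * x + 30 ≤ 2 * N + (4 * m + 26) := Nat.le_of_mul_le_mul_left h6 (by omega)
    nlinarith

/-- `exists_simple` (`B`), `numCellsGe_le_ge`, `sum_ge_le`: with `X` the sphere diagram of `B`,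
`N = B.size`, `e = ∑ numCellsGe`: `2 e ≤ X.exc`. Then `exc_bound`, `exc_euler`, `size_le_choose`,
`two_mul_choose`. For `n = 3, 4`: `2 e + 6 ≤ 2 N`. For `n = 5, 6` insert the numbers in `exc_bound`; for
`n ≥ 7`: `8 N ≤ 4 n (n - 1) = (n - 3) (4 n + 8) + 24 ≤ (n - 3) (4 n + 14)`, so
`6 e + 30 ≤ n (n - 1) + 4 n + 14`. -/
theorem sum_numCellsGe_bound (hn : 3 ≤ n) (M : ℕ) :
    6 * ∑ k ∈ Icc 6 M, A.numCellsGe k ≤ n ^ 2 + 3 * n := by
  obtain ⟨B, hB, hle⟩ := A.exists_simple hn
  have h0 : ∑ k ∈ Icc 6 M, A.numCellsGe k ≤ ∑ k ∈ Icc 6 M, B.numCellsGe k :=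
    sum_le_sum fun k _ => hle k
  have h1 : 2 * ∑ k ∈ Icc 6 M, B.numCellsGe k ≤ (B.toSph hn hB).exc := by
    refine le_trans ?_ ((B.toSph hn hB).sum_ge_le M)
    rw [mul_sum]
    exact sum_le_sum fun k _ => B.numCellsGe_le_ge hn hB k
  have h2 := (B.toSph hn hB).exc_euler
  have h3 := (B.toSph hn hB).exc_bound
  have h4 := B.size_le_choose (by omega : 2 ≤ n)
  have h5 := two_mul_choose n
  have h6 := fin_arith hn h1 h2 h3 (by omega)
  omega

end Arrangement

end Pool.Agent.Lib.MP_91c05b_co
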