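import Pool.Agent.Lib.MP_91c05b_co.K.Defs

namespace Pool.Agent.Lib.MP_91c05b_co

namespace Arrangement

variable {n : ℕ}

theorem injA_ncard_le {α β : Type*} {S : Set α} {T : Set β} (f : β → α) (hT : T.Finite)
    (h : ∀ x ∈ S, ∃ y ∈ T, f y = x) : S.ncard ≤ T.ncard := by
  have h1 : S ⊆ f '' T := fun x hx => by
    obtain ⟨y, hy, rfl⟩ := h x hx
    exact ⟨y, hy, rfl⟩
  exact (Set.ncard_le_ncard h1 (hT.image f)).trans (Set.ncard_image_le hT)

theorem injA_outer (A B : Arrangement n) (ψ : ℕ → ℕ)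
    (hlt : ∀ u, ψ u < A.size ↔ u < B.size)
    (hlo : ∀ t, ∃ u, ψ u = t ∧ (B.unroll u).lo = (A.unroll t).lo)
    (hhi : ∀ t, ∃ u, ψ u = t ∧ (B.unroll u).hi = (A.unroll t).hi) :
    A.outerSides ≤ B.outerSides := by
  unfold outerSides
  apply Nat.add_le_add
  · apply injA_ncard_le ψ ((Set.finite_Iio B.size).subset (fun x hx => hx.1))
    rintro t ⟨ht, h⟩
    obtain ⟨u, rfl, hu⟩ := hhi t
    have hu1 : u < B.size := (hlt u).1 ht
    rw [B.unroll_of_lt hu1, A.unroll_of_lt ht] at hu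
    exact ⟨u, ⟨hu1, by rw [hu]; exact h⟩, rfl⟩
  · apply injA_ncard_le ψ ((Set.finite_Iio B.size).subset (fun x hx => hx.1))
    rintro t ⟨ht, h⟩
    obtain ⟨u, rfl, hu⟩ := hlo t
    have hu1 : u < B.size := (hlt u).1 ht
    rw [B.unroll_of_lt hu1, A.unroll_of_lt ht] at hu
    exact ⟨u, ⟨hu1, by rw [hu]; exact h⟩, rfl⟩

theorem injA_cell (A B : Arrangement n) (ψ : ℕ → ℕ) (hmono : Monotone ψ)
    (hsub : ∀ u, (A.unroll (ψ u)).lo ≤ (B.unroll u).lo ∧
      (B.unroll u).hi ≤ (A.unroll (ψ u)).hi)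
    (hcut : ∀ t g, (A.unroll t).Cuts g → ∃ u, ψ u = t ∧ (B.unroll u).Cuts g)
    (hlo : ∀ t, ∃ u, ψ u = t ∧ (B.unroll u).lo = (A.unroll t).lo)
    (hhi : ∀ t, ∃ u, ψ u = t ∧ (B.unroll u).hi = (A.unroll t).hi)
    (t g j : ℕ) (h : A.HasSides t g j) : ∃ u j', ψ u = t ∧ j ≤ j' ∧ B.HasSides u g j' := by
  classical
  obtain ⟨ht, s, hts, hs, hno, rfl⟩ := h
  have hlt' : ∀ {a b : ℕ}, ψ a < ψ b → a < b := fun {a b} hab => by
    by_contra hc
    exact absurd (hmono (not_lt.1 hc)) (not_le.2 hab)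
  -- the last crossing over `t` that interrupts the gap
  obtain ⟨v1, hv1, _⟩ := hlo (t + 1)
  obtain ⟨u0, hu0, hc0⟩ := hcut t g ht
  have hb : ∀ u, ψ u = t ∧ (B.unroll u).Cuts g → u ≤ v1 := fun u hu =>
    (hlt' (by rw [hu.1, hv1]; exact Nat.lt_succ_self t)).le
  obtain ⟨u, ⟨hu, hcu⟩, hmax⟩ : ∃ u, (ψ u = t ∧ (B.unroll u).Cuts g) ∧
      ∀ v, (ψ v = t ∧ (B.unroll v).Cuts g) → v ≤ u := by
    refine ⟨Nat.findGreatest (fun u => ψ u = t ∧ (B.unroll u).Cuts g) v1, ?_, ?_⟩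
    · exact Nat.findGreatest_spec (P := fun u => ψ u = t ∧ (B.unroll u).Cuts g) (hb u0 ⟨hu0, hc0⟩) ⟨hu0, hc0⟩
    · intro v hv
      exact Nat.le_findGreatest (hb v hv) hv
  -- the next one
  obtain ⟨v2, hv2, hcv2⟩ := hcut s g hs
  have huv2 : u < v2 := hlt' (by rw [hu, hv2]; exact hts)
  have hex : ∃ x, u < x ∧ (B.unroll x).Cuts g := ⟨v2, huv2, hcv2⟩
  obtain ⟨x, ⟨hux, hcx⟩, hmin⟩ : ∃ x, (u < x ∧ (B.unroll x).Cuts g) ∧
      ∀ y, u < y → (B.unroll y).Cuts g → x ≤ y :=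
    ⟨Nat.find hex, Nat.find_spec hex, fun y h1 h2 => Nat.find_min' hex ⟨h1, h2⟩⟩
  have hx1 : t ≤ ψ x := by rw [← hu]; exact hmono hux.le
  have hx2 : ψ x ≤ s := by rw [← hv2]; exact hmono (hmin v2 huv2 hcv2)
  have hx3 : ψ x ≠ t := fun h => absurd (hmax x ⟨h, hcx⟩) (not_le.2 hux)
  have hx4 : (A.unroll (ψ x)).Cuts g := by
    have h1 := hsub x
    unfold Crossing.Cuts at hcx ⊢
    omega
  have hx5 : ψ x = s := by
    by_contra hne
    exact hno (ψ x) (by omega) (by omega) hx4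
  refine ⟨u, _, hu, ?_, hcu, x, hux, hcx, fun y h1 h2 h3 => absurd (hmin y h1 h3) (not_le.2 h2), rfl⟩
  apply Nat.add_le_add_left
  apply injA_ncard_le ψ ((Set.finite_Iio x).subset (fun y hy => hy.2.1))
  rintro w ⟨h1, h2, h3⟩
  rcases h3 with h3 | h3
  · obtain ⟨v, hv, h4⟩ := hlo w
    exact ⟨v, ⟨hlt' (by rw [hu, hv]; exact h1), hlt' (by rw [hv, hx5]; exact h2), Or.inl (h4.trans h3)⟩, hv⟩
  · obtain ⟨v, hv, h4⟩ := hhi w
    exact ⟨v, ⟨hlt' (by rw [hu, hv]; exact h1), hlt' (by rw [hv, hx5]; exact h2),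
      Or.inr (by rw [h4]; exact h3)⟩, hv⟩

/-- Refinement of a wiring diagram. `ψ` sends the crossings of the (unrolled) finer diagram `B` to
those of `A`. Proof. A cell `(t, g)` of `A` goes to `(u, g)`, `u` the last crossing of `B` over `t`
(`ψ u = t`) that interrupts the gap `g` (there is one by `hcut`, and a last one because some `v` has
`ψ v = t + 1`, `hlo`, and `ψ` is monotone). If the cell of `A` ends at `s`, the cell of `B` ends at
a crossing `s'` over `s`: the next interruption of `g` after `u` lies over an interruption of `g`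
in `A` (`hsub`), not over `t`, and some crossing over `s` interrupts `g`. A crossing `w` of `A`
between `t` and `s` touching `g` from above (`lo = g`) or below (`hi + 1 = g`) has a crossing `v`
over it with the same `lo` or `hi`; then `v` touches `g` and `u < v < s'` (monotonicity). Choosing
one `v` for every `w` is injective (`ψ v = w`). So the number of sides does not decrease, and the map
of the cells is injective. In the same way `outerSides` does not decrease. -/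
theorem numCellsGe_le_of_map (A B : Arrangement n) (hn : 3 ≤ n) (ψ : ℕ → ℕ) (hmono : Monotone ψ)
    (hlt : ∀ u, ψ u < A.size ↔ u < B.size)
    (hsub : ∀ u, (A.unroll (ψ u)).lo ≤ (B.unroll u).lo ∧
      (B.unroll u).hi ≤ (A.unroll (ψ u)).hi)
    (hcut : ∀ t g, (A.unroll t).Cuts g → ∃ u, ψ u = t ∧ (B.unroll u).Cuts g)
    (hlo : ∀ t, ∃ u, ψ u = t ∧ (B.unroll u).lo = (A.unroll t).lo)
    (hhi : ∀ t, ∃ u, ψ u = t ∧ (B.unroll u).hi = (A.unroll t).hi)
    (k : ℕ) : A.numCellsGe k ≤ B.numCellsGe k := by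
  unfold numCellsGe
  have hs : 0 < B.size := B.size_pos (by omega)
  apply Nat.add_le_add
  · apply injA_ncard_le (fun p => (ψ p.1, p.2))
    · refine (((Set.finite_Iio B.size).prod (Set.finite_Iio n))).subset ?_
      rintro ⟨t, g⟩ ⟨h1, j, _, h3⟩
      refine ⟨h1, ?_⟩
      have h4 := (B.unroll_valid hs t).2
      have h5 := h3.1
      unfold Crossing.Cuts at h5
      show g < n
      simp only at h5
      omega
    · rintro ⟨t, g⟩ ⟨h1, j, h2, h3⟩
      obtain ⟨u, j', h4, h5, h6⟩ := injA_cell A B ψ hmono hsub hcut hlo hhi t g j h3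
      subst h4
      exact ⟨(u, g), ⟨(hlt u).1 h1, j', h2.trans h5, h6⟩, rfl⟩
  · have h := injA_outer A B ψ hlt hlo hhi
    split_ifs with h1 h2
    · exact le_rfl
    · exact absurd (h1.trans h) h2
    · exact Nat.zero_le _
    · exact le_rfl

end Arrangement

end Pool.Agent.Lib.MP_91c05b_co
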