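import Pool.Agent.Lib.MP_91c05b_co.K.InjA

namespace Pool.Agent.Lib.MP_91c05b_co

namespace Arrangement

variable {n : ℕ}

private theorem injb_unroll_even (A : Arrangement n) {q r : ℕ} (hr : r < A.size) (hq : q % 2 = 0) :
    A.unroll (q * A.size + r) = A.c r := by
  have hs : 0 < A.size := by omega
  have h1 : (q * A.size + r) / A.size = q := by
    rw [Nat.add_comm, Nat.add_mul_div_right _ _ hs, Nat.div_eq_of_lt hr, Nat.zero_add]
  have h2 : (q * A.size + r) % A.size = r := by
    rw [Nat.add_comm, Nat.add_mul_mod_self_right, Nat.mod_eq_of_lt hr]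
  unfold unroll
  rw [h1, h2, if_pos hq]

private theorem injb_unroll_odd (A : Arrangement n) {q r : ℕ} (hr : r < A.size) (hq : q % 2 ≠ 0) :
    A.unroll (q * A.size + r) = (A.c r).flip n := by
  have hs : 0 < A.size := by omega
  have h1 : (q * A.size + r) / A.size = q := by
    rw [Nat.add_comm, Nat.add_mul_div_right _ _ hs, Nat.div_eq_of_lt hr, Nat.zero_add]
  have h2 : (q * A.size + r) % A.size = r := by
    rw [Nat.add_comm, Nat.add_mul_mod_self_right, Nat.mod_eq_of_lt hr]
  unfold unroll
  rw [h1, h2, if_neg hq]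
  rfl

private theorem injb_split (A : Arrangement n) (hs : 0 < A.size) (t : ℕ) :
    ∃ q r, r < A.size ∧ t = q * A.size + r :=
  ⟨t / A.size, t % A.size, Nat.mod_lt _ hs, (Nat.div_add_mod' t A.size).symm⟩

private theorem injb_Psi {a b : ℕ} (ψ : ℕ → ℕ) {q r : ℕ} (hr : r < b) :
    (q * b + r) / b * a + ψ ((q * b + r) % b) = q * a + ψ r := by
  have hs : 0 < b := by omega
  have h1 : (q * b + r) / b = q := by
    rw [Nat.add_comm, Nat.add_mul_div_right _ _ hs, Nat.div_eq_of_lt hr, Nat.zero_add]
  have h2 : (q * b + r) % b = r := by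
    rw [Nat.add_comm, Nat.add_mul_mod_self_right, Nat.mod_eq_of_lt hr]
  rw [h1, h2]

/-- The same for a map between the crossings of one period: extend it by
`ψ u = (u / B.size) * A.size + ψ₀ (u % B.size)`; in every second period both diagrams are upside
down (`unroll`). -/
theorem numCellsGe_le_of_map₀ (A B : Arrangement n) (hn : 3 ≤ n) (ψ : ℕ → ℕ)
    (hmono : ∀ u v, u ≤ v → v < B.size → ψ u ≤ ψ v)
    (hlt : ∀ u < B.size, ψ u < A.size)
    (hsub : ∀ u < B.size, (A.c (ψ u)).lo ≤ (B.c u).lo ∧ (B.c u).hi ≤ (A.c (ψ u)).hi)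
    (hcut : ∀ t < A.size, ∀ g, (A.c t).Cuts g → ∃ u < B.size, ψ u = t ∧ (B.c u).Cuts g)
    (hlo : ∀ t < A.size, ∃ u < B.size, ψ u = t ∧ (B.c u).lo = (A.c t).lo)
    (hhi : ∀ t < A.size, ∃ u < B.size, ψ u = t ∧ (B.c u).hi = (A.c t).hi)
    (k : ℕ) : A.numCellsGe k ≤ B.numCellsGe k := by
  have ha : 0 < A.size := A.size_pos (by omega)
  have hb : 0 < B.size := B.size_pos (by omega)
  refine numCellsGe_le_of_map A B hn (fun u => u / B.size * A.size + ψ (u % B.size)) ?_ ?_ ?_ ?_ ?_ ?_ k
  · intro u v huv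
    obtain ⟨q, r, hr, rfl⟩ := injb_split B hb u
    obtain ⟨q', r', hr', rfl⟩ := injb_split B hb v
    simp only [injb_Psi ψ hr, injb_Psi ψ hr']
    have hqq : q ≤ q' := by
      by_contra hcon
      have h1 : (q' + 1) * B.size ≤ q * B.size := Nat.mul_le_mul_right _ (by omega)
      rw [Nat.add_mul, Nat.one_mul] at h1
      omega
    rcases Nat.lt_or_eq_of_le hqq with h | h
    · have h1 : (q + 1) * A.size ≤ q' * A.size := Nat.mul_le_mul_right _ h
      rw [Nat.add_mul, Nat.one_mul] at h1
      have h2 := hlt r hr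
      omega
    · subst h
      have h1 := hmono r r' (by omega) hr'
      omega
  · intro u
    obtain ⟨q, r, hr, rfl⟩ := injb_split B hb u
    simp only [injb_Psi ψ hr]
    have h2 := hlt r hr
    rcases Nat.eq_zero_or_pos q with h | h
    · subst h
      rw [Nat.zero_mul, Nat.zero_mul, Nat.zero_add, Nat.zero_add]
      exact ⟨fun _ => hr, fun _ => h2⟩
    · have h3 : 1 * A.size ≤ q * A.size := Nat.mul_le_mul_right _ h
      have h4 : 1 * B.size ≤ q * B.size := Nat.mul_le_mul_right _ h
      constructor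
      · intro h5
        omega
      · intro h5
        omega
  · intro u
    obtain ⟨q, r, hr, rfl⟩ := injb_split B hb u
    simp only [injb_Psi ψ hr]
    have h1 := hsub r hr
    by_cases hq : q % 2 = 0
    · rw [injb_unroll_even A (hlt r hr) hq, injb_unroll_even B hr hq]
      exact h1
    · rw [injb_unroll_odd A (hlt r hr) hq, injb_unroll_odd B hr hq]
      simp only [Crossing.flip]
      omega
  · intro t g ht
    obtain ⟨q, r, hr, rfl⟩ := injb_split A ha t
    by_cases hq : q % 2 = 0
    · rw [injb_unroll_even A hr hq] at ht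
      obtain ⟨u, hu, hu', hu''⟩ := hcut r hr g ht
      refine ⟨q * B.size + u, ?_, ?_⟩
      · simp only [injb_Psi ψ hu, hu']
      · rw [injb_unroll_even B hu hq]
        exact hu''
    · rw [injb_unroll_odd A hr hq] at ht
      have hv := A.valid r hr
      have hgn : g ≤ n := by
        simp only [Crossing.flip, Crossing.Cuts] at ht
        omega
      rw [Crossing.flip_cuts hv.1 hv.2 hgn] at ht
      obtain ⟨u, hu, hu', hu''⟩ := hcut r hr _ ht
      refine ⟨q * B.size + u, ?_, ?_⟩
      · simp only [injb_Psi ψ hu, hu']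
      · have hw := B.valid u hu
        rw [injb_unroll_odd B hu hq, Crossing.flip_cuts hw.1 hw.2 hgn]
        exact hu''
  · intro t
    obtain ⟨q, r, hr, rfl⟩ := injb_split A ha t
    by_cases hq : q % 2 = 0
    · obtain ⟨u, hu, hu', hu''⟩ := hlo r hr
      refine ⟨q * B.size + u, ?_, ?_⟩
      · simp only [injb_Psi ψ hu, hu']
      · rw [injb_unroll_even B hu hq, injb_unroll_even A hr hq]
        exact hu''
    · obtain ⟨u, hu, hu', hu''⟩ := hhi r hr
      refine ⟨q * B.size + u, ?_, ?_⟩
      · simp only [injb_Psi ψ hu, hu']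
      · rw [injb_unroll_odd B hu hq, injb_unroll_odd A hr hq]
        simp only [Crossing.flip, hu'']
  · intro t
    obtain ⟨q, r, hr, rfl⟩ := injb_split A ha t
    by_cases hq : q % 2 = 0
    · obtain ⟨u, hu, hu', hu''⟩ := hhi r hr
      refine ⟨q * B.size + u, ?_, ?_⟩
      · simp only [injb_Psi ψ hu, hu']
      · rw [injb_unroll_even B hu hq, injb_unroll_even A hr hq]
        exact hu''
    · obtain ⟨u, hu, hu', hu''⟩ := hlo r hr
      refine ⟨q * B.size + u, ?_, ?_⟩
      · simp only [injb_Psi ψ hu, hu']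
      · rw [injb_unroll_odd B hu hq, injb_unroll_odd A hr hq]
        simp only [Crossing.flip, hu'']

end Arrangement

end Pool.Agent.Lib.MP_91c05b_co
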