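import Pool.Agent.Lib.MP_91c05b_co.K.Wire

namespace Pool.Agent.Lib.MP_91c05b_co

namespace Sph

variable {n N : ℕ} (X : Sph n N)

/-- Three different wires never run through one crossing. -/
theorem no_three {t : ℤ} {a b c : ℕ} (hab : a ≠ b) (hac : a ≠ c) (hbc : b ≠ c)
    (ha : OnG (X.γ t) (X.pos t a)) (hb : OnG (X.γ t) (X.pos t b)) :
    ¬ OnG (X.γ t) (X.pos t c) := by
  intro hc
  have h1 : X.pos t a ≠ X.pos t b := fun h => hab (X.pos_inj t a b h)
  have h2 : X.pos t a ≠ X.pos t c := fun h => hac (X.pos_inj t a c h)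
  have h3 : X.pos t b ≠ X.pos t c := fun h => hbc (X.pos_inj t b c h)
  unfold OnG at ha hb hc
  omega

private theorem lineb_back {t : ℤ} {a : ℕ} (ha : a < n) (h : OnG (X.γ t) (X.pos t a)) :
    OnG (X.γ (t - N)) (X.pos (t - N) a) := by
  have h1 := X.γ_add (t - N)
  have h2 := X.pos_add (t - N) a ha
  rw [sub_add_cancel] at h1 h2
  have h3 := X.γ_pos (t - N)
  have h4 := X.γ_lt (t - N)
  have h5 := X.pos_lt (t - N) a ha
  unfold OnG at h ⊢
  omega

private theorem lineb_other (X : Sph n N) (a : ℕ) : ∃ c, c < n ∧ a ≠ c := by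
  have h3 := X.three_le
  by_cases h : a = 0
  · exact ⟨1, by omega, by omega⟩
  · exact ⟨0, by omega, h⟩

/-- Let the different wires `a`, `b` meet at `t`. In the open interval from `t` to `t + N` the wire
`a` runs through at least `n - 2` crossings: for every `c < n` other than `a`, `b` take the
crossing of `meet_ex t a c` (it is not `t` by `no_three`); the map is injective by `no_three`. -/
theorem card_right {t : ℤ} {a b : ℕ} (ha : a < n) (hb : b < n) (hab : a ≠ b)
    (h1 : OnG (X.γ t) (X.pos t a)) (h2 : OnG (X.γ t) (X.pos t b))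
    [DecidablePred (fun u => OnG (X.γ u) (X.pos u a))] :
    n - 2 ≤ ((Finset.Ioo t (t + N)).filter (fun u => OnG (X.γ u) (X.pos u a))).card := by
  have hex : ∀ c, c < n → a ≠ c → ∃ u : ℤ, t ≤ u ∧ u < t + N ∧ OnG (X.γ u) (X.pos u a) ∧
      OnG (X.γ u) (X.pos u c) := fun c hc hac => X.meet_ex t a c ha hc hac
  let f : ℕ → ℤ := fun c => if h : c < n ∧ a ≠ c then (hex c h.1 h.2).choose else t
  have hf : ∀ c, c < n → a ≠ c → t ≤ f c ∧ f c < t + N ∧ OnG (X.γ (f c)) (X.pos (f c) a) ∧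
      OnG (X.γ (f c)) (X.pos (f c) c) := by
    intro c hc hac
    have h3 : f c = (hex c hc hac).choose := dif_pos ⟨hc, hac⟩
    rw [h3]
    exact (hex c hc hac).choose_spec
  have hcard : (((Finset.range n).erase a).erase b).card = n - 2 := by
    rw [Finset.card_erase_of_mem (Finset.mem_erase.mpr ⟨hab.symm, Finset.mem_range.mpr hb⟩),
      Finset.card_erase_of_mem (Finset.mem_range.mpr ha), Finset.card_range]
    omega
  rw [← hcard]
  apply Finset.card_le_card_of_injOn f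
  · intro c hc
    rw [Finset.mem_coe, Finset.mem_erase, Finset.mem_erase, Finset.mem_range] at hc
    obtain ⟨hcb, hca, hcn⟩ := hc
    obtain ⟨h3, h4, h5, h6⟩ := hf c hcn (Ne.symm hca)
    have h7 : f c ≠ t := by
      intro h8
      rw [h8] at h6
      exact X.no_three hab (Ne.symm hca) (Ne.symm hcb) h1 h2 h6
    rw [Finset.mem_coe, Finset.mem_filter, Finset.mem_Ioo]
    exact ⟨⟨lt_of_le_of_ne h3 (Ne.symm h7), h4⟩, h5⟩
  · intro c hc c' hc' hcc
    rw [Finset.mem_coe, Finset.mem_erase, Finset.mem_erase, Finset.mem_range] at hc hc'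
    by_contra hne
    obtain ⟨-, -, h5, h6⟩ := hf c hc.2.2 (Ne.symm hc.2.1)
    obtain ⟨-, -, -, h8⟩ := hf c' hc'.2.2 (Ne.symm hc'.2.1)
    rw [← hcc] at h8
    exact X.no_three (Ne.symm hc.2.1) (Ne.symm hc'.2.1) hne h5 h6 h8

theorem card_left {t : ℤ} {a b : ℕ} (ha : a < n) (hb : b < n) (hab : a ≠ b)
    (h1 : OnG (X.γ t) (X.pos t a)) (h2 : OnG (X.γ t) (X.pos t b))
    [DecidablePred (fun u => OnG (X.γ u) (X.pos u a))] :
    n - 2 ≤ ((Finset.Ioo (t - N) t).filter (fun u => OnG (X.γ u) (X.pos u a))).card := by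
  have h3 := X.card_right (t := t - N) ha hb hab (X.lineb_back ha h1) (X.lineb_back hb h2)
  rw [sub_add_cancel] at h3
  exact h3

/-- every wire runs through a crossing behind `t` (`meet_ex` with another wire, `3 ≤ n`) -/
theorem wire_ex_gt {a : ℕ} (ha : a < n) (t : ℤ) : ∃ u, t < u ∧ OnG (X.γ u) (X.pos u a) := by
  obtain ⟨c, hc, hac⟩ := X.lineb_other a
  obtain ⟨u, h1, -, h2, -⟩ := X.meet_ex (t + 1) a c ha hc hac
  exact ⟨u, by omega, h2⟩

theorem wire_ex_lt {a : ℕ} (ha : a < n) (t : ℤ) : ∃ u, u < t ∧ OnG (X.γ u) (X.pos u a) := by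
  obtain ⟨c, hc, hac⟩ := X.lineb_other a
  obtain ⟨u, -, h1, h2, -⟩ := X.meet_ex (t - N) a c ha hc hac
  exact ⟨u, by omega, h2⟩

end Sph

end Pool.Agent.Lib.MP_91c05b_co
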