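import Pool.Agent.Lib.MP_91c05b_co.K.Nxt

namespace Pool.Agent.Lib.MP_91c05b_co

/-- Between `t` and the `(j+1)`-st iterate of `nx` at `t` there are at most `j` elements of `S`.
Induction on `j`: the elements of `S` in the open interval from `t` to `nx S (w)`, with `w` the
iterate number `j`, are those from `t` to `w`, and `w`. -/
theorem card_nx_iterate {S : ℤ → Prop} [DecidablePred S] (hS : ∀ t, ∃ u, t < u ∧ S u) (t : ℤ)
    (j : ℕ) : ((Finset.Ioo t ((nx S)^[j + 1] t)).filter S).card ≤ j := by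
  induction j with
  | zero =>
    rw [Nat.le_zero, Finset.card_eq_zero, Finset.filter_eq_empty_iff]
    intro u hu
    rw [Finset.mem_Ioo] at hu
    exact (nx_spec (hS t)).2.2 u hu.1 hu.2
  | succ j ih =>
    have hw := nx_spec (hS ((nx S)^[j + 1] t))
    refine le_trans (le_trans (Finset.card_le_card (t :=
      insert ((nx S)^[j + 1] t) ((Finset.Ioo t ((nx S)^[j + 1] t)).filter S)) ?_)
      (Finset.card_insert_le _ _)) (Nat.succ_le_succ ih)
    intro u hu
    rw [Finset.mem_filter, Finset.mem_Ioo, Function.iterate_succ_apply'] at hu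
    rw [Finset.mem_insert, Finset.mem_filter, Finset.mem_Ioo]
    rcases lt_trichotomy u ((nx S)^[j + 1] t) with h | h | h
    · exact Or.inr ⟨⟨hu.1.1, h⟩, hu.2⟩
    · exact Or.inl h
    · exact absurd hu.2 (hw.2.2 u h hu.1.2)

theorem card_pv_iterate {S : ℤ → Prop} [DecidablePred S] (hS : ∀ t, ∃ u, u < t ∧ S u) (t : ℤ)
    (j : ℕ) : ((Finset.Ioo ((pv S)^[j + 1] t) t).filter S).card ≤ j := by
  induction j with
  | zero =>
    rw [Nat.le_zero, Finset.card_eq_zero, Finset.filter_eq_empty_iff]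
    intro u hu
    rw [Finset.mem_Ioo] at hu
    exact (pv_spec (hS t)).2.2 u hu.1 hu.2
  | succ j ih =>
    have hw := pv_spec (hS ((pv S)^[j + 1] t))
    refine le_trans (le_trans (Finset.card_le_card (t :=
      insert ((pv S)^[j + 1] t) ((Finset.Ioo ((pv S)^[j + 1] t) t).filter S)) ?_)
      (Finset.card_insert_le _ _)) (Nat.succ_le_succ ih)
    intro u hu
    rw [Finset.mem_filter, Finset.mem_Ioo, Function.iterate_succ_apply'] at hu
    rw [Finset.mem_insert, Finset.mem_filter, Finset.mem_Ioo]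
    rcases lt_trichotomy u ((pv S)^[j + 1] t) with h | h | h
    · exact absurd hu.2 (hw.2.2 u hu.1.1 h)
    · exact Or.inl h
    · exact Or.inr ⟨⟨h, hu.1.2⟩, hu.2⟩

end Pool.Agent.Lib.MP_91c05b_co
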