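import Pool.Agent.Lib.MP_91c05b_co.K.LineA
import Pool.Agent.Lib.MP_91c05b_co.K.LineB
import Pool.Agent.Lib.MP_91c05b_co.K.NxtB

namespace Pool.Agent.Lib.MP_91c05b_co

private theorem line_gt {S : ℤ → Prop} (hS : ∀ t, ∃ u, t < u ∧ S u) (t : ℤ) (j : ℕ) :
    t < (nx S)^[j + 1] t ∧ S ((nx S)^[j + 1] t) := by
  induction j with
  | zero =>
    have h := nx_spec (hS t)
    exact ⟨h.1, h.2.1⟩
  | succ j ih =>
    rw [Function.iterate_succ_apply']
    have h := nx_spec (hS ((nx S)^[j + 1] t))
    exact ⟨ih.1.trans h.1, h.2.1⟩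

private theorem line_lt {S : ℤ → Prop} (hS : ∀ t, ∃ u, u < t ∧ S u) (t : ℤ) (j : ℕ) :
    (pv S)^[j + 1] t < t ∧ S ((pv S)^[j + 1] t) := by
  induction j with
  | zero =>
    have h := pv_spec (hS t)
    exact ⟨h.1, h.2.1⟩
  | succ j ih =>
    rw [Function.iterate_succ_apply']
    have h := pv_spec (hS ((pv S)^[j + 1] t))
    exact ⟨h.1.trans ih.1, h.2.1⟩

private theorem line_ge {N : ℕ} {z : ℤ} (_hN : 0 < N) (hz : 0 < z) (h : (N : ℤ) ∣ z) :
    (N : ℤ) ≤ z := Int.le_of_dvd hz h

namespace Sph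

variable {n N : ℕ} (X : Sph n N)

/-- THE LINE LEMMA. Let the dart `x` on the wire `a` begin at a crossing with the wire `b`, and let
the edge reached from `x` by going straight on `j` times end at a crossing with `b`. Then
`n - 2 ≤ j`. Proof: `w` (the end) and `x.1` differ by a nonzero multiple of `N` (`meet_un`;
`w > x.1` for right darts), so the open interval from `x.1` to `w` contains the one of `card_right`
(or `card_left`), and it contains at most `j` crossings on `a` by `card_nx_iterate`. -/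
theorem line {x : Dart} {b j : ℕ} (hb : b < n) (hne : X.wire x ≠ b)
    (h0 : OnG (X.γ x.1) (X.pos x.1 b))
    (h1 : OnG (X.γ (X.phi ((fun z => X.phi (X.al (X.phi z)))^[j] x)).1)
      (X.pos (X.phi ((fun z => X.phi (X.al (X.phi z)))^[j] x)).1 b)) : n - 2 ≤ j := by
  classical
  have ha : X.wire x < n := X.wire_lt x
  have h2 : OnG (X.γ x.1) (X.pos x.1 (X.wire x)) := X.on_wire x
  rcases hx : x.2.1 with _ | _
  · rw [X.iter_left hx j] at h1
    have hS := fun t => X.wire_ex_lt ha t
    obtain ⟨hlt, hw⟩ := line_lt (S := fun t => OnG (X.γ t) (X.pos t (X.wire x))) hS x.1 j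
    set w := (pv (fun t => OnG (X.γ t) (X.pos t (X.wire x))))^[j + 1] x.1 with hwd
    have hd := X.meet_un (X.wire x) b x.1 w ha hb hne h2 h0 hw h1
    have hN := line_ge X.N_pos (by linarith) hd
    refine (X.card_left ha hb hne h2 h0).trans (le_trans (Finset.card_le_card ?_)
      (card_pv_iterate hS x.1 j))
    apply Finset.filter_subset_filter
    intro u hu
    rw [Finset.mem_Ioo] at hu ⊢
    exact ⟨by rw [← hwd]; linarith [hu.1], hu.2⟩
  · rw [X.iter_right hx j] at h1
    have hS := fun t => X.wire_ex_gt ha t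
    obtain ⟨hlt, hw⟩ := line_gt (S := fun t => OnG (X.γ t) (X.pos t (X.wire x))) hS x.1 j
    set w := (nx (fun t => OnG (X.γ t) (X.pos t (X.wire x))))^[j + 1] x.1 with hwd
    have hd := X.meet_un (X.wire x) b w x.1 ha hb hne hw h1 h2 h0
    have hN := line_ge X.N_pos (by linarith) hd
    refine (X.card_right ha hb hne h2 h0).trans (le_trans (Finset.card_le_card ?_)
      (card_nx_iterate hS x.1 j))
    apply Finset.filter_subset_filter
    intro u hu
    rw [Finset.mem_Ioo] at hu ⊢
    exact ⟨hu.1, by rw [← hwd]; linarith [hu.2]⟩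

end Sph

end Pool.Agent.Lib.MP_91c05b_co
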