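import Pool.Agent.Lib.MP_91c05b_co.K.Wire

namespace Pool.Agent.Lib.MP_91c05b_co

namespace Sph

variable {n N : ℕ} (X : Sph n N)

private theorem linea_notOn {e : Dart} {u : ℤ} (h1 : X.pos u (X.wire e) = X.dp e)
    (h2 : ¬ (X.γ u = X.dp e ∨ X.γ u = X.dp e + 1)) : ¬ OnG (X.γ u) (X.pos u (X.wire e)) := by
  rw [h1]
  rintro (h | h)
  · exact h2 (Or.inl h.symm)
  · exact h2 (Or.inr h.symm)

private theorem linea_phi_fst (e : Dart) : (X.phi e).1 = X.nb e := rfl

private theorem linea_F_fst (e : Dart) : (X.phi (X.al (X.phi e))).1 = X.nb e := by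
  have h : X.phi (X.al (X.phi e)) = dcw (dcw (X.al e)) := by
    unfold phi; rw [X.al_al]
  rw [h]
  rfl

private theorem linea_F_dir (e : Dart) : (X.phi (X.al (X.phi e))).2.1 = e.2.1 := by
  have h : X.phi (X.al (X.phi e)) = dcw (dcw (X.al e)) := by
    unfold phi; rw [X.al_al]
  rw [h]
  simp [dcw, al]

private theorem linea_on_nb (e : Dart) : OnG (X.γ (X.nb e)) (X.pos (X.nb e) (X.wire e)) := by
  have h := X.on_wire (X.al e)
  rw [X.wire_al, X.al_fst] at h
  exact h

/-- The end of a right dart is the next crossing on its wire. Write `a` for the wire; `stay` shows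
that `a` is in no crossing strictly between. -/
theorem nb_wire_right {e : Dart} (he : e.2.1 = true) :
    X.nb e = nx (fun t => OnG (X.γ t) (X.pos t (X.wire e))) e.1 := by
  obtain ⟨h1, _, h3⟩ := X.nb_right he
  have hw : X.pos (e.1 + 1) (X.wire e) = X.dp e := by
    have h := (X.wireAt_spec (t := e.1 + 1) (X.dp_lt e)).2
    unfold wire
    rw [if_pos he]
    exact h
  refine (nx_eq h1 (X.linea_on_nb e) fun u hu hu' => ?_).symm
  refine X.linea_notOn ?_ (h3 u hu hu')
  refine (X.stay (show e.1 + 1 ≤ u by omega) (X.wire_lt e) fun v hv hv' => ?_).1 hw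
  exact h3 v (by omega) (by omega)

theorem nb_wire_left {e : Dart} (he : e.2.1 = false) :
    X.nb e = pv (fun t => OnG (X.γ t) (X.pos t (X.wire e))) e.1 := by
  obtain ⟨h1, _, h3⟩ := X.nb_left he
  have hw : X.pos e.1 (X.wire e) = X.dp e := by
    have h := (X.wireAt_spec (t := e.1) (X.dp_lt e)).2
    unfold wire
    rw [if_neg (by rw [he]; decide)]
    exact h
  refine (pv_eq h1 (X.linea_on_nb e) fun u hu hu' => ?_).symm
  refine X.linea_notOn ?_ (h3 u hu hu')
  refine (X.stay (show u ≤ e.1 by omega) (X.wire_lt e) fun v hv hv' => ?_).2 hw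
  exact h3 v (by omega) (by omega)

/-- Going straight on `j` times from a right dart `x` and then to the end of the edge is the
`(j+1)`-st iterate of `nx` for the crossings on the wire of `x`. Induction on `j` (with
`Function.iterate_succ_apply'`): `phi (al (phi z)) = dcw (dcw (al z))` keeps the direction and the
wire (`wire_F1`). -/
theorem iter_right {x : Dart} (hx : x.2.1 = true) (j : ℕ) :
    (X.phi ((fun z => X.phi (X.al (X.phi z)))^[j] x)).1 =
      (nx (fun t => OnG (X.γ t) (X.pos t (X.wire x))))^[j + 1] x.1 := by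
  have key : ∀ j, ((fun z => X.phi (X.al (X.phi z)))^[j] x).1 =
      (nx (fun t => OnG (X.γ t) (X.pos t (X.wire x))))^[j] x.1 ∧
      ((fun z => X.phi (X.al (X.phi z)))^[j] x).2.1 = true ∧
      X.wire ((fun z => X.phi (X.al (X.phi z)))^[j] x) = X.wire x := by
    intro j
    induction j with
    | zero => exact ⟨rfl, hx, rfl⟩
    | succ j ih =>
      obtain ⟨h1, h2, h3⟩ := ih
      rw [Function.iterate_succ_apply', Function.iterate_succ_apply', X.linea_F_fst, X.linea_F_dir,
        X.wire_F1, X.nb_wire_right h2, h3, h1]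
      exact ⟨rfl, h2, rfl⟩
  obtain ⟨h1, h2, h3⟩ := key j
  rw [X.linea_phi_fst, X.nb_wire_right h2, h3, h1, Function.iterate_succ_apply']

theorem iter_left {x : Dart} (hx : x.2.1 = false) (j : ℕ) :
    (X.phi ((fun z => X.phi (X.al (X.phi z)))^[j] x)).1 =
      (pv (fun t => OnG (X.γ t) (X.pos t (X.wire x))))^[j + 1] x.1 := by
  have key : ∀ j, ((fun z => X.phi (X.al (X.phi z)))^[j] x).1 =
      (pv (fun t => OnG (X.γ t) (X.pos t (X.wire x))))^[j] x.1 ∧
      ((fun z => X.phi (X.al (X.phi z)))^[j] x).2.1 = false ∧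
      X.wire ((fun z => X.phi (X.al (X.phi z)))^[j] x) = X.wire x := by
    intro j
    induction j with
    | zero => exact ⟨rfl, hx, rfl⟩
    | succ j ih =>
      obtain ⟨h1, h2, h3⟩ := ih
      rw [Function.iterate_succ_apply', Function.iterate_succ_apply', X.linea_F_fst, X.linea_F_dir,
        X.wire_F1, X.nb_wire_left h2, h3, h1]
      exact ⟨rfl, h2, rfl⟩
  obtain ⟨h1, h2, h3⟩ := key j
  rw [X.linea_phi_fst, X.nb_wire_left h2, h3, h1, Function.iterate_succ_apply']

end Sph

end Pool.Agent.Lib.MP_91c05b_co
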