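import Pool.Agent.Lib.MP_91c05b_co.K.OuterA
import Pool.Agent.Lib.MP_91c05b_co.K.CellB
import Pool.Agent.Lib.MP_91c05b_co.K.CellD

namespace Pool.Agent.Lib.MP_91c05b_co

namespace Sph

variable {n N : ℕ} (X : Sph n N)

/-- `phi` on the upper polar cell -/
theorem outerb_phi_up {t : ℤ} (ht : X.γ t + 1 = n) :
    ∃ w : ℤ, X.phi (t, true, true) = (w, true, true) ∧ t < w ∧ X.γ w + 1 = n ∧
      ∀ u, t < u → u < w → X.γ u + 1 ≠ n := by
  obtain ⟨h1, h2, h3⟩ := X.nb_right (e := (t, true, true)) rfl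
  have hd : X.dp (t, true, true) = X.γ t := rfl
  have hw : X.γ (X.nb (t, true, true)) = X.dp (t, true, true) := by
    rcases h2 with h | h
    · exact h
    · exfalso
      have := X.γ_lt (X.nb (t, true, true))
      rw [h, hd] at this
      omega
  refine ⟨X.nb (t, true, true), ?_, h1, ?_, fun u hu1 hu2 hu3 => ?_⟩
  · unfold phi al dcw
    simp only [hw, decide_true, Bool.not_true, Bool.not_false]
  · rw [hw, hd]
    exact ht
  · refine h3 u hu1 hu2 (Or.inl ?_)
    rw [hd]
    omega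

/-- `phi` on the lower polar cell -/
theorem outerb_phi_low {t : ℤ} (ht : X.γ t = 1) :
    ∃ w : ℤ, X.phi (t, false, false) = (w, false, false) ∧ w < t ∧ X.γ w = 1 ∧
      ∀ u, w < u → u < t → X.γ u ≠ 1 := by
  obtain ⟨h1, h2, h3⟩ := X.nb_left (e := (t, false, false)) rfl
  have hd : X.dp (t, false, false) = 0 := by
    have : X.dp (t, false, false) = X.γ t - 1 := rfl
    rw [this, ht]
  have hw : X.γ (X.nb (t, false, false)) ≠ X.dp (t, false, false) := by
    intro h
    have := X.γ_pos (X.nb (t, false, false))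
    rw [h, hd] at this
    omega
  have hw1 : X.γ (X.nb (t, false, false)) = 1 := by
    rcases h2 with h | h
    · exact absurd h hw
    · rw [h, hd]
  refine ⟨X.nb (t, false, false), ?_, h1, hw1, fun u hu1 hu2 hu3 => ?_⟩
  · unfold phi al dcw
    simp only [hw, decide_false, Bool.not_true, Bool.not_false]
  · refine h3 u hu1 hu2 (Or.inr ?_)
    rw [hd, hu3]

/-- two elements in a period: another one between `t` and `t + M` and between `t - M` and `t` -/
theorem outerb_between {M : ℤ} (hM : 0 < M) {S : ℤ → Prop} [DecidablePred S]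
    (hS : ∀ t k : ℤ, S (t + k * M) ↔ S t) (hc : 1 < ((Finset.Ico (0 : ℤ) M).filter S).card)
    (t : ℤ) : (∃ u, t < u ∧ u < t + M ∧ S u) ∧ (∃ u, t - M < u ∧ u < t ∧ S u) := by
  obtain ⟨v, hv, hne⟩ := Finset.exists_mem_ne hc (t % M)
  rw [Finset.mem_filter, Finset.mem_Ico] at hv
  obtain ⟨⟨hv0, hvM⟩, hSv⟩ := hv
  have e1 : t % M + M * (t / M) = t := Int.emod_add_mul_ediv t M
  have e2 : 0 ≤ t % M := Int.emod_nonneg t hM.ne'
  have e3 : t % M < M := Int.emod_lt_of_pos t hM
  obtain ⟨r, hr⟩ : ∃ r, r = t % M := ⟨_, rfl⟩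
  obtain ⟨k, hk⟩ : ∃ k, k = t / M := ⟨_, rfl⟩
  rw [← hr, ← hk] at e1
  rw [← hr] at e2 e3 hne
  have a1 : (k + 1) * M = M * k + M := by ring
  have a2 : (k - 1) * M = M * k - M := by ring
  have a3 : k * M = M * k := by ring
  rcases lt_or_gt_of_ne hne with h | h
  · refine ⟨⟨v + (k + 1) * M, ?_, ?_, (hS v (k + 1)).2 hSv⟩, ⟨v + k * M, ?_, ?_, (hS v k).2 hSv⟩⟩ <;>
      omega
  · refine ⟨⟨v + k * M, ?_, ?_, (hS v k).2 hSv⟩, ⟨v + (k - 1) * M, ?_, ?_, (hS v (k - 1)).2 hSv⟩⟩ <;>
      omega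

/-- `phi (t, true, true) = (w, true, true)` where `w > t` is the next crossing with `γ w = γ t`
(no gap `n`). Modulo `2 N` it is a different dart because the `outer ≥ 3` crossings with
`γ + 1 = n` in the period `[t, t + 2 N)` are not all equal to `t`, so `w < t + 2 N`. -/
theorem phiQ_KU {x : ZMod (2 * N) × Bool × Bool} (hx : x ∈ X.KU) :
    X.phiQ x ∈ X.KU ∧ X.phiQ x ≠ x := by
  obtain ⟨t, ht, rfl⟩ := Finset.mem_image.1 hx
  have ht1 : X.γ t + 1 = n := (Finset.mem_filter.1 ht).2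
  obtain ⟨w, hw, htw, hwn, hmin⟩ := X.outerb_phi_up ht1
  have hN := X.N_pos
  rw [X.phiQ_proj, hw]
  refine ⟨X.mem_KU.2 hwn, fun h => ?_⟩
  obtain ⟨k, hk⟩ := (proj_eq_iff _ _).1 h
  have hk1 : t = w + k * ((2 * N : ℕ) : ℤ) := congrArg Prod.fst hk
  obtain ⟨u, hu1, hu2, hu3⟩ := (outerb_between (M := 2 * (N : ℤ)) (by omega)
    (S := fun u => X.γ u + 1 = n)
    (fun s k => by
      have := X.γ_per_mul s k
      simp only [this]) (lt_of_lt_of_le (by norm_num) X.outer_ge) t).1
  have hw2 : w < t + 2 * N := by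
    by_contra hcon
    exact hmin u hu1 (by omega) hu3
  push_cast at hk1
  have hneg : k < 0 := by
    by_contra hcon
    have : 0 ≤ k * (2 * (N : ℤ)) := mul_nonneg (by omega) (by omega)
    omega
  have : k * (2 * (N : ℤ)) ≤ (-1) * (2 * (N : ℤ)) :=
    mul_le_mul_of_nonneg_right (by omega) (by omega)
  omega

theorem phiQ_KL {x : ZMod (2 * N) × Bool × Bool} (hx : x ∈ X.KL) :
    X.phiQ x ∈ X.KL ∧ X.phiQ x ≠ x := by
  obtain ⟨t, ht, rfl⟩ := Finset.mem_image.1 hx
  have ht1 : X.γ t = 1 := (Finset.mem_filter.1 ht).2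
  obtain ⟨w, hw, htw, hwn, hmin⟩ := X.outerb_phi_low ht1
  have hN := X.N_pos
  rw [X.phiQ_proj, hw]
  refine ⟨X.mem_KL.2 hwn, fun h => ?_⟩
  obtain ⟨k, hk⟩ := (proj_eq_iff _ _).1 h
  have hk1 : t = w + k * ((2 * N : ℕ) : ℤ) := congrArg Prod.fst hk
  obtain ⟨u, hu1, hu2, hu3⟩ := (outerb_between (M := 2 * (N : ℤ)) (by omega)
    (S := fun u => X.γ u = 1)
    (fun s k => by
      have := X.γ_per_mul s k
      simp only [this])
    (lt_of_lt_of_le (by norm_num) (le_of_le_of_eq X.outer_ge X.outer_low.symm)) t).2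
  have hw2 : t - 2 * N < w := by
    by_contra hcon
    exact hmin u (by omega) hu2 hu3
  push_cast at hk1
  have hpos : 0 < k := by
    by_contra hcon
    have : k * (2 * (N : ℤ)) ≤ 0 := mul_nonpos_of_nonpos_of_nonneg (by omega) (by omega)
    omega
  have : 1 * (2 * (N : ℤ)) ≤ k * (2 * (N : ℤ)) :=
    mul_le_mul_of_nonneg_right (by omega) (by omega)
  omega

/-- the darts of the polar cells -/
theorem outerb_cell_none {e : Dart} (h : X.cell e = none) :
    proj (2 * N) e ∈ X.KU ∨ proj (2 * N) e ∈ X.KL := by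
  obtain ⟨t, r, u⟩ := e
  cases r <;> cases u
  · right
    rw [X.mem_KL]
    by_contra hc
    have : X.cell (t, false, false) = some (pv (fun x => X.γ x + 1 = X.γ t) t) := if_neg hc
    rw [this] at h
    exact absurd h (Option.some_ne_none _)
  · exact absurd h (Option.some_ne_none _)
  · exact absurd h (Option.some_ne_none _)
  · left
    rw [X.mem_KU]
    by_contra hc
    have : X.cell (t, true, true) = some (pv (fun x => X.γ x = X.γ t + 1) t) := if_neg hc
    rw [this] at h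
    exact absurd h (Option.some_ne_none _)

theorem outerb_sz_none {e : Dart} (h : X.cell e = none) : X.sz e = X.outer := by
  unfold sz
  rw [h]

theorem outerb_sz_some {e : Dart} {t : ℤ} (h : X.cell e = some t) : X.sz e = X.sides t := by
  unfold sz
  rw [h]

/-- for the polar cells `cube_of_card_three` on `KU`, `KL`; for the others `phi3` -/
theorem phiQ3 (e : Dart) (h : X.sz e = 3) :
    X.phiQ (X.phiQ (X.phiQ (proj (2 * N) e))) = proj (2 * N) e := by
  rcases hc : X.cell e with _ | t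
  · rw [X.outerb_sz_none hc] at h
    rcases X.outerb_cell_none hc with hm | hm
    · exact cube_of_card_three X.phiQ (fun x hx => (X.phiQ_KU hx).1)
        (fun x _ y _ hxy => X.phiQ.injective hxy) (fun x hx => (X.phiQ_KU hx).2)
        (X.card_KU.trans h) hm
    · exact cube_of_card_three X.phiQ (fun x hx => (X.phiQ_KL hx).1)
        (fun x _ y _ hxy => X.phiQ.injective hxy) (fun x hx => (X.phiQ_KL hx).2)
        (X.card_KL.trans h) hm
  · rw [X.outerb_sz_some hc] at h
    rw [X.phiQ_proj, X.phiQ_proj, X.phiQ_proj, X.phi3 hc h]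

theorem phiQ4 (e : Dart) (h : X.sz e = 4) :
    X.phiQ (X.phiQ (X.phiQ (X.phiQ (proj (2 * N) e)))) = proj (2 * N) e := by
  rcases hc : X.cell e with _ | t
  · rw [X.outerb_sz_none hc] at h
    rcases X.outerb_cell_none hc with hm | hm
    · exact fourth_of_card_four X.phiQ (fun x hx => (X.phiQ_KU hx).1)
        (fun x _ y _ hxy => X.phiQ.injective hxy) (fun x hx => (X.phiQ_KU hx).2)
        (X.card_KU.trans h) hm
    · exact fourth_of_card_four X.phiQ (fun x hx => (X.phiQ_KL hx).1)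
        (fun x _ y _ hxy => X.phiQ.injective hxy) (fun x hx => (X.phiQ_KL hx).2)
        (X.card_KL.trans h) hm
  · rw [X.outerb_sz_some hc] at h
    rw [X.phiQ_proj, X.phiQ_proj, X.phiQ_proj, X.phiQ_proj, X.phi4 hc h]

end Sph

end Pool.Agent.Lib.MP_91c05b_co
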