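import Pool.Agent.Lib.MP_91c05b_co.K.Trk
import Pool.Agent.Lib.MP_91c05b_co.K.Line
import Pool.Agent.Lib.MP_91c05b_co.K.CntC
import Pool.Agent.Lib.MP_91c05b_co.K.OuterB

namespace Pool.Agent.Lib.MP_91c05b_co

open Finset

namespace Sph

variable {n N : ℕ} (X : Sph n N)

/-- the wires `i`, `j` meet at the crossing `t` -/
private def maina_meet (t : ℤ) (i j : ℕ) : Prop :=
  i ≠ j ∧ i < n ∧ j < n ∧ OnG (X.γ t) (X.pos t i) ∧ OnG (X.γ t) (X.pos t j)

private theorem maina_meet_comm {t : ℤ} {i j : ℕ} (h : X.maina_meet t i j) :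
    X.maina_meet t j i :=
  ⟨h.1.symm, h.2.2.1, h.2.1, h.2.2.2.2, h.2.2.2.1⟩

private theorem maina_meet_per (t : ℤ) (i j : ℕ) :
    X.maina_meet (t + (2 * N : ℕ)) i j ↔ X.maina_meet t i j := by
  have e : t + ((2 * N : ℕ) : ℤ) = t + 2 * (N : ℤ) := by push_cast; ring
  unfold maina_meet
  rw [e, X.γ_per]
  constructor
  · rintro ⟨h1, h2, h3, h4, h5⟩
    rw [X.pos_per t h2] at h4
    rw [X.pos_per t h3] at h5
    exact ⟨h1, h2, h3, h4, h5⟩
  · rintro ⟨h1, h2, h3, h4, h5⟩
    refine ⟨h1, h2, h3, ?_, ?_⟩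
    · rw [X.pos_per t h2]; exact h4
    · rw [X.pos_per t h3]; exact h5

private theorem maina_meet_rep (e : Dart) (i j : ℕ) :
    X.maina_meet (rep (proj (2 * N) e)).1 i j ↔ X.maina_meet e.1 i j := by
  have := inv_rep_proj (F := fun e : Dart => X.maina_meet e.1 i j) X.two_N_pos
    (fun e => propext (X.maina_meet_per e.1 i j)) e
  exact iff_of_eq this

private theorem maina_wire_rep (e : Dart) : X.wire (rep (proj (2 * N) e)) = X.wire e :=
  inv_rep_proj (F := X.wire) X.two_N_pos (fun e => X.wire_sh e) e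

private theorem maina_sz_rep (e : Dart) : X.sz (rep (proj (2 * N) e)) = X.sz e :=
  inv_rep_proj (F := X.sz) X.two_N_pos (fun e => X.sz_sh e) e

private theorem maina_iter (j : ℕ) (e : Dart) :
    (fun z => X.phiQ (X.alQ (X.phiQ z)))^[j] (proj (2 * N) e) =
      proj (2 * N) ((fun z => X.phi (X.al (X.phi z)))^[j] e) := by
  induction j with
  | zero => rfl
  | succ j ih =>
    rw [Function.iterate_succ_apply', Function.iterate_succ_apply', ih]
    simp only [X.phiQ_proj, X.alQ_proj]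

/-- `track` for `D = ZMod (2 N) × Bool × Bool`, `α = alQ`, `φ = phiQ`, `sz = X.sz ∘ rep`,
`wire = X.wire ∘ rep`, `tail x = (rep x).1`,
`meet t i j = (i ≠ j ∧ i < n ∧ j < n ∧ OnG (γ t) (pos t i) ∧ OnG (γ t) (pos t j))`, `L = n - 2`. All
of these are shift invariant (`inv_rep_proj`, `γ_per`, `pos_per`, `sz_sh`, `wire_sh`), so it is
enough to check them on `proj e` (`proj_rep`); `F3` is `line` (`quo_iterate` for the map
`z ↦ phi (al (phi z))`), `h3`, `h4` are `phiQ3`, `phiQ4`. -/
theorem track_darts [NeZero (2 * N)] :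
    (n - 3) * (univ.filter (fun x : ZMod (2 * N) × Bool × Bool => X.sz (rep x) = 3)).card ≤
      (n - 3) * (univ.filter (fun x : ZMod (2 * N) × Bool × Bool => 5 ≤ X.sz (rep x))).card +
        (univ.filter (fun x : ZMod (2 * N) × Bool × Bool => X.sz (rep x) = 4)).card := by
  have key := track (D := ZMod (2 * N) × Bool × Bool) (ι := ℕ) (V := ℤ) X.alQ X.phiQ
    (by
      intro x
      rw [← proj_rep X.two_N_pos x, X.alQ_proj, X.alQ_proj, X.al_al])
    (fun x => X.sz (rep x))
    (by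
      intro x
      show X.sz (rep (X.phiQ x)) = X.sz (rep x)
      conv_lhs => rw [← proj_rep X.two_N_pos x]
      rw [X.phiQ_proj, X.maina_sz_rep, X.sz_phi])
    (fun x => X.sz_ge _)
    (by
      intro x hx
      have := X.phiQ3 (rep x) hx
      rwa [proj_rep X.two_N_pos x] at this)
    (by
      intro x hx
      have := X.phiQ4 (rep x) hx
      rwa [proj_rep X.two_N_pos x] at this)
    (fun x => X.wire (rep x)) (fun x => (rep x).1) X.maina_meet
    (fun v i j h => X.maina_meet_comm h)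
    (by
      intro x
      show X.wire (rep (X.phiQ (X.alQ (X.phiQ x)))) = X.wire (rep x)
      conv_lhs => rw [← proj_rep X.two_N_pos x]
      rw [X.phiQ_proj, X.alQ_proj, X.phiQ_proj, X.maina_wire_rep, X.wire_F1])
    (by
      intro y
      show X.maina_meet (rep (X.phiQ y)).1 (X.wire (rep y)) (X.wire (rep (X.phiQ y)))
      have h : X.phiQ y = proj (2 * N) (X.phi (rep y)) := by
        conv_lhs => rw [← proj_rep X.two_N_pos y]
        rw [X.phiQ_proj]
      rw [h, X.maina_wire_rep, X.maina_meet_rep]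
      obtain ⟨h1, h2, h3⟩ := X.wire_F2 (rep y)
      exact ⟨h1, X.wire_lt _, X.wire_lt _, h2, h3⟩)
    (n - 2)
    (by
      intro x b j h0 h1
      have hx : x = proj (2 * N) (rep x) := (proj_rep X.two_N_pos x).symm
      rw [hx, X.maina_iter, X.phiQ_proj, X.maina_wire_rep, X.maina_meet_rep] at h1
      exact X.line h0.2.2.1 h0.1 h0.2.2.2.2 h1.2.2.2.2)
  have e : n - 2 - 1 = n - 3 := by omega
  rw [e] at key
  exact key

end Sph

end Pool.Agent.Lib.MP_91c05b_co
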