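import Pool.Agent.Lib.MP_91c05b_co.K.Defs

namespace Pool.Agent.Lib.MP_91c05b_co

/-- the definition of `nx` in the case of existence -/
private theorem nxt_nx_pos {S : ℤ → Prop} {t : ℤ} (h : ∃ k : ℕ, S (t + 1 + k)) :
    ∃ k : ℕ, nx S t = t + 1 + k ∧ S (t + 1 + k) ∧ ∀ m : ℕ, m < k → ¬ S (t + 1 + m) := by
  classical
  refine ⟨Nat.find h, ?_, Nat.find_spec h, fun m hm => Nat.find_min h hm⟩
  unfold nx
  rw [dif_pos h]

private theorem nxt_pv_pos {S : ℤ → Prop} {t : ℤ} (h : ∃ k : ℕ, S (t - 1 - k)) :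
    ∃ k : ℕ, pv S t = t - 1 - k ∧ S (t - 1 - k) ∧ ∀ m : ℕ, m < k → ¬ S (t - 1 - m) := by
  classical
  refine ⟨Nat.find h, ?_, Nat.find_spec h, fun m hm => Nat.find_min h hm⟩
  unfold pv
  rw [dif_pos h]

/-- Unfold `nx`, `Nat.find_spec`, `Nat.find_min`; the witness `u` gives `k = (u - t - 1).toNat`. -/
theorem nx_spec {S : ℤ → Prop} {t : ℤ} (h : ∃ u, t < u ∧ S u) :
    t < nx S t ∧ S (nx S t) ∧ ∀ u, t < u → u < nx S t → ¬ S u := by
  obtain ⟨u, hu, hS⟩ := h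
  have hk : ∃ k : ℕ, S (t + 1 + k) := by
    refine ⟨(u - t - 1).toNat, ?_⟩
    have : t + 1 + ((u - t - 1).toNat : ℤ) = u := by omega
    rw [this]
    exact hS
  obtain ⟨k, hk1, hk2, hk3⟩ := nxt_nx_pos hk
  rw [hk1]
  refine ⟨by omega, hk2, ?_⟩
  intro v hv1 hv2 hv3
  refine hk3 (v - t - 1).toNat (by omega) ?_
  have : t + 1 + ((v - t - 1).toNat : ℤ) = v := by omega
  rw [this]
  exact hv3

theorem pv_spec {S : ℤ → Prop} {t : ℤ} (h : ∃ u, u < t ∧ S u) :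
    pv S t < t ∧ S (pv S t) ∧ ∀ u, pv S t < u → u < t → ¬ S u := by
  obtain ⟨u, hu, hS⟩ := h
  have hk : ∃ k : ℕ, S (t - 1 - k) := by
    refine ⟨(t - 1 - u).toNat, ?_⟩
    have : t - 1 - ((t - 1 - u).toNat : ℤ) = u := by omega
    rw [this]
    exact hS
  obtain ⟨k, hk1, hk2, hk3⟩ := nxt_pv_pos hk
  rw [hk1]
  refine ⟨by omega, hk2, ?_⟩
  intro v hv1 hv2 hv3
  refine hk3 (t - 1 - v).toNat (by omega) ?_
  have : t - 1 - ((t - 1 - v).toNat : ℤ) = v := by omega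
  rw [this]
  exact hv3

/-- From `nx_spec` by trichotomy. -/
theorem nx_eq {S : ℤ → Prop} {t s : ℤ} (h1 : t < s) (h2 : S s)
    (h3 : ∀ u, t < u → u < s → ¬ S u) : nx S t = s := by
  obtain ⟨ha, hb, hc⟩ := nx_spec ⟨s, h1, h2⟩
  rcases lt_trichotomy (nx S t) s with h | h | h
  · exact absurd hb (h3 _ ha h)
  · exact h
  · exact absurd h2 (hc _ h1 h)

theorem pv_eq {S : ℤ → Prop} {t s : ℤ} (h1 : s < t) (h2 : S s)
    (h3 : ∀ u, s < u → u < t → ¬ S u) : pv S t = s := by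
  obtain ⟨ha, hb, hc⟩ := pv_spec ⟨s, h1, h2⟩
  rcases lt_trichotomy (pv S t) s with h | h | h
  · exact absurd h2 (hc _ h h1)
  · exact h
  · exact absurd hb (h3 _ h ha)

/-- If `S'` is `S` shifted by `c` then `nx` is shifted (no existence needed: if there is no
later element both sides are `t + c`). -/
theorem nx_shift {S S' : ℤ → Prop} {c : ℤ} (h : ∀ u, S (u + c) ↔ S' u) (t : ℤ) :
    nx S (t + c) = nx S' t + c := by
  by_cases hk : ∃ k : ℕ, S' (t + 1 + k)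
  · obtain ⟨k, hk1, hk2, hk3⟩ := nxt_nx_pos hk
    rw [hk1]
    refine nx_eq (by omega) ((h _).mpr hk2) ?_
    intro u hu1 hu2 hu3
    refine hk3 (u - c - t - 1).toNat (by omega) ((h _).mp ?_)
    have : t + 1 + ((u - c - t - 1).toNat : ℤ) + c = u := by omega
    rw [this]
    exact hu3
  · have hk' : ¬ ∃ k : ℕ, S (t + c + 1 + k) := by
      rintro ⟨k, hk1⟩
      refine hk ⟨k, (h _).mp ?_⟩
      have : t + 1 + (k : ℤ) + c = t + c + 1 + k := by ring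
      rw [this]
      exact hk1
    unfold nx
    rw [dif_neg hk, dif_neg hk']

theorem pv_shift {S S' : ℤ → Prop} {c : ℤ} (h : ∀ u, S (u + c) ↔ S' u) (t : ℤ) :
    pv S (t + c) = pv S' t + c := by
  by_cases hk : ∃ k : ℕ, S' (t - 1 - k)
  · obtain ⟨k, hk1, hk2, hk3⟩ := nxt_pv_pos hk
    rw [hk1]
    refine pv_eq (by omega) ((h _).mpr hk2) ?_
    intro u hu1 hu2 hu3
    refine hk3 (t - 1 - (u - c)).toNat (by omega) ((h _).mp ?_)
    have : t - 1 - ((t - 1 - (u - c)).toNat : ℤ) + c = u := by omega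
    rw [this]
    exact hu3
  · have hk' : ¬ ∃ k : ℕ, S (t + c - 1 - k) := by
      rintro ⟨k, hk1⟩
      refine hk ⟨k, (h _).mp ?_⟩
      have : t - 1 - (k : ℤ) + c = t + c - 1 - k := by ring
      rw [this]
      exact hk1
    unfold pv
    rw [dif_neg hk, dif_neg hk']

/-- `pv` of `nx` is the identity on `S`. -/
theorem pv_nx {S : ℤ → Prop} {t : ℤ} (ht : S t) (h : ∃ u, t < u ∧ S u) : pv S (nx S t) = t := by
  obtain ⟨ha, hb, hc⟩ := nx_spec h
  exact pv_eq ha ht hc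

theorem nx_pv {S : ℤ → Prop} {t : ℤ} (ht : S t) (h : ∃ u, u < t ∧ S u) : nx S (pv S t) = t := by
  obtain ⟨ha, hb, hc⟩ := pv_spec h
  exact nx_eq ha ht hc

end Pool.Agent.Lib.MP_91c05b_co
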