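import Pool.Agent.Lib.MP_91c05b_co.K.Defs

namespace Pool.Agent.Lib.MP_91c05b_co

namespace Arrangement

variable {n : ℕ} (A : Arrangement n)

/-- all vertices are simple crossings -/
def Simple : Prop := ∀ t < A.size, (A.c t).hi = (A.c t).lo + 1

theorem unroll_simple (hn : 3 ≤ n) (h : A.Simple) (t : ℕ) :
    (A.unroll t).hi = (A.unroll t).lo + 1 := by
  have hs : 0 < A.size := A.size_pos (by omega)
  have hm : t % A.size < A.size := Nat.mod_lt _ hs
  obtain ⟨h1, h2⟩ := A.valid _ hm
  have h3 := h _ hm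
  unfold unroll
  split_ifs
  · exact h3
  · show n - 1 - (A.c (t % A.size)).lo = n - 1 - (A.c (t % A.size)).hi + 1
    omega

/-- the gap of the crossing with number `t` modulo `2 size` -/
noncomputable def zg (t : ℤ) : ℕ := (A.unroll ((t % (2 * A.size)).toNat)).hi

/-- the position of the wire `i` at the time `t` modulo `2 size` -/
noncomputable def zp (t : ℤ) (i : ℕ) : ℕ := A.P ((t % (2 * A.size)).toNat) i

private theorem ofarra_mod (t : ℕ) : ((t : ℤ) % (2 * A.size)).toNat = t % (2 * A.size) := by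
  have h : (2 * (A.size : ℤ)) = ((2 * A.size : ℕ) : ℤ) := by push_cast; ring
  rw [h, ← Int.natCast_mod, Int.toNat_natCast]

private theorem ofarra_unroll (hs : 0 < A.size) (t k : ℕ) :
    A.unroll (t + 2 * A.size * k) = A.unroll t := by
  induction k with
  | zero => simp
  | succ k ih =>
    rw [show t + 2 * A.size * (k + 1) = (t + 2 * A.size * k) + 2 * A.size by ring,
      A.unroll_add_two hs, ih]

private theorem ofarra_P (hs : 0 < A.size) (t k : ℕ) {i : ℕ} (hi : i < n) :
    A.P (t + 2 * A.size * k) i = A.P t i := by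
  induction k with
  | zero => simp
  | succ k ih =>
    rw [show t + 2 * A.size * (k + 1) = ((t + 2 * A.size * k) + A.size) + A.size by ring,
      A.P_add hs hi, A.P_add hs hi, ih]
    have := A.P_lt hs hi t
    omega

theorem zg_nat (hs : 0 < A.size) (t : ℕ) : A.zg t = (A.unroll t).hi := by
  unfold zg
  rw [A.ofarra_mod, ← A.ofarra_unroll hs (t % (2 * A.size)) (t / (2 * A.size)), Nat.mod_add_div]

theorem zp_nat (hs : 0 < A.size) (t : ℕ) {i : ℕ} (hi : i < n) : A.zp t i = A.P t i := by
  unfold zp
  rw [A.ofarra_mod, ← A.ofarra_P hs (t % (2 * A.size)) (t / (2 * A.size)) hi, Nat.mod_add_div]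

/-- both are periodic modulo `2 size` -/
theorem zg_per (hs : 0 < A.size) (t k : ℤ) : A.zg (t + k * (2 * A.size)) = A.zg t := by
  unfold zg
  rw [Int.add_mul_emod_self_right]

theorem zp_per (hs : 0 < A.size) (t k : ℤ) (i : ℕ) :
    A.zp (t + k * (2 * A.size)) i = A.zp t i := by
  unfold zp
  rw [Int.add_mul_emod_self_right]

end Arrangement

end Pool.Agent.Lib.MP_91c05b_co
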