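import Pool.Agent.Lib.MP_91c05b_co.K.OfArrA

namespace Pool.Agent.Lib.MP_91c05b_co

namespace Arrangement

variable {n : ℕ} (A : Arrangement n)

/-- every integer is a natural number modulo `2 size` -/
private theorem ofarrb_nat (hn : 3 ≤ n) (t : ℤ) : ∃ (m : ℕ) (k : ℤ), t = m + k * (2 * A.size) := by
  have hs : 0 < A.size := A.size_pos (by omega)
  have h0 : (2 * (A.size : ℤ)) ≠ 0 := by positivity
  refine ⟨(t % (2 * A.size)).toNat, t / (2 * A.size), ?_⟩
  rw [Int.toNat_of_nonneg (Int.emod_nonneg _ h0), mul_comm (t / (2 * (A.size : ℤ)))]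
  exact (Int.emod_add_mul_ediv _ _).symm

/-- `unroll_valid` -/
theorem zg_pos (hn : 3 ≤ n) (t : ℤ) : 1 ≤ A.zg t := by
  have h := (A.unroll_valid (A.size_pos (by omega)) (t % (2 * A.size)).toNat).1
  unfold zg
  omega

theorem zg_lt (hn : 3 ≤ n) (t : ℤ) : A.zg t < n :=
  (A.unroll_valid (A.size_pos (by omega)) (t % (2 * A.size)).toNat).2

/-- Reduce to natural numbers: replace `t` by `t + k (2 size) ≥ 0` (`zg_per`, `zp_per`), then
`zg_nat`, `zp_nat`, `unroll_add` (`flip` of a simple crossing). -/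
theorem zg_add (hn : 3 ≤ n) (h : A.Simple) (t : ℤ) : A.zg (t + A.size) = n - A.zg t := by
  have hs : 0 < A.size := A.size_pos (by omega)
  obtain ⟨m, k, rfl⟩ := A.ofarrb_nat hn t
  have h1 : (m : ℤ) + k * (2 * A.size) + A.size = ((m + A.size : ℕ) : ℤ) + k * (2 * A.size) := by
    push_cast
    ring
  have h2 := A.unroll_simple hn h m
  have h3 := A.unroll_valid hs m
  rw [h1, A.zg_per hs, A.zg_per hs, A.zg_nat hs, A.zg_nat hs, A.unroll_add hs]
  unfold Crossing.flip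
  dsimp only
  omega

theorem zp_lt (hn : 3 ≤ n) (t : ℤ) (i : ℕ) (hi : i < n) : A.zp t i < n :=
  A.P_lt (A.size_pos (by omega)) hi _

theorem zp_inj (t : ℤ) (i j : ℕ) (h : A.zp t i = A.zp t j) : i = j :=
  A.P_inj h

theorem zp_surj (hn : 3 ≤ n) (t : ℤ) (p : ℕ) (hp : p < n) : ∃ i < n, A.zp t i = p :=
  A.P_surj (A.size_pos (by omega)) _ hp

/-- `P_succ`, `Crossing.move` of a simple crossing is `mv` -/
theorem zp_step (hn : 3 ≤ n) (h : A.Simple) (t : ℤ) (i : ℕ) (hi : i < n) :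
    A.zp (t + 1) i = mv (A.zg t) (A.zp t i) := by
  have hs : 0 < A.size := A.size_pos (by omega)
  obtain ⟨m, k, rfl⟩ := A.ofarrb_nat hn t
  have h1 : (m : ℤ) + k * (2 * A.size) + 1 = ((m + 1 : ℕ) : ℤ) + k * (2 * A.size) := by
    push_cast
    ring
  have h2 := A.unroll_simple hn h m
  rw [h1, A.zp_per hs, A.zp_per hs, A.zg_per hs, A.zp_nat hs _ hi, A.zp_nat hs _ hi, A.zg_nat hs,
    A.P_succ]
  unfold Crossing.move mv
  generalize A.P m i = p
  split_ifs <;> omega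

/-- `P_add` -/
theorem zp_add (hn : 3 ≤ n) (t : ℤ) (i : ℕ) (hi : i < n) :
    A.zp (t + A.size) i = n - 1 - A.zp t i := by
  have hs : 0 < A.size := A.size_pos (by omega)
  obtain ⟨m, k, rfl⟩ := A.ofarrb_nat hn t
  have h1 : (m : ℤ) + k * (2 * A.size) + A.size = ((m + A.size : ℕ) : ℤ) + k * (2 * A.size) := by
    push_cast
    ring
  rw [h1, A.zp_per hs, A.zp_per hs, A.zp_nat hs _ hi, A.zp_nat hs _ hi, A.P_add hs hi]

/-- for natural numbers: `OnG` is `Has` -/
theorem onG_iff (hn : 3 ≤ n) (h : A.Simple) (t : ℕ) {i : ℕ} (hi : i < n) :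
    OnG (A.zg t) (A.zp t i) ↔ (A.unroll t).Has (A.P t i) := by
  have hs : 0 < A.size := A.size_pos (by omega)
  have h2 := A.unroll_simple hn h t
  rw [A.zp_nat hs _ hi, A.zg_nat hs]
  unfold OnG Crossing.Has
  omega

end Arrangement

end Pool.Agent.Lib.MP_91c05b_co
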