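import Pool.Agent.Lib.MP_91c05b_co.K.OfArrB

namespace Pool.Agent.Lib.MP_91c05b_co

namespace Arrangement

variable {n : ℕ} (A : Arrangement n)

/-- The wire `0` goes from the position `0` to `n - 1` in the first `size` steps (`P_size`), each
step changes the position by at most one (`zp_step`), so it passes from `g - 1` to `g` at some
crossing, which lies in the gap `g`. -/
theorem zg_ex (hn : 3 ≤ n) (h : A.Simple) (g : ℕ) (h1 : 1 ≤ g) (h2 : g < n) :
    ∃ t : ℤ, A.zg t = g := by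
  have hs : 0 < A.size := A.size_pos (by omega)
  have h0 : A.zp 0 0 = 0 := by
    have := A.zp_nat hs 0 (i := 0) (by omega)
    rw [P_zero] at this
    exact_mod_cast this
  have key : ∀ t : ℕ, g ≤ A.zp (t : ℤ) 0 → ∃ s : ℤ, A.zg s = g := by
    intro t
    induction t with
    | zero =>
      intro hg
      rw [Nat.cast_zero, h0] at hg
      omega
    | succ t ih =>
      intro hg
      by_cases hc : g ≤ A.zp (t : ℤ) 0
      · exact ih hc
      · refine ⟨(t : ℤ), ?_⟩
        push_cast at hg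
        rw [A.zp_step hn h _ 0 (by omega)] at hg
        unfold mv at hg
        split_ifs at hg <;> omega
  apply key A.size
  have h3 := A.zp_add hn 0 0 (by omega)
  rw [zero_add, h0] at h3
  omega

private theorem ofarrc_key (hn : 3 ≤ n) (h : A.Simple) (t : ℤ) {i j : ℕ} (hi : i < n) (hj : j < n) :
    (OnG (A.zg t) (A.zp t i) ∧ OnG (A.zg t) (A.zp t j)) ↔ A.Meet ((t % A.size).toNat) i j := by
  have hs : 0 < A.size := A.size_pos (by omega)
  have hsz : (0 : ℤ) < A.size := by exact_mod_cast hs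
  obtain ⟨m, hm⟩ : ∃ m : ℕ, (m : ℤ) = t % (2 * A.size) :=
    ⟨(t % (2 * A.size)).toNat, Int.toNat_of_nonneg (Int.emod_nonneg _ (by omega))⟩
  have e : t = (m : ℤ) + (t / (2 * A.size)) * (2 * A.size) := by
    rw [hm]
    have := Int.emod_add_mul_ediv t (2 * A.size)
    linarith
  have e1 : A.zg t = A.zg (m : ℤ) := by
    rw [e]
    exact A.zg_per hs _ _
  have e2 : ∀ i, A.zp t i = A.zp (m : ℤ) i := by
    intro i
    rw [e]
    exact A.zp_per hs _ _ i
  have e3 : m % A.size = (t % A.size).toNat := by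
    have h4 : ((m % A.size : ℕ) : ℤ) = t % A.size := by
      push_cast
      rw [hm]
      exact Int.emod_emod_of_dvd t ⟨2, by ring⟩
    rw [← h4, Int.toNat_natCast]
  rw [e1, e2, e2, A.onG_iff hn h m hi, A.onG_iff hn h m hj, ← e3, ← A.meet_mod hs hi hj]
  rfl

/-- `exists_meet`, `meet_mod`, `onG_iff`: choose the residue modulo `size` and shift it into
`[t₀, t₀ + size)` (first replace `t₀` by a natural number, `zg_per`, `zp_per`). -/
theorem zmeet_ex (hn : 3 ≤ n) (h : A.Simple) (t₀ : ℤ) (i j : ℕ) (hi : i < n) (hj : j < n)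
    (hij : i ≠ j) : ∃ t, t₀ ≤ t ∧ t < t₀ + A.size ∧ OnG (A.zg t) (A.zp t i) ∧
      OnG (A.zg t) (A.zp t j) := by
  have hs : 0 < A.size := A.size_pos (by omega)
  have hsz : (0 : ℤ) < A.size := by exact_mod_cast hs
  obtain ⟨u, ⟨hu1, hu2⟩, -⟩ := A.exists_meet hi hj hij
  have h1 : 0 ≤ ((u : ℤ) - t₀) % A.size := Int.emod_nonneg _ hsz.ne'
  have h2 : ((u : ℤ) - t₀) % A.size < A.size := Int.emod_lt_of_pos _ hsz
  refine ⟨t₀ + ((u : ℤ) - t₀) % A.size, by omega, by omega, ?_⟩
  rw [A.ofarrc_key hn h _ hi hj]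
  have h3 : (t₀ + ((u : ℤ) - t₀) % A.size) % A.size = u := by
    rw [Int.add_emod_emod, add_sub_cancel, Int.emod_eq_of_lt (by omega) (by omega)]
  rw [h3, Int.toNat_natCast]
  exact hu2

/-- `meet_unique`, `onG_iff` (first replace `t` and `s` by natural numbers) -/
theorem zmeet_un (hn : 3 ≤ n) (h : A.Simple) (i j : ℕ) (t s : ℤ) (hi : i < n) (hj : j < n)
    (hij : i ≠ j) (h1 : OnG (A.zg t) (A.zp t i)) (h2 : OnG (A.zg t) (A.zp t j))
    (h3 : OnG (A.zg s) (A.zp s i)) (h4 : OnG (A.zg s) (A.zp s j)) : (A.size : ℤ) ∣ t - s := by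
  have hs : 0 < A.size := A.size_pos (by omega)
  have hsz : (0 : ℤ) < A.size := by exact_mod_cast hs
  have a1 := (A.ofarrc_key hn h t hi hj).1 ⟨h1, h2⟩
  have a2 := (A.ofarrc_key hn h s hi hj).1 ⟨h3, h4⟩
  have a3 := A.meet_unique hs hi hj hij a1 a2
  have b1 : 0 ≤ t % A.size := Int.emod_nonneg _ hsz.ne'
  have b2 : t % A.size < A.size := Int.emod_lt_of_pos _ hsz
  have b3 : 0 ≤ s % A.size := Int.emod_nonneg _ hsz.ne'
  have b4 : s % A.size < A.size := Int.emod_lt_of_pos _ hsz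
  rw [Nat.mod_eq_of_lt (by omega), Nat.mod_eq_of_lt (by omega)] at a3
  have a4 : t % A.size = s % A.size := by omega
  exact Int.dvd_of_emod_eq_zero (Int.emod_eq_emod_iff_emod_sub_eq_zero.1 a4)

end Arrangement

end Pool.Agent.Lib.MP_91c05b_co
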