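import Pool.Agent.Lib.MP_91c05b_co.K.OfArrC

namespace Pool.Agent.Lib.MP_91c05b_co

namespace Arrangement

variable {n : ℕ} (A : Arrangement n)

private theorem ofarrd_zg_shift (hs : 0 < A.size) (t : ℤ) (k : ℤ) (h : 0 ≤ t + k * (2 * A.size)) :
    A.zg t = (A.unroll (t + k * (2 * A.size)).toNat).hi := by
  rw [← A.zg_per hs t k, ← A.zg_nat hs, Int.toNat_of_nonneg h]

/-- `exists_touch` (first replace `t` by a natural number) -/
theorem ztouch (hn : 3 ≤ n) (h : A.Simple) (t s : ℤ) (hts : t < s) (h1 : A.zg s = A.zg t)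
    (h2 : ∀ u, t < u → u < s → A.zg u ≠ A.zg t) :
    ∃ u, t < u ∧ u < s ∧ (A.zg u + 1 = A.zg t ∨ A.zg u = A.zg t + 1) := by
  have hs : 0 < A.size := A.size_pos (by omega)
  set k : ℤ := |t| with hk
  set c : ℤ := k * (2 * A.size) with hc
  have hsz : (1 : ℤ) ≤ A.size := by exact_mod_cast hs
  have hc0 : 0 ≤ t + c := by
    have h3 : |t| * 1 ≤ |t| * (2 * A.size) := mul_le_mul_of_nonneg_left (by omega) (abs_nonneg t)
    have h4 := neg_abs_le t
    rw [hc, hk]
    omega
  have hz : ∀ u : ℤ, t ≤ u → A.zg u = (A.unroll (u + c).toNat).hi := fun u hu =>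
    ofarrd_zg_shift A hs u k (by omega)
  have hcut : ∀ u : ℤ, t ≤ u → ((A.unroll (u + c).toNat).Cuts (A.zg t) ↔ A.zg u = A.zg t) := by
    intro u hu
    have h5 := A.unroll_simple hn h (u + c).toNat
    unfold Crossing.Cuts
    rw [hz u hu]
    omega
  obtain ⟨v, hv1, hv2, hv3⟩ := A.exists_touch hs (t := (t + c).toNat) (s := (s + c).toNat)
    (g := A.zg t) (by omega) ((hcut t le_rfl).2 rfl) ((hcut s hts.le).2 h1) (by
      intro u hu1 hu2
      have h6 : ((u : ℤ) - c + c).toNat = u := by omega
      have h7 := hcut ((u : ℤ) - c) (by omega)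
      rw [h6] at h7
      rw [h7]
      exact h2 _ (by omega) (by omega))
  refine ⟨(v : ℤ) - c, by omega, by omega, ?_⟩
  have h8 : ((v : ℤ) - c + c).toNat = v := by omega
  have h9 := hz ((v : ℤ) - c) (by omega)
  rw [h8] at h9
  have h10 := A.unroll_simple hn h v
  rw [h9]
  unfold Crossing.Touches at hv3
  omega

/-- The crossings in `[0, size)` with `γ + 1 = n` are those with `hi + 1 = n`, and the crossings in
`[size, 2 size)` with `γ + 1 = n` correspond to those in `[0, size)` with `lo = 0` (`zg_add`). -/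
theorem zouter (hn : 3 ≤ n) (h : A.Simple) :
    ((Finset.Ico (0 : ℤ) (2 * A.size)).filter (fun u => A.zg u + 1 = n)).card = A.outerSides := by
  have hs : 0 < A.size := A.size_pos (by omega)
  have e0 : ((Finset.Ico (0 : ℤ) (2 * A.size)).filter (fun u => A.zg u + 1 = n)).card =
      ((Finset.range (A.size + A.size)).filter (fun t => (A.unroll t).hi + 1 = n)).card := by
    refine Finset.card_nbij' (fun u : ℤ => u.toNat) (fun t : ℕ => (t : ℤ)) ?_ ?_ ?_ ?_
    · intro u hu
      simp only [Finset.coe_filter, Finset.mem_Ico, Set.mem_ofPred_eq] at hu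
      simp only [Finset.coe_filter, Finset.mem_range, Set.mem_ofPred_eq]
      obtain ⟨⟨a, b⟩, c⟩ := hu
      refine ⟨by omega, ?_⟩
      rw [← A.zg_nat hs, Int.toNat_of_nonneg a]
      exact c
    · intro t ht
      simp only [Finset.coe_filter, Finset.mem_range, Set.mem_ofPred_eq] at ht
      simp only [Finset.coe_filter, Finset.mem_Ico, Set.mem_ofPred_eq]
      refine ⟨⟨by omega, by omega⟩, ?_⟩
      rw [A.zg_nat hs]
      exact ht.2
    · intro u hu
      simp only [Finset.coe_filter, Finset.mem_Ico, Set.mem_ofPred_eq] at hu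
      exact Int.toNat_of_nonneg hu.1.1
    · intro t _
      simp
  have e1 : ((Finset.range (A.size + A.size)).filter (fun t => (A.unroll t).hi + 1 = n)).card =
      ((Finset.range A.size).filter (fun t => (A.c t).hi + 1 = n)).card +
        ((Finset.range A.size).filter (fun t => (A.c t).lo = 0)).card := by
    simp only [Finset.card_filter]
    rw [Finset.sum_range_add]
    congr 1
    · apply Finset.sum_congr rfl
      intro t ht
      rw [A.unroll_of_lt (Finset.mem_range.1 ht)]
    · apply Finset.sum_congr rfl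
      intro t ht
      have ht' := Finset.mem_range.1 ht
      have h3 := A.valid t ht'
      have h4 : (A.unroll (A.size + t)).hi = n - 1 - (A.c t).lo := by
        rw [Nat.add_comm, A.unroll_add hs, A.unroll_of_lt ht']
        rfl
      rw [h4]
      have h5 : (n - 1 - (A.c t).lo + 1 = n) ↔ (A.c t).lo = 0 := by omega
      simp only [h5]
  have e2 : ∀ p : ℕ → Prop, ∀ [DecidablePred p], Set.ncard {t | t < A.size ∧ p t} =
      ((Finset.range A.size).filter p).card := by
    intro p _
    rw [← Set.ncard_coe_finset]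
    congr 1
    ext t
    simp only [Set.mem_ofPred_eq, Finset.coe_filter, Finset.mem_range]
  rw [e0, e1]
  unfold outerSides
  rw [e2, e2]

/-- the simple wiring diagram on the sphere -/
noncomputable def toSph (hn : 3 ≤ n) (h : A.Simple) : Sph n A.size where
  γ := A.zg
  pos := A.zp
  three_le := hn
  N_pos := A.size_pos (by omega)
  γ_pos := A.zg_pos hn
  γ_lt := A.zg_lt hn
  γ_add := A.zg_add hn h
  gap_ex := A.zg_ex hn h
  pos_lt := A.zp_lt hn
  pos_inj := A.zp_inj
  pos_surj := A.zp_surj hn
  pos_step := A.zp_step hn h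
  pos_add := A.zp_add hn
  meet_ex := A.zmeet_ex hn h
  meet_un := A.zmeet_un hn h
  touch_ex := A.ztouch hn h
  outer_ge := by rw [A.zouter hn h]; exact A.outer_ge (by omega)

end Arrangement

end Pool.Agent.Lib.MP_91c05b_co
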