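import Pool.Agent.Lib.MP_91c05b_co.K.Nxt

namespace Pool.Agent.Lib.MP_91c05b_co

namespace Sph

variable {n N : ℕ} (X : Sph n N)

theorem γ_per (t : ℤ) : X.γ (t + 2 * N) = X.γ t := by
  have h1 := X.γ_add (t + N)
  have h2 := X.γ_add t
  have h3 := X.γ_lt t
  have e : t + 2 * (N : ℤ) = t + N + N := by ring
  rw [e, h1, h2]
  omega

/-- `γ` is periodic with period `2 * N` (multiples in both directions). -/
theorem γ_per_mul (t : ℤ) (k : ℤ) : X.γ (t + k * (2 * N)) = X.γ t := by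
  have h : Function.Periodic X.γ (2 * (N : ℤ)) := fun t => X.γ_per t
  have h2 := h.int_mul k t
  rwa [Int.cast_id] at h2

/-- every gap is crossed after `t`: `gap_ex` and `γ_per_mul` (`N > 0`) -/
theorem ex_gt {g : ℕ} (h1 : 1 ≤ g) (h2 : g < n) (t : ℤ) : ∃ u, t < u ∧ X.γ u = g := by
  obtain ⟨u, hu⟩ := X.gap_ex g h1 h2
  have hN := X.N_pos
  refine ⟨u + (|t - u| + 1) * (2 * N), ?_, by rw [X.γ_per_mul, hu]⟩
  have h3 : |t - u| + 1 ≤ (|t - u| + 1) * (2 * (N : ℤ)) :=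
    le_mul_of_one_le_right (by positivity) (by omega)
  have h4 := le_abs_self (t - u)
  linarith

theorem ex_lt {g : ℕ} (h1 : 1 ≤ g) (h2 : g < n) (t : ℤ) : ∃ u, u < t ∧ X.γ u = g := by
  obtain ⟨u, hu⟩ := X.gap_ex g h1 h2
  have hN := X.N_pos
  refine ⟨u + (-(|t - u| + 1)) * (2 * N), ?_, by rw [X.γ_per_mul, hu]⟩
  have h3 : |t - u| + 1 ≤ (|t - u| + 1) * (2 * (N : ℤ)) :=
    le_mul_of_one_le_right (by positivity) (by omega)
  have h4 := neg_abs_le (t - u)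
  linarith

/-- every position `p < n` is used by a later crossing (`p = 0`: gap `1`, otherwise gap `p`) -/
theorem ex_gt_pos {p : ℕ} (h : p < n) (t : ℤ) :
    ∃ u, t < u ∧ (X.γ u = p ∨ X.γ u = p + 1) := by
  have h3 := X.three_le
  rcases Nat.eq_zero_or_pos p with hp | hp
  · obtain ⟨u, hu, hg⟩ := X.ex_gt (g := 1) le_rfl (by omega) t
    exact ⟨u, hu, Or.inr (by omega)⟩
  · obtain ⟨u, hu, hg⟩ := X.ex_gt hp h t
    exact ⟨u, hu, Or.inl hg⟩

theorem ex_lt_pos {p : ℕ} (h : p < n) (t : ℤ) :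
    ∃ u, u < t ∧ (X.γ u = p ∨ X.γ u = p + 1) := by
  have h3 := X.three_le
  rcases Nat.eq_zero_or_pos p with hp | hp
  · obtain ⟨u, hu, hg⟩ := X.ex_lt (g := 1) le_rfl (by omega) t
    exact ⟨u, hu, Or.inr (by omega)⟩
  · obtain ⟨u, hu, hg⟩ := X.ex_lt hp h t
    exact ⟨u, hu, Or.inl hg⟩

theorem pos_per (t : ℤ) {i : ℕ} (hi : i < n) : X.pos (t + 2 * N) i = X.pos t i := by
  have h1 := X.pos_add (t + N) i hi
  have h2 := X.pos_add t i hi
  have h3 := X.pos_lt t i hi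
  have e : t + 2 * (N : ℤ) = t + N + N := by ring
  rw [e, h1, h2]
  omega

theorem dp_lt (e : Dart) : X.dp e < n := by
  have := X.γ_lt e.1
  unfold dp
  split_ifs <;> omega

end Sph

end Pool.Agent.Lib.MP_91c05b_co
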