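import Pool.Agent.Lib.MP_91c05b_co.K.Defs

namespace Pool.Agent.Lib.MP_91c05b_co

/-- Pull the lowest wire off the crossing number `t₀`: with `lo`, `hi` its positions, the crossing is
replaced by the simple crossings `(lo, lo + 1), …, (hi - 1, hi)` and then `(lo, hi - 1)`. -/
def splitC (c : ℕ → Crossing) (t₀ : ℕ) (t : ℕ) : Crossing :=
  if t < t₀ then c t
  else if t < t₀ + ((c t₀).hi - (c t₀).lo) then
    ⟨(c t₀).lo + (t - t₀), (c t₀).lo + (t - t₀) + 1⟩
  else if t = t₀ + ((c t₀).hi - (c t₀).lo) then ⟨(c t₀).lo, (c t₀).hi - 1⟩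
  else c (t - ((c t₀).hi - (c t₀).lo))

theorem pos_split_le (c : ℕ → Crossing) (t₀ : ℕ) {t : ℕ} (ht : t ≤ t₀) (i : ℕ) :
    pos (splitC c t₀) t i = pos c t i := by
  induction t with
  | zero => rfl
  | succ t ih =>
    have h1 : t < t₀ := by omega
    have h2 : splitC c t₀ t = c t := by
      unfold splitC
      rw [if_pos h1]
    show (splitC c t₀ t).move (pos (splitC c t₀) t i) = (c t).move (pos c t i)
    rw [h2, ih (by omega)]

/-- during the pulling: the wire that came in position `lo` is in position `lo + k`, the next `k`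
wires have moved down by one -/
theorem pos_split_mid (c : ℕ → Crossing) (t₀ : ℕ) (h : (c t₀).lo < (c t₀).hi) {k : ℕ}
    (hk : k ≤ (c t₀).hi - (c t₀).lo) (i : ℕ) :
    pos (splitC c t₀) (t₀ + k) i =
      if pos c t₀ i = (c t₀).lo then (c t₀).lo + k
      else if (c t₀).lo < pos c t₀ i ∧ pos c t₀ i ≤ (c t₀).lo + k then pos c t₀ i - 1
      else pos c t₀ i := by
  induction k with
  | zero =>
    rw [Nat.add_zero, pos_split_le c t₀ le_rfl i]
    split_ifs <;> omega
  | succ k ih =>
    have h2 : splitC c t₀ (t₀ + k) = ⟨(c t₀).lo + k, (c t₀).lo + k + 1⟩ := by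
      unfold splitC
      rw [if_neg (by omega), if_pos (by omega), Nat.add_sub_cancel_left]
    show (splitC c t₀ (t₀ + k)).move (pos (splitC c t₀) (t₀ + k) i) = _
    rw [h2, ih (by omega)]
    generalize pos c t₀ i = p
    unfold Crossing.move
    simp only []
    split_ifs <;> omega

theorem pos_split_gt (c : ℕ → Crossing) (t₀ : ℕ) (h : (c t₀).lo < (c t₀).hi) (m i : ℕ) :
    pos (splitC c t₀) (t₀ + ((c t₀).hi - (c t₀).lo) + 1 + m) i = pos c (t₀ + 1 + m) i := by
  induction m with
  | zero =>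
    have h2 : splitC c t₀ (t₀ + ((c t₀).hi - (c t₀).lo)) = ⟨(c t₀).lo, (c t₀).hi - 1⟩ := by
      unfold splitC
      rw [if_neg (by omega), if_neg (by omega), if_pos rfl]
    show (splitC c t₀ (t₀ + ((c t₀).hi - (c t₀).lo))).move
      (pos (splitC c t₀) (t₀ + ((c t₀).hi - (c t₀).lo)) i) = (c t₀).move (pos c t₀ i)
    rw [h2, pos_split_mid c t₀ h le_rfl i]
    generalize pos c t₀ i = p
    unfold Crossing.move
    simp only []
    split_ifs <;> omega
  | succ m ih =>
    have h2 : splitC c t₀ (t₀ + ((c t₀).hi - (c t₀).lo) + 1 + m) = c (t₀ + 1 + m) := by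
      unfold splitC
      rw [if_neg (by omega), if_neg (by omega), if_neg (by omega)]
      congr 1
      omega
    show (splitC c t₀ (t₀ + ((c t₀).hi - (c t₀).lo) + 1 + m)).move
      (pos (splitC c t₀) (t₀ + ((c t₀).hi - (c t₀).lo) + 1 + m) i) =
      (c (t₀ + 1 + m)).move (pos c (t₀ + 1 + m) i)
    rw [h2, ih]

end Pool.Agent.Lib.MP_91c05b_co
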