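import Pool.Agent.Lib.MP_91c05b_co.K.SplitA

namespace Pool.Agent.Lib.MP_91c05b_co

private theorem splitb_lt (c : ℕ → Crossing) (t₀ : ℕ) {t : ℕ} (ht : t < t₀) :
    splitC c t₀ t = c t := by
  unfold splitC; rw [if_pos ht]

private theorem splitb_mid (c : ℕ → Crossing) (t₀ : ℕ) {k : ℕ} (hk : k < (c t₀).hi - (c t₀).lo) :
    splitC c t₀ (t₀ + k) = ⟨(c t₀).lo + k, (c t₀).lo + k + 1⟩ := by
  unfold splitC
  rw [if_neg (by omega), if_pos (by omega), Nat.add_sub_cancel_left]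

private theorem splitb_last (c : ℕ → Crossing) (t₀ : ℕ) :
    splitC c t₀ (t₀ + ((c t₀).hi - (c t₀).lo)) = ⟨(c t₀).lo, (c t₀).hi - 1⟩ := by
  unfold splitC
  rw [if_neg (by omega), if_neg (by omega), if_pos rfl]

private theorem splitb_gt (c : ℕ → Crossing) (t₀ m : ℕ) :
    splitC c t₀ (t₀ + ((c t₀).hi - (c t₀).lo) + 1 + m) = c (t₀ + 1 + m) := by
  unfold splitC
  rw [if_neg (by omega), if_neg (by omega), if_neg (by omega)]
  congr 1
  omega

private theorem splitb_has_lt (c : ℕ → Crossing) (t₀ : ℕ) {t : ℕ} (ht : t < t₀) (i : ℕ) :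
    (splitC c t₀ t).Has (pos (splitC c t₀) t i) ↔ (c t).Has (pos c t i) := by
  rw [splitb_lt c t₀ ht, pos_split_le c t₀ ht.le]

private theorem splitb_has_gt (c : ℕ → Crossing) (t₀ : ℕ) (h : (c t₀).lo < (c t₀).hi) (m i : ℕ) :
    (splitC c t₀ (t₀ + ((c t₀).hi - (c t₀).lo) + 1 + m)).Has
      (pos (splitC c t₀) (t₀ + ((c t₀).hi - (c t₀).lo) + 1 + m) i) ↔
      (c (t₀ + 1 + m)).Has (pos c (t₀ + 1 + m) i) := by
  rw [splitb_gt, pos_split_gt c t₀ h]

private theorem splitb_has_mid (c : ℕ → Crossing) (t₀ : ℕ) (h : (c t₀).lo < (c t₀).hi) {k : ℕ}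
    (hk : k < (c t₀).hi - (c t₀).lo) (i : ℕ) :
    (splitC c t₀ (t₀ + k)).Has (pos (splitC c t₀) (t₀ + k) i) ↔
      (pos c t₀ i = (c t₀).lo ∨ pos c t₀ i = (c t₀).lo + k + 1) := by
  rw [splitb_mid c t₀ hk, pos_split_mid c t₀ h hk.le]
  simp only [Crossing.Has]
  split_ifs with h1 h2
  · constructor
    · intro _; exact Or.inl h1
    · intro _; omega
  · constructor
    · intro _; omega
    · intro _; omega
  · constructor
    · intro _; omega
    · intro _; omega

private theorem splitb_has_last (c : ℕ → Crossing) (t₀ : ℕ) (h : (c t₀).lo < (c t₀).hi) (i : ℕ) :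
    (splitC c t₀ (t₀ + ((c t₀).hi - (c t₀).lo))).Has
      (pos (splitC c t₀) (t₀ + ((c t₀).hi - (c t₀).lo)) i) ↔
      ((c t₀).lo < pos c t₀ i ∧ pos c t₀ i ≤ (c t₀).hi) := by
  rw [splitb_last, pos_split_mid c t₀ h le_rfl]
  simp only [Crossing.Has]
  split_ifs with h1 h2
  · constructor
    · intro _; omega
    · intro _; omega
  · constructor
    · intro _; omega
    · intro _; omega
  · constructor
    · intro _; omega
    · intro _; omega

private theorem splitb_cases (t₀ d t : ℕ) : t < t₀ ∨ (∃ k, k < d ∧ t = t₀ + k) ∨ t = t₀ + d ∨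
    ∃ m, t = t₀ + d + 1 + m := by
  rcases Nat.lt_or_ge t t₀ with h | h
  · exact Or.inl h
  · rcases Nat.lt_or_ge t (t₀ + d) with h1 | h1
    · exact Or.inr (Or.inl ⟨t - t₀, by omega, by omega⟩)
    · rcases Nat.eq_or_lt_of_le h1 with h2 | h2
      · exact Or.inr (Or.inr (Or.inl h2.symm))
      · exact Or.inr (Or.inr (Or.inr ⟨t - (t₀ + d + 1), by omega⟩))

/-- positions are injective -/
private theorem splitb_inj (c : ℕ → Crossing) (t : ℕ) {i j : ℕ} (h : pos c t i = pos c t j) :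
    i = j := by
  induction t with
  | zero => exact h
  | succ t ih => exact ih (Crossing.move_inj h)

namespace Arrangement

variable {n : ℕ} (A : Arrangement n)

theorem split_valid (t₀ : ℕ) (ht : t₀ < A.size) (h : (A.c t₀).lo + 1 < (A.c t₀).hi) :
    ∀ t < A.size + ((A.c t₀).hi - (A.c t₀).lo),
      (splitC A.c t₀ t).lo < (splitC A.c t₀ t).hi ∧ (splitC A.c t₀ t).hi < n := by
  intro t ht'
  have h0 := A.valid t₀ ht
  rcases splitb_cases t₀ ((A.c t₀).hi - (A.c t₀).lo) t with h1 | ⟨k, hk, rfl⟩ | rfl | ⟨m, rfl⟩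
  · rw [splitb_lt _ _ h1]
    exact A.valid t (h1.trans ht)
  · rw [splitb_mid _ _ hk]
    show (A.c t₀).lo + k < (A.c t₀).lo + k + 1 ∧ (A.c t₀).lo + k + 1 < n
    omega
  · rw [splitb_last]
    show (A.c t₀).lo < (A.c t₀).hi - 1 ∧ (A.c t₀).hi - 1 < n
    omega
  · rw [splitb_gt]
    exact A.valid _ (by omega)

/-- Two wires that meet at `t ≠ t₀` in `A` meet exactly at the corresponding crossing of the split
diagram (`pos_split_le`, `pos_split_gt`; in the new block at least one of them is outside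
`[lo, hi]` and stays there, `pos_split_mid`). Two wires that meet at `t₀`: if one of them is the
lowest one (position `lo`) and the other has the position `lo + k + 1`, they meet exactly at
`t₀ + k`; otherwise they meet exactly at the crossing `(lo, hi - 1)`, number `t₀ + (hi - lo)`. -/
theorem split_cross (t₀ : ℕ) (ht : t₀ < A.size) (h : (A.c t₀).lo + 1 < (A.c t₀).hi) :
    ∀ i j, i < j → j < n →
      ∃! t, t < A.size + ((A.c t₀).hi - (A.c t₀).lo) ∧
        (splitC A.c t₀ t).Has (pos (splitC A.c t₀) t i) ∧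
        (splitC A.c t₀ t).Has (pos (splitC A.c t₀) t j) := by
  intro i j hij hj
  have h0 : (A.c t₀).lo < (A.c t₀).hi := (A.valid t₀ ht).1
  obtain ⟨s, ⟨hs, hsi, hsj⟩, hu⟩ := A.cross i j hij hj
  have hne : pos A.c t₀ i ≠ pos A.c t₀ j := fun e => hij.ne (splitb_inj _ _ e)
  set d := (A.c t₀).hi - (A.c t₀).lo with hd
  by_cases hst : s = t₀
  · subst hst
    have hother : ∀ t, t < A.size + d → (splitC A.c s t).Has (pos (splitC A.c s) t i) →
        (splitC A.c s t).Has (pos (splitC A.c s) t j) →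
        (∃ k, k < d ∧ t = s + k) ∨ t = s + d := by
      intro t ht' h1 h2
      rcases splitb_cases s d t with h3 | h3 | h3 | ⟨m, rfl⟩
      · rw [splitb_has_lt _ _ h3] at h1 h2
        have := hu t ⟨h3.trans ht, h1, h2⟩
        omega
      · exact Or.inl h3
      · exact Or.inr h3
      · rw [splitb_has_gt _ _ h0] at h1 h2
        have := hu (s + 1 + m) ⟨by omega, h1, h2⟩
        omega
    unfold Crossing.Has at hsi hsj
    by_cases hlo : pos A.c s i = (A.c s).lo ∨ pos A.c s j = (A.c s).lo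
    · -- the lowest wire is one of the two
      obtain ⟨k, hk, hk2⟩ : ∃ k, k < d ∧
          ((pos A.c s i = (A.c s).lo ∧ pos A.c s j = (A.c s).lo + k + 1) ∨
            (pos A.c s j = (A.c s).lo ∧ pos A.c s i = (A.c s).lo + k + 1)) := by
        rcases hlo with h1 | h1
        · exact ⟨pos A.c s j - (A.c s).lo - 1, by omega, Or.inl ⟨h1, by omega⟩⟩
        · exact ⟨pos A.c s i - (A.c s).lo - 1, by omega, Or.inr ⟨h1, by omega⟩⟩
      refine ⟨s + k, ⟨by omega, ?_, ?_⟩, ?_⟩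
      · rw [splitb_has_mid _ _ h0 hk]; omega
      · rw [splitb_has_mid _ _ h0 hk]; omega
      · rintro t ⟨ht', h1, h2⟩
        rcases hother t ht' h1 h2 with ⟨k', hk', rfl⟩ | rfl
        · rw [splitb_has_mid _ _ h0 hk'] at h1 h2
          omega
        · rw [splitb_has_last _ _ h0] at h1 h2
          omega
    · refine ⟨s + d, ⟨by omega, ?_, ?_⟩, ?_⟩
      · rw [splitb_has_last _ _ h0]; omega
      · rw [splitb_has_last _ _ h0]; omega
      · rintro t ⟨ht', h1, h2⟩
        rcases hother t ht' h1 h2 with ⟨k', hk', rfl⟩ | rfl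
        · rw [splitb_has_mid _ _ h0 hk'] at h1 h2
          omega
        · rfl
  · -- the two wires do not meet at `t₀`
    have hno : ¬ ((A.c t₀).Has (pos A.c t₀ i) ∧ (A.c t₀).Has (pos A.c t₀ j)) := by
      rintro ⟨h1, h2⟩
      exact hst (hu t₀ ⟨ht, h1, h2⟩).symm
    unfold Crossing.Has at hno
    have hother : ∀ t, (splitC A.c t₀ t).Has (pos (splitC A.c t₀) t i) →
        (splitC A.c t₀ t).Has (pos (splitC A.c t₀) t j) →
        t < t₀ ∨ ∃ m, t = t₀ + d + 1 + m := by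
      intro t h1 h2
      rcases splitb_cases t₀ d t with h3 | ⟨k, hk, rfl⟩ | rfl | h3
      · exact Or.inl h3
      · rw [splitb_has_mid _ _ h0 hk] at h1 h2
        omega
      · rw [splitb_has_last _ _ h0] at h1 h2
        omega
      · exact Or.inr h3
    rcases Nat.lt_or_gt_of_ne hst with h3 | h3
    · refine ⟨s, ⟨by omega, (splitb_has_lt _ _ h3 _).2 hsi, (splitb_has_lt _ _ h3 _).2 hsj⟩, ?_⟩
      rintro t ⟨ht', h1, h2⟩
      rcases hother t h1 h2 with h4 | ⟨m, rfl⟩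
      · rw [splitb_has_lt _ _ h4] at h1 h2
        exact hu t ⟨h4.trans ht, h1, h2⟩
      · rw [splitb_has_gt _ _ h0] at h1 h2
        have := hu (t₀ + 1 + m) ⟨by omega, h1, h2⟩
        omega
    · obtain ⟨m, rfl⟩ : ∃ m, s = t₀ + 1 + m := ⟨s - (t₀ + 1), by omega⟩
      refine ⟨t₀ + d + 1 + m, ⟨by omega, (splitb_has_gt _ _ h0 _ _).2 hsi,
        (splitb_has_gt _ _ h0 _ _).2 hsj⟩, ?_⟩
      rintro t ⟨ht', h1, h2⟩
      rcases hother t h1 h2 with h4 | ⟨m', rfl⟩
      · rw [splitb_has_lt _ _ h4] at h1 h2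
        have := hu t ⟨h4.trans ht, h1, h2⟩
        omega
      · rw [splitb_has_gt _ _ h0] at h1 h2
        have := hu (t₀ + 1 + m') ⟨by omega, h1, h2⟩
        omega

/-- A simple crossing has only two of the `n ≥ 3` wires (positions are injective: `P_of_le`,
`P_inj` of `A` and `pos_split_mid`; or count), the crossing `(lo, hi - 1)` contains only wires of the
old crossing `t₀`. -/
theorem split_nc (hn : 3 ≤ n) (t₀ : ℕ) (ht : t₀ < A.size) (h : (A.c t₀).lo + 1 < (A.c t₀).hi) :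
    ∀ t < A.size + ((A.c t₀).hi - (A.c t₀).lo),
      ∃ i < n, ¬ (splitC A.c t₀ t).Has (pos (splitC A.c t₀) t i) := by
  intro t ht'
  have h0 : (A.c t₀).lo < (A.c t₀).hi := (A.valid t₀ ht).1
  have h00 : (A.c t₀).hi < n := (A.valid t₀ ht).2
  have hs : 0 < A.size := by omega
  rcases splitb_cases t₀ ((A.c t₀).hi - (A.c t₀).lo) t with h1 | ⟨k, hk, rfl⟩ | rfl | ⟨m, rfl⟩
  · obtain ⟨i, hi, h2⟩ := A.not_concurrent t (h1.trans ht)
    exact ⟨i, hi, fun h3 => h2 ((splitb_has_lt _ _ h1 _).1 h3)⟩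
  · obtain ⟨p, hp, hp1, hp2⟩ : ∃ p, p < n ∧ p ≠ (A.c t₀).lo ∧ p ≠ (A.c t₀).lo + k + 1 := by
      by_cases h2 : (A.c t₀).lo = 0
      · by_cases h3 : k = 0
        · exact ⟨2, by omega, by omega, by omega⟩
        · exact ⟨1, by omega, by omega, by omega⟩
      · exact ⟨0, by omega, by omega, by omega⟩
    obtain ⟨i, hi, h2⟩ := A.P_surj hs t₀ hp
    rw [A.P_of_le ht.le] at h2
    refine ⟨i, hi, fun h3 => ?_⟩
    rw [splitb_has_mid _ _ h0 hk, h2] at h3
    omega
  · obtain ⟨i, hi, h2⟩ := A.P_surj hs t₀ (show (A.c t₀).lo < n by omega)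
    rw [A.P_of_le ht.le] at h2
    refine ⟨i, hi, fun h3 => ?_⟩
    rw [splitb_has_last _ _ h0, h2] at h3
    omega
  · obtain ⟨i, hi, h2⟩ := A.not_concurrent (t₀ + 1 + m) (by omega)
    exact ⟨i, hi, fun h3 => h2 ((splitb_has_gt _ _ h0 _ _).1 h3)⟩

end Arrangement

end Pool.Agent.Lib.MP_91c05b_co
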