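import Pool.Agent.Lib.MP_91c05b_co.K.SplitB
import Pool.Agent.Lib.MP_91c05b_co.K.InjB
import Pool.Agent.Lib.MP_91c05b_co.K.OfArrA

namespace Pool.Agent.Lib.MP_91c05b_co

namespace Arrangement

variable {n : ℕ} (A : Arrangement n)

/-- the diagram with the crossing `t₀` split -/
def split (hn : 3 ≤ n) (t₀ : ℕ) (ht : t₀ < A.size) (h : (A.c t₀).lo + 1 < (A.c t₀).hi) :
    Arrangement n where
  size := A.size + ((A.c t₀).hi - (A.c t₀).lo)
  c := splitC A.c t₀
  valid := A.split_valid t₀ ht h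
  cross := A.split_cross t₀ ht h
  not_concurrent := A.split_nc hn t₀ ht h

/-- `numCellsGe_le_of_map₀` with `ψ u = u` for `u < t₀`, `t₀` for
`t₀ ≤ u ≤ t₀ + (hi - lo)`, `u - (hi - lo)` afterwards -/
theorem numCellsGe_split (hn : 3 ≤ n) (t₀ : ℕ) (ht : t₀ < A.size)
    (h : (A.c t₀).lo + 1 < (A.c t₀).hi) (k : ℕ) :
    A.numCellsGe k ≤ (A.split hn t₀ ht h).numCellsGe k := by
  obtain ⟨lo, hlo⟩ : ∃ x, x = (A.c t₀).lo := ⟨_, rfl⟩
  obtain ⟨hi, hhi⟩ : ∃ x, x = (A.c t₀).hi := ⟨_, rfl⟩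
  obtain ⟨d, hd⟩ : ∃ x, x = (A.c t₀).hi - (A.c t₀).lo := ⟨_, rfl⟩
  have hd2 : 2 ≤ d := by omega
  have hlh : lo + d = hi := by omega
  have hsz : (A.split hn t₀ ht h).size = A.size + d := by rw [hd]; rfl
  have hc : ∀ u, (A.split hn t₀ ht h).c u = splitC A.c t₀ u := fun _ => rfl
  have h1 : ∀ u, u < t₀ → splitC A.c t₀ u = A.c u := fun u hu => by
    unfold splitC; rw [if_pos hu]
  have h2 : ∀ u, t₀ ≤ u → u < t₀ + d → splitC A.c t₀ u = ⟨lo + (u - t₀), lo + (u - t₀) + 1⟩ :=
    fun u hu hu' => by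
      unfold splitC
      rw [if_neg (by omega), if_pos (by omega), ← hlo]
  have h3 : splitC A.c t₀ (t₀ + d) = ⟨lo, hi - 1⟩ := by
    unfold splitC
    rw [if_neg (by omega), if_neg (by omega), if_pos (by omega), ← hlo, ← hhi]
  have h4 : ∀ u, t₀ + d < u → splitC A.c t₀ u = A.c (u - d) := fun u hu => by
    unfold splitC
    rw [if_neg (by omega), if_neg (by omega), if_neg (by omega), ← hd]
  obtain ⟨ψ, hψ⟩ : ∃ ψ : ℕ → ℕ, ψ = fun u => if u < t₀ then u else if u ≤ t₀ + d then t₀ else u - d :=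
    ⟨_, rfl⟩
  have g1 : ∀ u, u < t₀ → ψ u = u := fun u hu => by rw [hψ]; exact if_pos hu
  have g2 : ∀ u, t₀ ≤ u → u ≤ t₀ + d → ψ u = t₀ := fun u hu hu' => by
    rw [hψ]; dsimp only; rw [if_neg (by omega), if_pos hu']
  have g3 : ∀ u, t₀ + d < u → ψ u = u - d := fun u hu => by
    rw [hψ]; dsimp only; rw [if_neg (by omega), if_neg (by omega)]
  have cases : ∀ u, u < t₀ ∨ (t₀ ≤ u ∧ u < t₀ + d) ∨ u = t₀ + d ∨ t₀ + d < u := fun u => by omega
  refine numCellsGe_le_of_map₀ A (A.split hn t₀ ht h) hn ψ ?_ ?_ ?_ ?_ ?_ ?_ k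
  · intro u v huv _
    rw [hψ]
    dsimp only
    split_ifs <;> omega
  · intro u hu
    rw [hsz] at hu
    rw [hψ]
    dsimp only
    split_ifs <;> omega
  · intro u hu
    rw [hc]
    rcases cases u with hu1 | ⟨hu1, hu2⟩ | hu1 | hu1
    · rw [h1 u hu1, g1 u hu1]
      exact ⟨le_rfl, le_rfl⟩
    · rw [h2 u hu1 hu2, g2 u hu1 hu2.le, ← hlo, ← hhi]
      dsimp only
      omega
    · rw [hu1, h3, g2 _ (by omega) le_rfl, ← hlo, ← hhi]
      dsimp only
      omega
    · rw [h4 u hu1, g3 u hu1]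
      exact ⟨le_rfl, le_rfl⟩
  · intro t htA g hg
    rcases lt_trichotomy t t₀ with h5 | h5 | h5
    · refine ⟨t, by omega, g1 t h5, ?_⟩
      rw [hc, h1 t h5]
      exact hg
    · subst h5
      unfold Crossing.Cuts at hg
      rw [← hlo, ← hhi] at hg
      refine ⟨t + (g - lo - 1), by omega, g2 _ (by omega) (by omega), ?_⟩
      rw [hc, h2 _ (by omega) (by omega)]
      unfold Crossing.Cuts
      dsimp only
      omega
    · refine ⟨t + d, by omega, ?_, ?_⟩
      · rw [g3 _ (by omega)]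
        omega
      · rw [hc, h4 _ (by omega), Nat.add_sub_cancel]
        exact hg
  · intro t htA
    rcases lt_trichotomy t t₀ with h5 | h5 | h5
    · refine ⟨t, by omega, g1 t h5, ?_⟩
      rw [hc, h1 t h5]
    · subst h5
      refine ⟨t, by omega, g2 _ le_rfl (by omega), ?_⟩
      rw [hc, h2 _ le_rfl (by omega), ← hlo]
      dsimp only
      omega
    · refine ⟨t + d, by omega, ?_, ?_⟩
      · rw [g3 _ (by omega)]
        omega
      · rw [hc, h4 _ (by omega), Nat.add_sub_cancel]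
  · intro t htA
    rcases lt_trichotomy t t₀ with h5 | h5 | h5
    · refine ⟨t, by omega, g1 t h5, ?_⟩
      rw [hc, h1 t h5]
    · subst h5
      refine ⟨t + (d - 1), by omega, g2 _ (by omega) (by omega), ?_⟩
      rw [hc, h2 _ (by omega) (by omega), ← hhi]
      dsimp only
      omega
    · refine ⟨t + d, by omega, ?_, ?_⟩
      · rw [g3 _ (by omega)]
        omega
      · rw [hc, h4 _ (by omega), Nat.add_sub_cancel]

/-- induction on `n.choose 2 - A.size` (`size_le_choose`; splitting increases the size) -/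
theorem exists_simple (hn : 3 ≤ n) : ∃ B : Arrangement n, B.Simple ∧
    ∀ k, A.numCellsGe k ≤ B.numCellsGe k := by
  have key : ∀ m : ℕ, ∀ A : Arrangement n, n.choose 2 - A.size ≤ m →
      ∃ B : Arrangement n, B.Simple ∧ ∀ k, A.numCellsGe k ≤ B.numCellsGe k := by
    intro m
    induction m with
    | zero =>
      intro A hA
      by_cases hS : A.Simple
      · exact ⟨A, hS, fun _ => le_rfl⟩
      · exfalso
        unfold Simple at hS
        push Not at hS
        obtain ⟨t₀, ht, hne⟩ := hS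
        have hv := A.valid t₀ ht
        have h : (A.c t₀).lo + 1 < (A.c t₀).hi := by omega
        have h1 := size_le_choose (A.split hn t₀ ht h) (by omega)
        have h2 : (A.split hn t₀ ht h).size = A.size + ((A.c t₀).hi - (A.c t₀).lo) := rfl
        omega
    | succ m ih =>
      intro A hA
      by_cases hS : A.Simple
      · exact ⟨A, hS, fun _ => le_rfl⟩
      · unfold Simple at hS
        push Not at hS
        obtain ⟨t₀, ht, hne⟩ := hS
        have hv := A.valid t₀ ht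
        have h : (A.c t₀).lo + 1 < (A.c t₀).hi := by omega
        have h2 : (A.split hn t₀ ht h).size = A.size + ((A.c t₀).hi - (A.c t₀).lo) := rfl
        obtain ⟨B, hB, hle⟩ := ih (A.split hn t₀ ht h) (by omega)
        exact ⟨B, hB, fun k => (A.numCellsGe_split hn t₀ ht h k).trans (hle k)⟩
  exact key _ A le_rfl

end Arrangement

end Pool.Agent.Lib.MP_91c05b_co
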