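import Mathlib

/-!
# Tracks: the abstract combinatorial lemma

`D` is the finite set of darts (sides of the faces) of a cell decomposition with all vertices of
degree four, `α` passes to the other side of the edge, `φ` to the next side of the same face;
`φ (α (φ x))` continues straight on behind the end point of `x`.
-/

namespace Pool.Agent.Lib.MP_91c05b_co

open Finset

private theorem trk_inv {D : Type*} (κ : Equiv.Perm D) {e e' : D} {i j : ℕ}
    (h : (κ ^ i) e = (κ ^ j) e') (hij : i ≤ j) : e = (κ ^ (j - i)) e' := by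
  have h1 : (κ ^ j) e' = (κ ^ i) ((κ ^ (j - i)) e') := by
    rw [← Equiv.Perm.mul_apply, ← pow_add]
    congr 2
    omega
  exact (κ ^ i).injective (h.trans h1)

private theorem trk_len {D ι V : Type*} (α φ : Equiv.Perm D)
    (hα : ∀ e, α (α e) = e) (sz : D → ℕ)
    (h3 : ∀ e, sz e = 3 → φ (φ (φ e)) = e)
    (h4 : ∀ e, sz e = 4 → φ (φ (φ (φ e))) = e)
    (wire : D → ι) (tail : D → V) (meet : V → ι → ι → Prop)
    (hmc : ∀ v i j, meet v i j → meet v j i)
    (F1 : ∀ x, wire (φ (α (φ x))) = wire x)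
    (F2 : ∀ y, meet (tail (φ y)) (wire y) (wire (φ y)))
    (L : ℕ)
    (F3 : ∀ x b j, meet (tail x) (wire x) b →
      meet (tail (φ ((fun z => φ (α (φ z)))^[j] x))) (wire x) b → L ≤ j)
    (κ : Equiv.Perm D) (hκ : ∀ e, κ e = α (φ (φ e))) (e : D) (m : ℕ)
    (he : sz (α e) = 3) (hm3 : sz ((κ ^ m) e) = 3) (hm4 : ∀ i, i < m → sz ((κ ^ i) e) = 4) :
    L ≤ m + 1 := by
  have hsucc : ∀ i, (κ ^ (i + 1)) e = α (φ (φ ((κ ^ i) e))) := by
    intro i
    rw [pow_succ', Equiv.Perm.mul_apply, hκ]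
  have hx : φ (φ (φ (α e))) = α e := h3 _ he
  have hit : ∀ i, (fun z => φ (α (φ z)))^[i + 1] (φ (φ (α e))) = φ ((κ ^ i) e) := by
    intro i
    induction i with
    | zero =>
      simp only [zero_add, Function.iterate_one, pow_zero, Equiv.Perm.coe_one, id_eq]
      rw [hx, hα]
    | succ i ih =>
      rw [Function.iterate_succ_apply', ih, hsucc]
  have hwit : ∀ i x, wire ((fun z => φ (α (φ z)))^[i] x) = wire x := by
    intro i x
    induction i with
    | zero => rfl
    | succ i ih =>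
      rw [Function.iterate_succ_apply']
      exact (F1 _).trans ih
  have hb : ∀ i, i ≤ m → wire (φ.symm ((κ ^ i) e)) = wire (φ (α e)) := by
    intro i
    induction i with
    | zero =>
      intro _
      have := F1 (φ.symm e)
      rw [Equiv.apply_symm_apply] at this
      simp only [pow_zero, Equiv.Perm.coe_one, id_eq]
      exact this.symm
    | succ i ih =>
      intro hi
      have h := F1 (φ.symm ((κ ^ (i + 1)) e))
      rw [Equiv.apply_symm_apply, hsucc, hα] at h
      have h5 : φ (φ (φ ((κ ^ i) e))) = φ.symm ((κ ^ i) e) := by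
        rw [Equiv.eq_symm_apply]
        exact h4 _ (hm4 i (by omega))
      rw [h5, ih (by omega)] at h
      rw [hsucc]
      exact h.symm
  have hm1 : meet (tail (φ (φ (α e)))) (wire (φ (φ (α e)))) (wire (φ (α e))) :=
    hmc _ _ _ (F2 (φ (α e)))
  have hm2 : meet (tail (φ (φ ((κ ^ m) e)))) (wire (φ (φ (α e)))) (wire (φ (α e))) := by
    have h := F2 (φ ((κ ^ m) e))
    have h5 : wire (φ ((κ ^ m) e)) = wire (φ (φ (α e))) := by
      rw [← hit m, hwit]
    have h6 : wire (φ (φ ((κ ^ m) e))) = wire (φ (α e)) := by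
      have h7 : φ (φ ((κ ^ m) e)) = φ.symm ((κ ^ m) e) := by
        rw [Equiv.eq_symm_apply]
        exact h3 _ hm3
      rw [h7]
      exact hb m le_rfl
    rw [h5, h6] at h
    exact h
  refine F3 (φ (φ (α e))) (wire (φ (α e))) (m + 1) hm1 ?_
  rw [hit m]
  exact hm2

/-- Proof. Let `κ e = α (φ (φ e))` (a permutation). Start from the `e` with `sz (α e) = 3`
(as many as there are `e` with `sz e = 3`). The iterates `κ^i e` cannot all lie in faces with four
sides: the orbit of `e` under `κ` is finite and contains `κ⁻¹ e = φ⁻¹ (φ⁻¹ (α e))` with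
`sz = 3`. Let `m` be the first index with `sz (κ^m e) ≠ 4`, so it is `3` or `≥ 5`. The map
`e ↦ κ^m e` is injective: if `κ^m e = κ^m' e'` with `m' ≤ m` then `κ^(m-m') e = e'`; if `m' < m` then
`κ^(m-m'-1) e = κ⁻¹ e'` has `sz = 4` and `3`. So the number of `e` with `sz (κ^m e) ≥ 5` is at most
the number of darts with `sz ≥ 5`. If `sz (κ^m e) = 3` then `L ≤ m + 1`, shown below, and the darts
`κ^i e`, `i < m`, have `sz = 4` and are different for different `(e, i)` (as before). So
`(L - 1) * #{such e} ≤ #{sz = 4}`.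

`L ≤ m + 1`: put `s x = φ (α (φ x))`, `d = α e`, `x = φ⁻¹ d = φ (φ d)`, `e_i = κ^i e`. Then
`s x = φ (α d) = φ e`, `s (φ e_i) = φ e_(i+1)`, so `φ e_m = s^(m+1) x`. On the other side
`s (φ⁻¹ e) = φ (α e) = φ d` and `s (φ⁻¹ e_(i+1)) = φ (α e_(i+1)) = φ (φ (φ e_i)) = φ⁻¹ e_i`
for `i < m` (`φ^4 e_i = e_i`; `α e_(i+1) = φ (φ e_i)`), so with `b = wire (φ d)` all
`wire (φ⁻¹ e_i) = b` for `i ≤ m` by `F1`. `F2` for `y = φ d` (then `φ y = x`): `b` and `wire x` meet
at `tail x`. `F2` for `y = φ e_m` (then `φ y = φ⁻¹ e_m` by `φ^3 e_m = e_m`): `wire (φ e_m) = wire x`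
and `b = wire (φ y)` meet at `tail (φ y)`. Apply `F3` with `j = m + 1`. -/
theorem track {D ι V : Type*} [Fintype D] [DecidableEq D] (α φ : Equiv.Perm D)
    (hα : ∀ e, α (α e) = e) (sz : D → ℕ) (hsz : ∀ e, sz (φ e) = sz e)
    (hge : ∀ e, 3 ≤ sz e) (h3 : ∀ e, sz e = 3 → φ (φ (φ e)) = e)
    (h4 : ∀ e, sz e = 4 → φ (φ (φ (φ e))) = e)
    (wire : D → ι) (tail : D → V) (meet : V → ι → ι → Prop)
    (hmc : ∀ v i j, meet v i j → meet v j i)
    (F1 : ∀ x, wire (φ (α (φ x))) = wire x)
    (F2 : ∀ y, meet (tail (φ y)) (wire y) (wire (φ y)))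
    (L : ℕ)
    (F3 : ∀ x b j, meet (tail x) (wire x) b →
      meet (tail (φ ((fun z => φ (α (φ z)))^[j] x))) (wire x) b → L ≤ j) :
    (L - 1) * (univ.filter (fun e => sz e = 3)).card ≤
      (L - 1) * (univ.filter (fun e => 5 ≤ sz e)).card +
        (univ.filter (fun e => sz e = 4)).card := by
  classical
  set κ : Equiv.Perm D := α * (φ * φ) with hκdef
  have hκ : ∀ e, κ e = α (φ (φ e)) := fun e => rfl
  have hinv : ∀ e, sz (α e) = 3 → sz (κ⁻¹ e) = 3 := by
    intro e he
    have h1 : κ (κ⁻¹ e) = e := by simp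
    rw [hκ] at h1
    have h2 : φ (φ (κ⁻¹ e)) = α e := by
      rw [← hα (φ (φ (κ⁻¹ e))), h1]
    rw [← hsz, ← hsz, h2, he]
  have hex : ∀ e, sz (α e) = 3 → ∃ m, sz ((κ ^ m) e) ≠ 4 := by
    intro e he
    refine ⟨orderOf κ - 1, ?_⟩
    have h0 : 0 < orderOf κ := orderOf_pos κ
    have h1 : κ ^ (orderOf κ - 1) = κ⁻¹ := by
      rw [eq_inv_iff_mul_eq_one, ← pow_succ]
      have : orderOf κ - 1 + 1 = orderOf κ := by omega
      rw [this, pow_orderOf_eq_one]
    rw [h1, hinv e he]
    decide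
  have hch : ∀ e, ∃ m, sz (α e) = 3 →
      (sz ((κ ^ m) e) ≠ 4 ∧ ∀ i, i < m → sz ((κ ^ i) e) = 4) := by
    intro e
    by_cases he : sz (α e) = 3
    · refine ⟨Nat.find (hex e he), fun _ => ⟨Nat.find_spec (hex e he), fun i hi => ?_⟩⟩
      have := Nat.find_min (hex e he) hi
      exact not_not.mp this
    · exact ⟨0, fun h => absurd h he⟩
  choose M hM using hch
  have hkey : ∀ e e' i j, sz (α e) = 3 → sz (α e') = 3 → i ≤ j → j ≤ M e' →
      (κ ^ i) e = (κ ^ j) e' → i = j ∧ e = e' := by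
    intro e e' i j he he' hij hj h
    have h1 := trk_inv κ h hij
    by_cases hlt : i = j
    · subst hlt
      simp only [Nat.sub_self, pow_zero, Equiv.Perm.coe_one, id_eq] at h1
      exact ⟨rfl, h1⟩
    · exfalso
      have h2 : κ⁻¹ e = (κ ^ (j - i - 1)) e' := by
        rw [Equiv.Perm.inv_eq_iff_eq, ← Equiv.Perm.mul_apply, ← pow_succ']
        have : j - i - 1 + 1 = j - i := by omega
        rw [this]
        exact h1
      have h3' := hinv e he
      rw [h2, (hM e' he').2 _ (by omega)] at h3'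
      omega
  have hcard : (univ.filter (fun e => sz e = 3)).card =
      (univ.filter (fun e => sz (α e) = 3)).card := by
    symm
    refine Finset.card_bij (fun e _ => α e) ?_ ?_ ?_
    · intro e he
      simpa using he
    · intro a _ b _ hab
      exact α.injective hab
    · intro b hb
      refine ⟨α b, ?_, hα b⟩
      simp only [mem_filter, mem_univ, true_and] at hb ⊢
      rw [hα]
      exact hb
  have hsplit : (univ.filter (fun e => sz (α e) = 3)).card =
      (univ.filter (fun e => sz (α e) = 3 ∧ sz ((κ ^ (M e)) e) = 3)).card +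
        (univ.filter (fun e => sz (α e) = 3 ∧ ¬ sz ((κ ^ (M e)) e) = 3)).card := by
    rw [← Finset.card_filter_add_card_filter_not (s := univ.filter (fun e => sz (α e) = 3))
      (fun e => sz ((κ ^ (M e)) e) = 3), Finset.filter_filter, Finset.filter_filter]
  have hA : (univ.filter (fun e => sz (α e) = 3 ∧ ¬ sz ((κ ^ (M e)) e) = 3)).card ≤
      (univ.filter (fun e => 5 ≤ sz e)).card := by
    refine Finset.card_le_card_of_injOn (fun e => (κ ^ (M e)) e) ?_ ?_
    · intro e he
      simp only [coe_filter, mem_univ, true_and, Set.mem_ofPred_eq] at he ⊢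
      have h1 := hge ((κ ^ (M e)) e)
      have h2 := (hM e he.1).1
      have h3' := he.2
      omega
    · intro a ha b hb hab
      simp only [coe_filter, mem_univ, true_and, Set.mem_ofPred_eq] at ha hb
      rcases le_total (M a) (M b) with h | h
      · exact (hkey a b _ _ ha.1 hb.1 h le_rfl hab).2
      · exact ((hkey b a _ _ hb.1 ha.1 h le_rfl hab.symm).2).symm
  have hlen : ∀ e, sz (α e) = 3 → sz ((κ ^ (M e)) e) = 3 → L ≤ M e + 1 := fun e he he' =>
    trk_len α φ hα sz h3 h4 wire tail meet hmc F1 F2 L F3 κ hκ e (M e) he he' (hM e he).2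
  have hB : (L - 1) * (univ.filter (fun e => sz (α e) = 3 ∧ sz ((κ ^ (M e)) e) = 3)).card ≤
      (univ.filter (fun e => sz e = 4)).card := by
    have h1 : (L - 1) * (univ.filter (fun e => sz (α e) = 3 ∧ sz ((κ ^ (M e)) e) = 3)).card =
        (Finset.range (L - 1) ×ˢ
          (univ.filter (fun e => sz (α e) = 3 ∧ sz ((κ ^ (M e)) e) = 3))).card := by
      rw [Finset.card_product, Finset.card_range]
    rw [h1]
    refine Finset.card_le_card_of_injOn (fun p => (κ ^ p.1) p.2) ?_ ?_
    · rintro ⟨i, e⟩ he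
      simp only [coe_product, coe_range, coe_filter, mem_univ, true_and, Set.mem_prod,
        Set.mem_Iio, Set.mem_ofPred_eq] at he ⊢
      have h2 := hlen e he.2.1 he.2.2
      exact (hM e he.2.1).2 i (by omega)
    · rintro ⟨i, e⟩ he ⟨j, e'⟩ he' h
      simp only [coe_product, coe_range, coe_filter, mem_univ, true_and, Set.mem_prod,
        Set.mem_Iio, Set.mem_ofPred_eq] at he he' h
      have h2 := hlen e he.2.1 he.2.2
      have h3' := hlen e' he'.2.1 he'.2.2
      rcases le_total i j with hij | hij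
      · obtain ⟨h5, h6⟩ := hkey e e' i j he.2.1 he'.2.1 hij (by omega) h
        rw [h5, h6]
      · obtain ⟨h5, h6⟩ := hkey e' e j i he'.2.1 he.2.1 hij (by omega) h.symm
        rw [h5, h6]
  rw [hcard, hsplit, mul_add]
  have h7 := Nat.mul_le_mul_left (L - 1) hA
  omega

end Pool.Agent.Lib.MP_91c05b_co
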