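import Pool.Agent.Lib.MP_91c05b_co.K.Alpha

namespace Pool.Agent.Lib.MP_91c05b_co

namespace Sph

variable {n N : ℕ} (X : Sph n N)

theorem wireAt_spec {t : ℤ} {p : ℕ} (hp : p < n) :
    X.wireAt t p < n ∧ X.pos t (X.wireAt t p) = p := by
  unfold wireAt; rw [dif_pos hp]; exact (X.pos_surj t p hp).choose_spec

theorem wireAt_eq {t : ℤ} {i p : ℕ} (hi : i < n) (h : X.pos t i = p) : X.wireAt t p = i := by
  have hp : p < n := h ▸ X.pos_lt t i hi
  exact X.pos_inj t _ _ ((X.wireAt_spec hp).2.trans h.symm)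

theorem wire_lt (e : Dart) : X.wire e < n := (X.wireAt_spec (X.dp_lt e)).1

private theorem wire_mv_iff {g p q : ℕ} (hg : 1 ≤ g) (h : ¬ (g = p ∨ g = p + 1)) :
    mv g q = p ↔ q = p := by
  unfold mv
  split_ifs <;> omega

private theorem wire_mv_low {g : ℕ} (hg : 1 ≤ g) : mv g (g - 1) = g := by
  unfold mv
  rw [if_pos (by omega)]

private theorem wire_mv_up {g : ℕ} : mv g g = g - 1 := by
  unfold mv
  rw [if_neg (by omega), if_pos rfl]

/-- A wire in a position that no crossing uses from `a` to `b` stays there: induction with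
`pos_step`, `mv`. -/
theorem stay {a b : ℤ} (hab : a ≤ b) {i p : ℕ} (hi : i < n)
    (h : ∀ u, a ≤ u → u < b → ¬ (X.γ u = p ∨ X.γ u = p + 1)) :
    X.pos a i = p ↔ X.pos b i = p := by
  obtain ⟨k, rfl⟩ := Int.le.dest hab
  induction k with
  | zero => simp
  | succ k ih =>
    have h1 := ih (by omega) (fun u h2 h3 => h u h2 (by push_cast; omega))
    have h2 := h (a + (k : ℤ)) (by omega) (by push_cast; omega)
    rw [h1]
    have h3 : a + ((k + 1 : ℕ) : ℤ) = a + (k : ℤ) + 1 := by push_cast; ring
    rw [h3, X.pos_step _ i hi]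
    exact (wire_mv_iff (X.γ_pos _) h2).symm

/-- the front position of the wire of a dart -/
private theorem wire_front (t : ℤ) (r u : Bool) :
    X.wire (t, r, u) = X.wireAt t (if xor r u = true then X.γ t else X.γ t - 1) := by
  have hg := X.γ_pos t
  have hl := X.γ_lt t
  have s1 := X.wireAt_spec (t := t) (p := X.γ t) hl
  have s2 := X.wireAt_spec (t := t) (p := X.γ t - 1) (by omega)
  cases r <;> cases u
  · simp [wire, dp]
  · simp [wire, dp]
  · have h : X.wireAt (t + 1) (X.γ t - 1) = X.wireAt t (X.γ t) := by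
      refine X.wireAt_eq s1.1 ?_
      rw [X.pos_step _ _ s1.1, s1.2, wire_mv_up]
    simpa [wire, dp] using h
  · have h : X.wireAt (t + 1) (X.γ t) = X.wireAt t (X.γ t - 1) := by
      refine X.wireAt_eq s2.1 ?_
      rw [X.pos_step _ _ s2.1, s2.2, wire_mv_low hg]
    simpa [wire, dp] using h

private theorem wire_front_pos (t : ℤ) (r u : Bool) :
    X.pos t (X.wire (t, r, u)) = (if xor r u = true then X.γ t else X.γ t - 1) := by
  have hg := X.γ_pos t
  have hl := X.γ_lt t
  rw [X.wire_front]
  refine (X.wireAt_spec ?_).2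
  split_ifs <;> omega

/-- the wire of a right dart behind the crossing has the position `dp` (definition) and in front of
it the other position of the crossing -/
theorem on_wire (e : Dart) : OnG (X.γ e.1) (X.pos e.1 (X.wire e)) := by
  obtain ⟨t, r, u⟩ := e
  have hg := X.γ_pos t
  show OnG (X.γ t) (X.pos t (X.wire (t, r, u)))
  rw [X.wire_front_pos]
  unfold OnG
  split_ifs <;> omega

/-- both ends of an edge lie on the same wire (`nb_right`, `nb_left`, `stay`, `dp_al`) -/
theorem wire_al (e : Dart) : X.wire (X.al e) = X.wire e := by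
  have hp := X.dp_lt e
  have hd := X.dp_al e
  rcases hb : e.2.1 with _ | _
  · obtain ⟨h1, -, h3⟩ := X.nb_left hb
    have hb' : (X.al e).2.1 = true := by
      show (!e.2.1) = true
      rw [hb]; rfl
    have s := X.wireAt_spec (t := e.1) hp
    have h4 : X.wire e = X.wireAt e.1 (X.dp e) := by
      unfold wire
      rw [if_neg (by rw [hb]; exact Bool.false_ne_true)]
    have h5 : X.wire (X.al e) = X.wireAt (X.nb e + 1) (X.dp e) := by
      unfold wire
      rw [if_pos hb', hd]
      rfl
    rw [h4, h5]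
    refine X.wireAt_eq s.1 ?_
    exact (X.stay (by omega) s.1 (fun u h6 h7 => h3 u (by omega) h7)).2 s.2
  · obtain ⟨h1, -, h3⟩ := X.nb_right hb
    have hb' : ¬ (X.al e).2.1 = true := by
      show ¬ (!e.2.1) = true
      rw [hb]; simp
    have s := X.wireAt_spec (t := e.1 + 1) hp
    have h4 : X.wire e = X.wireAt (e.1 + 1) (X.dp e) := by
      unfold wire
      rw [if_pos hb]
    have h5 : X.wire (X.al e) = X.wireAt (X.nb e) (X.dp e) := by
      unfold wire
      rw [if_neg hb', hd]
      rfl
    rw [h4, h5]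
    refine X.wireAt_eq s.1 ?_
    exact (X.stay (by omega) s.1 (fun u h6 h7 => h3 u (by omega) h7)).1 s.2

/-- the opposite dart lies on the same wire: `pos_step` at the crossing -/
theorem wire_opp (e : Dart) : X.wire (dcw (dcw e)) = X.wire e := by
  obtain ⟨t, r, u⟩ := e
  show X.wire (t, !r, !u) = X.wire (t, r, u)
  rw [X.wire_front, X.wire_front]
  cases r <;> cases u <;> rfl

/-- the neighbouring dart lies on the other wire -/
theorem wire_cw_ne (e : Dart) : X.wire (dcw e) ≠ X.wire e := by
  obtain ⟨t, r, u⟩ := e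
  have hg := X.γ_pos t
  intro h
  have h1 : X.wire (t, u, !r) = X.wire (t, r, u) := h
  have h2 := X.wire_front_pos t u (!r)
  rw [h1, X.wire_front_pos] at h2
  cases r <;> cases u <;> simp at h2 <;> omega

theorem wire_F1 (e : Dart) : X.wire (X.phi (X.al (X.phi e))) = X.wire e := by
  have h : X.phi (X.al (X.phi e)) = dcw (dcw (X.al e)) := by
    unfold phi; rw [X.al_al]
  rw [h, X.wire_opp, X.wire_al]

theorem wire_F2 (y : Dart) : X.wire y ≠ X.wire (X.phi y) ∧
    OnG (X.γ (X.phi y).1) (X.pos (X.phi y).1 (X.wire y)) ∧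
    OnG (X.γ (X.phi y).1) (X.pos (X.phi y).1 (X.wire (X.phi y))) := by
  refine ⟨?_, ?_, X.on_wire _⟩
  · rw [← X.wire_al y]; exact (X.wire_cw_ne _).symm
  · have := X.on_wire (X.al y)
    rw [X.wire_al] at this
    exact this

/-- `γ_per`, `pos_per`, `wireAt_eq` -/
theorem wire_sh (e : Dart) : X.wire (sh (2 * N : ℕ) e) = X.wire e := by
  obtain ⟨t, r, u⟩ := e
  have hg := X.γ_pos t
  have hl := X.γ_lt t
  have h1 : sh (2 * N : ℕ) ((t, r, u) : Dart) = (t + 2 * (N : ℤ), r, u) := by
    unfold sh
    push_cast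
    rfl
  rw [h1, X.wire_front, X.wire_front, X.γ_per]
  have hp : (if xor r u = true then X.γ t else X.γ t - 1) < n := by
    split_ifs <;> omega
  have s := X.wireAt_spec (t := t) hp
  exact X.wireAt_eq s.1 ((X.pos_per t s.1).trans s.2)

end Sph

end Pool.Agent.Lib.MP_91c05b_co
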